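import Mathlib
import Pool.Agent.W71.TwoDeg

/-! Exponents from the finiteness and infinity statements. -/

set_option autoImplicit false

open Polynomial Set

namespace Pool.Agent.Y627.SP

open Pool.Agent.W71

variable {n : ℕ}

lemma no_root (ξ : ℝ) (w : ℕ → ℝ) (h : ∀ n : ℕ, 1 ≤ n → ∀ v : ℝ, w n < v →
    {P : ℤ[X] | P ≠ 0 ∧ P.natDegree ≤ n ∧ |aeval ξ P| ≤ ((Ht n P : ℕ) : ℝ) ^ (-v)}.Finite) :
    ∀ P : ℤ[X], P ≠ 0 → aeval ξ P ≠ 0 := by
  intro P hP h0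
  have hfin := h (P.natDegree + 1) (by omega) (w (P.natDegree + 1) + 1) (by linarith)
  have hinj : Function.Injective (fun k : ℕ => C ((k : ℤ) + 1) * P) := by
    intro a b hab
    have h1 := mul_right_cancel₀ hP hab
    have h2 := C_injective h1
    have : (a : ℤ) = b := by linarith
    exact_mod_cast this
  apply (Set.infinite_range_of_injective hinj)
  apply hfin.subset
  rintro _ ⟨k, rfl⟩
  have hk : C ((k : ℤ) + 1) ≠ 0 := by
    rw [Ne, C_eq_zero]; positivity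
  refine ⟨mul_ne_zero hk hP, ?_, ?_⟩
  · refine (natDegree_C_mul_le _ _).trans (by omega)
  · rw [map_mul, h0, mul_zero, abs_zero]
    positivity

lemma trans_of_no_root (ξ : ℝ) (h : ∀ P : ℤ[X], P ≠ 0 → aeval ξ P ≠ 0) :
    Transcendental ℚ ξ := by
  intro hξ
  obtain ⟨P, hP, h1⟩ := (IsFractionRing.isAlgebraic_iff ℤ ℚ ℝ).2 hξ
  exact h P hP h1

theorem wK_ge (ξ w : ℝ) (hw : 0 < w) (hξ : ∀ P : ℤ[X], P ≠ 0 → aeval ξ P ≠ 0)
    (hinf : {α : ℝ | ∃ P : ℤ[X], MinPolyZ P α ∧ P.natDegree = n ∧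
      |ξ - α| < (hgt P : ℝ) ^ (-(1 + w))}.Infinite) : (w : EReal) ≤ wK n ξ := by
  apply le_sSup_real (fun v => {α : ℝ | ∃ P : ℤ[X], MinPolyZ P α ∧ P.natDegree ≤ n ∧
      0 < |ξ - α| ∧ |ξ - α| ≤ (hgt P : ℝ) ^ (-v - 1)}.Infinite) w hw
  intro v hv0 hvw
  refine hinf.mono ?_
  rintro α ⟨P, hP, hdeg, h3⟩
  have hP0 : P ≠ 0 := by rintro rfl; have := hP.2.1; simp at this
  have hH1 : (1 : ℝ) ≤ hgt P := by exact_mod_cast hgt_pos hP0
  refine ⟨P, hP, hdeg.le, ?_, ?_⟩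
  · rw [abs_pos, sub_ne_zero]
    rintro rfl
    exact hξ P hP0 hP.2.2.2.1
  · exact h3.le.trans (Real.rpow_le_rpow_of_exponent_le hH1 (by linarith))

theorem wM_ge (ξ w : ℝ) (hw : 0 < w) (hξ : ∀ P : ℤ[X], P ≠ 0 → aeval ξ P ≠ 0)
    (hinf : {α : ℝ | ∃ P : ℤ[X], MinPolyZ P α ∧ P.natDegree = n ∧
      |ξ - α| < (hgt P : ℝ) ^ (-(1 + w))}.Infinite) : (w : EReal) ≤ wM n ξ := by
  apply le_sSup_real (fun v => {P : ℤ[X] | P.natDegree ≤ n ∧ 0 < |aeval ξ P| ∧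
      |aeval ξ P| ≤ (hgt P : ℝ) ^ (-v)}.Infinite) w hw
  intro v hv0 hvw hfin
  set C : ℝ := (n + 1) * cX n ξ with hC
  have hC1 : 1 ≤ C := by
    have h1 := one_le_cX n ξ
    have h2 : (0 : ℝ) ≤ n := Nat.cast_nonneg n
    rw [hC]; nlinarith
  have hvv : 0 < w - v := by linarith
  set N : ℝ := C ^ (1 / (w - v)) with hN
  have hfin2 := hfin.union (finite_hgt n N)
  apply hinf
  apply Set.Finite.subset (hfin2.biUnion (fun P _ => P.rootSet_finite ℝ))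
  rintro α ⟨P, hP, hdeg, hle⟩
  obtain ⟨-, hlead, -, hroot, -⟩ := hP
  have hP0 : P ≠ 0 := by rintro rfl; simp at hlead
  rw [mem_iUnion₂]
  refine ⟨P, ?_, ?_⟩
  · have hH1 : (1 : ℝ) ≤ hgt P := by exact_mod_cast hgt_pos hP0
    have hH0 : (0 : ℝ) < hgt P := by linarith
    by_cases hbig : (hgt P : ℝ) ≤ N
    · exact Or.inr ⟨hdeg.le, hbig⟩
    · left
      refine ⟨hdeg.le, abs_pos.2 (hξ P hP0), ?_⟩
      push Not at hbig
      have hd1 : |ξ - α| ≤ 1 := by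
        refine hle.le.trans ?_
        apply Real.rpow_le_one_of_one_le_of_nonpos hH1
        linarith
      have h2 := value_le hdeg.le ξ α hroot hd1
      rw [← hgt_eq_Ht hdeg.le] at h2
      have h3 : C ≤ (hgt P : ℝ) ^ (w - v) := by
        calc C = N ^ (w - v) := by
              rw [hN, ← Real.rpow_mul (by linarith), one_div_mul_cancel hvv.ne', Real.rpow_one]
          _ ≤ _ := Real.rpow_le_rpow (by rw [hN]; positivity) hbig.le hvv.le
      calc |aeval ξ P| ≤ C * (hgt P : ℝ) * |ξ - α| := h2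
        _ ≤ (hgt P : ℝ) ^ (w - v) * (hgt P : ℝ) * (hgt P : ℝ) ^ (-(1 + w)) := by
            apply mul_le_mul _ hle.le (abs_nonneg _) (by positivity)
            exact mul_le_mul_of_nonneg_right h3 hH0.le
        _ = (hgt P : ℝ) ^ (-v) := by
            nth_rw 2 [← Real.rpow_one (hgt P : ℝ)]
            rw [← Real.rpow_add hH0, ← Real.rpow_add hH0]
            congr 1; ring
  · rw [mem_rootSet]
    exact ⟨hP0, hroot⟩

end Pool.Agent.Y627.SP
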