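import Mathlib
import Pool.Agent.W71.TwoDeg

/-! Nested construction with a growing finite set of flows. -/

set_option autoImplicit false

open Polynomial Set MeasureTheory

namespace Pool.Agent.Y627.SP

open Pool.Agent.W71
open Pool.Agent.Helper404 (toP castQ toP_natDegree)

/-- growing sets of flows, with converging exponents and an additional typical property -/
theorem nested_grow (S : ℕ → Finset ℕ) (hSm : Monotone S) (ℓ : ℕ → ℕ) (hℓ : ∀ k, (ℓ k).Prime)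
    (hS : ∀ k, ∀ n ∈ S k, 1 ≤ n ∧ (n + 1) * n < ℓ k) (be ee : ℕ → ℝ) (hee : ∀ k, 2 ≤ ee k)
    (νp νd : ℕ → ℝ) (hνp : ∀ n, 0 ≤ νp n) (hνd : ∀ n, 0 ≤ νd n) (dl : ℕ → ℕ → ℝ)
    (hdl0 : ∀ n k, 0 ≤ dl n k) (hdla : ∀ n, Antitone (dl n))
    (hdl : ∀ n, Filter.Tendsto (dl n) Filter.atTop (nhds 0))
    (hR : ∀ k, ∀ n ∈ S k, Rich n (ℓ k) (be k) (ee k) (νp n + dl n k) (νd n + dl n k))
    (Y : ℕ → ℕ → ℝ → Prop) (hY : ∀ k, Typical (ℓ k) (be k) (ee k) (Y k))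
    (hper : ∀ k m ξ, Y k m ξ → ∀ j : ℤ, Y k m (j + ξ))
    (av : ℕ → ℝ) (M : ℕ → ℕ → ℕ) (M0 : ℕ) :
    ∃ (m : ℕ → ℕ) (p : ℕ → ℤ) (ξ : ℝ) (ξ0 : ℕ → ℝ), M0 ≤ m 0 ∧ (∀ k, 1 ≤ m k) ∧
      (∀ k, M k (m k) ≤ m (k + 1)) ∧ (∀ k, k ≤ m k) ∧
      (∀ k, ξ ∈ Icc ((p k : ℝ) / (ℓ k : ℝ) ^ (m k) + be k + rad (ℓ k) (ee k) (m k))
        ((p k : ℝ) / (ℓ k : ℝ) ^ (m k) + be k + rad (ℓ k) (ee k) (m k) + rad (ℓ k) (ee k) (m k))) ∧
      (∀ k, Y k (m k) (ξ0 k)) ∧ (∀ k, |ξ0 k - ξ| ≤ 1 / (ℓ (k + 1) : ℝ) ^ m (k + 1)) ∧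
      (∀ k, ξ ≠ av k) ∧
      ∀ n k0, n ∈ S k0 → ∀ ε : ℝ, 0 < ε → ∃ T : ℕ, ∀ t : ℕ, T ≤ t →
        OkP n ξ t (Real.exp (-((νp n + ε) * t))) ∧ OkD n ξ t (Real.exp (-((νd n + ε) * t))) := by
  classical
  set ep : ℕ → ℝ := fun k => 1 / ((k : ℝ) + 1) with hep
  have hep0 : ∀ k, 0 < ep k := fun k => by simp only [hep]; positivity
  have hfact : ∀ k, Fact (ℓ k).Prime := fun k => ⟨hℓ k⟩
  obtain ⟨m, p, ξ, ξ0, h1, h2, h3, h4, h5, h6, h7⟩ := nested_gen ℓ hℓ be ee hee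
    (fun k m ξ => Y k m ξ ∧
      ∀ n ∈ S k, Okk n (νp n + dl n k) (νd n + dl n k) (ep k) (Tm n (ℓ k) m) ξ)
    (fun k => by
      have := hfact k
      exact (hY k).and (Typical.finset (S k) _ (fun n hn => Typical.flow (hS k n hn).1
        ((hS k n hn).2)
        (add_nonneg (hνp n) (hdl0 n k)) (add_nonneg (hνd n) (hdl0 n k)) (hR k n hn) (ep k)
        (hep0 k))))
    (fun k m ξ h j => ⟨hper k m ξ h.1 j, fun n hn => (h.2 n hn).shift j⟩) av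
    (fun k m => max (M k m) (m + 1)) M0
  have hmk : ∀ k, k ≤ m k := by
    intro k
    induction k with
    | zero => omega
    | succ k ih => have := (le_max_right _ _).trans (h3 k); omega
  refine ⟨m, p, ξ, ξ0, h1, h2, fun k => (le_max_left _ _).trans (h3 k), hmk, h4,
    fun k => (h5 k).1, h6, h7, ?_⟩
  intro n k0 hn
  have hpw : ∀ k, (2 : ℝ) ^ k ≤ (ℓ k : ℝ) ^ m k := by
    intro k
    have hℓ2 : (2 : ℝ) ≤ ℓ k := by exact_mod_cast (hℓ k).two_le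
    calc (2 : ℝ) ^ k ≤ (ℓ k : ℝ) ^ k := pow_le_pow_left₀ (by norm_num) hℓ2 _
      _ ≤ (ℓ k : ℝ) ^ m k := pow_le_pow_right₀ (by linarith) (hmk k)
  have hqpos : ∀ k, (0 : ℝ) < (ℓ k : ℝ) ^ m k := fun k => pow_pos (by exact_mod_cast (hℓ k).pos) _
  refine cover ξ k0 (fun k => Tm n (ℓ k) (m k)) (fun k => 1 / (ℓ k : ℝ) ^ m k) ξ0
    (fun k => ep k + dl n k)
    (fun k => by have := hqpos k; positivity) (fun k => ?_) ?_ ?_ ?_ (fun k _ => ?_)
    (fun k hk => ?_) (fun k _ => h6 k)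
  · rw [div_le_one (hqpos k)]
    exact (one_le_pow₀ (by norm_num)).trans (hpw k)
  · have h8 : Filter.Tendsto (fun k : ℕ => (1 / 2 : ℝ) ^ k) Filter.atTop (nhds 0) :=
      tendsto_pow_atTop_nhds_zero_of_lt_one (by norm_num) (by norm_num)
    refine squeeze_zero (fun k => by have := hqpos k; positivity) (fun k => ?_) h8
    rw [one_div_pow]
    exact one_div_le_one_div_of_le (by positivity) (hpw k)
  · have := (tendsto_one_div_add_atTop_nhds_zero_nat (𝕜 := ℝ)).add (hdl n)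
    rw [add_zero] at this
    exact this
  · intro i j hij
    simp only [hep]
    apply add_le_add _ (hdla n hij)
    apply one_div_le_one_div_of_le (by positivity)
    have : (i : ℝ) ≤ j := by exact_mod_cast hij
    linarith
  · have := hfact (k + 1)
    have h9 := exp_Tm_le (ℓ := ℓ (k + 1)) n (m (k + 1))
    rw [mul_one_div, div_le_one (hqpos _)]
    exact h9
  · have h9 := (h5 k).2 n (hSm hk hn)
    intro t ht
    have h10 := h9 t ht
    have e1 : νp n + dl n k + ep k = νp n + (ep k + dl n k) := by ring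
    have e2 : νd n + dl n k + ep k = νd n + (ep k + dl n k) := by ring
    rw [e1, e2] at h10
    exact h10

end Pool.Agent.Y627.SP
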