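import Mathlib

/-!
# The product of an arithmetic progression divides `d ^ r * r! * lcm`
-/

set_option autoImplicit false

namespace Pool.Agent.Y627.SP

open Finset

/-- the telescoping identity, multiplied by the least common multiple -/
theorem ap_aux (d : ℤ) (Λ : ℤ) : ∀ q : ℕ, ∀ c : ℤ, (∀ j ≤ q, c - d * j ≠ 0) →
    (∀ j ≤ q, (c - d * j) ∣ Λ) →
    ∏ j ∈ range (q + 1), (c - d * j) ∣ d ^ q * (q.factorial : ℤ) * Λ := by
  intro q
  induction q with
  | zero =>
    intro c _ hΛ
    have := hΛ 0 le_rfl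
    simpa using this
  | succ q ih =>
    intro c h0 hΛ
    obtain ⟨x, hx⟩ := ih c (fun j hj => h0 j (by omega)) (fun j hj => hΛ j (by omega))
    have h1 : ∀ j : ℕ, c - d - d * j = c - d * ((j + 1 : ℕ) : ℤ) := by
      intro j; push_cast; ring
    obtain ⟨y, hy⟩ := ih (c - d) (fun j hj => by rw [h1]; exact h0 (j + 1) (by omega))
      (fun j hj => by rw [h1]; exact hΛ (j + 1) (by omega))
    -- the common product
    set Q : ℤ := ∏ j ∈ range q, (c - d * ((j + 1 : ℕ) : ℤ)) with hQ
    have hPa : ∏ j ∈ range (q + 1), (c - d * (j : ℤ)) = Q * c := by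
      rw [prod_range_succ', hQ]; simp
    have hPb : ∏ j ∈ range (q + 1), (c - d - d * (j : ℤ)) = Q * (c - d * ((q + 1 : ℕ) : ℤ)) := by
      rw [prod_range_succ]
      simp only [h1]
      rfl
    have hPc : ∏ j ∈ range (q + 1 + 1), (c - d * (j : ℤ)) =
        Q * c * (c - d * ((q + 1 : ℕ) : ℤ)) := by
      rw [prod_range_succ, hPa]
    have hQ0 : Q ≠ 0 := by
      rw [hQ, prod_ne_zero_iff]
      intro j hj
      exact h0 (j + 1) (by have := mem_range.1 hj; omega)
    rw [hPa] at hx
    rw [hPb] at hy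
    rw [hPc]
    refine ⟨y - x, ?_⟩
    have hc1 : c - d * ((q + 1 : ℕ) : ℤ) = c - d * (q + 1) := by push_cast; ring
    rw [hc1] at hy ⊢
    have h2 : Q * (d ^ (q + 1) * ((q + 1).factorial : ℤ) * Λ) =
        Q * (Q * c * (c - d * (q + 1)) * (y - x)) := by
      have e1 : Q * c * (c - d * (q + 1)) * y = c * (d ^ q * (q.factorial : ℤ) * Λ) := by
        rw [hy]; ring
      have e2 : Q * c * (c - d * (q + 1)) * x =
          (c - d * (q + 1)) * (d ^ q * (q.factorial : ℤ) * Λ) := by
        rw [hx]; ring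
      rw [mul_sub, e1, e2, Nat.factorial_succ]
      push_cast
      ring
    exact mul_left_cancel₀ hQ0 h2

/-- the product of an arithmetic progression without its zero factor -/
theorem ap_dvd (d : ℕ) (hd : 1 ≤ d) (r r' : ℕ) (hr : r' ≤ r + 1) (c Λ : ℤ)
    (hΛ : ∀ j < r', c - d * j ≠ 0 → (c - d * j) ∣ Λ) :
    ∏ j ∈ (Finset.range r').filter (fun j : ℕ => c - d * j ≠ 0), (c - d * j) ∣
      (d : ℤ) ^ r * (r.factorial : ℤ) * Λ := by
  rcases Nat.eq_zero_or_pos r' with h0 | h0
  · subst h0; simp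
  obtain ⟨q, rfl⟩ : ∃ q, r' = q + 1 := ⟨r' - 1, by omega⟩
  have hqr : q ≤ r := by omega
  have hdiv : (d : ℤ) ^ q * (q.factorial : ℤ) * Λ ∣ (d : ℤ) ^ r * (r.factorial : ℤ) * Λ :=
    mul_dvd_mul (mul_dvd_mul (pow_dvd_pow _ hqr)
      (by exact_mod_cast Nat.factorial_dvd_factorial hqr)) dvd_rfl
  refine dvd_trans ?_ hdiv
  by_cases hc : ∃ j0 < q + 1, c - d * (j0 : ℤ) = 0
  · obtain ⟨j0, hj0, hcj⟩ := hc
    have hce : c = d * j0 := by linarith
    have hd0 : (d : ℤ) ≠ 0 := by exact_mod_cast (by omega : d ≠ 0)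
    have hfil : (range (q + 1)).filter (fun j : ℕ => c - d * (j : ℤ) ≠ 0) =
        range j0 ∪ Ico (j0 + 1) (q + 1) := by
      ext j
      simp only [mem_filter, mem_range, mem_union, mem_Ico, hce]
      constructor
      · rintro ⟨h1, h2⟩
        have : j ≠ j0 := by
          rintro rfl
          exact h2 (by ring)
        omega
      · intro h
        refine ⟨by omega, ?_⟩
        have : j ≠ j0 := by omega
        intro h2
        have h3 : (d : ℤ) * ((j0 : ℤ) - j) = 0 := by linarith
        rcases mul_eq_zero.1 h3 with h4 | h4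
        · exact hd0 h4
        · apply this; exact_mod_cast (by linarith : (j : ℤ) = j0)
    have hdisj : Disjoint (range j0) (Ico (j0 + 1) (q + 1)) := by
      rw [disjoint_left]
      intro a ha hb
      have := mem_range.1 ha
      have := mem_Ico.1 hb
      omega
    rw [hfil, prod_union hdisj]
    have hA : ∏ j ∈ range j0, (c - d * (j : ℤ)) = (d : ℤ) ^ j0 * (j0.factorial : ℤ) := by
      rw [← prod_range_reflect, ← prod_range_add_one_eq_factorial]
      push_cast
      rw [← card_range j0, ← prod_const, card_range, ← prod_mul_distrib]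
      apply prod_congr rfl
      intro j hj
      have := mem_range.1 hj
      rw [hce, Nat.cast_sub (by omega), Nat.cast_sub (by omega)]
      push_cast
      ring
    have hB : ∏ j ∈ Ico (j0 + 1) (q + 1), (c - d * (j : ℤ)) =
        (-(d : ℤ)) ^ (q - j0) * ((q - j0).factorial : ℤ) := by
      rw [prod_Ico_eq_prod_range, ← prod_range_add_one_eq_factorial]
      have he : q + 1 - (j0 + 1) = q - j0 := by omega
      rw [he]
      push_cast
      conv_rhs => rw [← card_range (q - j0), ← prod_const, card_range, ← prod_mul_distrib]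
      apply prod_congr rfl
      intro j _
      rw [hce]
      ring
    rw [hA, hB]
    have hch : (j0.factorial : ℤ) * ((q - j0).factorial : ℤ) ∣ (q.factorial : ℤ) := by
      exact_mod_cast Nat.factorial_mul_factorial_dvd_factorial (by omega : j0 ≤ q)
    have hpw : (d : ℤ) ^ j0 * (-(d : ℤ)) ^ (q - j0) ∣ (d : ℤ) ^ q := by
      have h1 : (-(d : ℤ)) ^ (q - j0) ∣ (d : ℤ) ^ (q - j0) := by
        rw [neg_pow]
        refine ⟨(-1) ^ (q - j0), ?_⟩
        have : ((-1 : ℤ) ^ (q - j0)) * (-1) ^ (q - j0) = 1 := by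
          rw [← mul_pow]; norm_num
        calc (d : ℤ) ^ (q - j0) = (((-1 : ℤ) ^ (q - j0)) * (-1) ^ (q - j0)) * (d : ℤ) ^ (q - j0) := by
              rw [this, one_mul]
          _ = _ := by ring
      calc (d : ℤ) ^ j0 * (-(d : ℤ)) ^ (q - j0) ∣ (d : ℤ) ^ j0 * (d : ℤ) ^ (q - j0) :=
            mul_dvd_mul dvd_rfl h1
        _ = (d : ℤ) ^ q := by rw [← pow_add]; congr 1; omega
    have h5 : (d : ℤ) ^ j0 * (j0.factorial : ℤ) * ((-(d : ℤ)) ^ (q - j0) * ((q - j0).factorial : ℤ)) =
        ((d : ℤ) ^ j0 * (-(d : ℤ)) ^ (q - j0)) * ((j0.factorial : ℤ) * ((q - j0).factorial : ℤ)) := by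
      ring
    rw [h5]
    exact Dvd.dvd.mul_right (mul_dvd_mul hpw hch) Λ
  · push Not at hc
    have hfil : (range (q + 1)).filter (fun j : ℕ => c - d * (j : ℤ) ≠ 0) = range (q + 1) := by
      apply filter_true_of_mem
      intro j hj
      exact hc j (mem_range.1 hj)
    rw [hfil]
    exact ap_aux d Λ q c (fun j hj => hc j (by omega)) (fun j hj => hΛ j (by omega) (hc j (by omega)))

end Pool.Agent.Y627.SP
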