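import Mathlib

/-!
# The mean value theorem for divided differences of `β ^ s`
-/

set_option autoImplicit false

namespace Pool.Agent.Y627.SP

open Set Polynomial

/-- iterated Rolle theorem (as in `H353.LM.rolle_chain`) -/
theorem div_rolle (m : ℕ) : ∀ (f : ℕ → ℝ → ℝ) (a b : ℝ),
    (∀ j < m, ∀ x ∈ Icc a b, HasDerivAt (f j) (f (j + 1) x) x) →
    ∀ z : Fin (m + 1) → ℝ, StrictMono z → (∀ i, z i ∈ Icc a b) → (∀ i, f 0 (z i) = 0) →
    ∃ x ∈ Icc a b, f m x = 0 := by
  induction m with
  | zero => intro f a b _ z _ hz h0; exact ⟨z 0, hz 0, h0 0⟩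
  | succ m ih =>
    intro f a b hd z hm hz h0
    have key : ∀ i : Fin (m + 1), ∃ x ∈ Ioo (z i.castSucc) (z i.succ), f 1 x = 0 := by
      intro i
      have hlt : z i.castSucc < z i.succ := hm (Fin.castSucc_lt_succ)
      have hsub : Icc (z i.castSucc) (z i.succ) ⊆ Icc a b :=
        Icc_subset_Icc (hz _).1 (hz _).2
      obtain ⟨x, hx, h⟩ := exists_hasDerivAt_eq_zero (f := f 0) (f' := fun x => f 1 x) hlt
        (fun x hx => (hd 0 (Nat.succ_pos m) x (hsub hx)).continuousAt.continuousWithinAt)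
        (by rw [h0, h0]) (fun x hx => hd 0 (Nat.succ_pos m) x (hsub (Ioo_subset_Icc_self hx)))
      exact ⟨x, hx, h⟩
    choose w hw hw0 using key
    refine ih (fun j => f (j + 1)) a b
      (fun j hj => hd (j + 1) (by omega)) w ?_ ?_ hw0
    · intro i j hij
      have h1 : z i.succ ≤ z j.castSucc := hm.monotone (Fin.succ_le_castSucc_iff.mpr hij)
      exact ((hw i).2.trans_le h1).trans (hw j).1
    · intro i
      exact ⟨(hz _).1.trans (hw i).1.le, (hw i).2.le.trans (hz _).2⟩

/-- divided differences of `β ^ s` -/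
theorem divided_bound (β : ℝ) (h0 : 0 < β) (h1 : β < 1) (K : ℕ) (T : Finset ℕ)
    (hT : T.card = K + 1) :
    |∑ s ∈ T, β ^ s / ∏ t ∈ T.erase s, ((s : ℝ) - t)| ≤ (-Real.log β) ^ K / K.factorial := by
  set L := Real.log β with hL
  have hLneg : L < 0 := Real.log_neg h0 h1
  have hinj : Set.InjOn (fun s : ℕ => (s : ℝ)) (T : Set ℕ) := fun a _ b _ h =>
    Nat.cast_injective h
  set P : ℝ[X] := Lagrange.interpolate T (fun s : ℕ => (s : ℝ)) (fun s => β ^ s) with hP
  have heval : ∀ s ∈ T, P.eval (s : ℝ) = β ^ s := by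
    intro s hs
    exact Lagrange.eval_interpolate_at_node (fun s => β ^ s) hinj hs
  have hdeg : P.degree < T.card := Lagrange.degree_interpolate_lt _ hinj
  have hcoeff : P.coeff K = ∑ s ∈ T, β ^ s / ∏ t ∈ T.erase s, ((s : ℝ) - t) := by
    have h2 := Lagrange.coeff_eq_sum hinj hdeg
    rw [hT, Nat.add_sub_cancel] at h2
    rw [h2]
    apply Finset.sum_congr rfl
    intro s hs
    rw [heval s hs]
  have hnat : P.natDegree ≤ K := by
    rw [hT] at hdeg
    exact Nat.lt_succ_iff.1 (by
      by_cases hP0 : P = 0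
      · rw [hP0, natDegree_zero]; omega
      · exact (natDegree_lt_iff_degree_lt hP0).2 hdeg)
  have hiter : derivative^[K] P = C ((K.factorial : ℝ) * P.coeff K) := by
    have h3 : (derivative^[K] P).natDegree = 0 := by
      have := natDegree_iterate_derivative P K
      omega
    rw [eq_C_of_natDegree_eq_zero h3, coeff_iterate_derivative]
    congr 1
    rw [zero_add, Nat.descFactorial_self, nsmul_eq_mul]
  -- the functions
  set f : ℕ → ℝ → ℝ := fun j x => L ^ j * Real.exp (x * L) - (derivative^[j] P).eval x with hf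
  have hder : ∀ j < K, ∀ x ∈ Icc (0 : ℝ) ((T.sup id : ℕ) : ℝ), HasDerivAt (f j) (f (j + 1) x) x := by
    intro j _ x _
    have h4 : HasDerivAt (fun x : ℝ => Real.exp (x * L)) (Real.exp (x * L) * L) x := by
      have h5 : HasDerivAt (fun x : ℝ => x * L) L x := by
        simpa using (hasDerivAt_id x).mul_const L
      exact h5.exp
    have h6 := (h4.const_mul (L ^ j)).sub ((derivative^[j] P).hasDerivAt x)
    have h7 : f (j + 1) x = L ^ j * (Real.exp (x * L) * L) -
        (derivative (derivative^[j] P)).eval x := by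
      simp only [hf, Function.iterate_succ_apply', pow_succ]
      ring
    rw [h7]
    exact h6
  let z : Fin (K + 1) → ℝ := fun i => ((T.orderEmbOfFin hT i : ℕ) : ℝ)
  have hzT : ∀ i, T.orderEmbOfFin hT i ∈ T := fun i => T.orderEmbOfFin_mem hT i
  obtain ⟨x, hx, hfx⟩ := div_rolle K f 0 ((T.sup id : ℕ) : ℝ) hder z
    (by
      intro i j hij
      have := (T.orderEmbOfFin hT).strictMono hij
      exact Nat.cast_lt.2 this)
    (by
      intro i
      refine ⟨Nat.cast_nonneg _, ?_⟩
      have : T.orderEmbOfFin hT i ≤ T.sup id := Finset.le_sup (f := id) (hzT i)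
      exact Nat.cast_le.2 this)
    (by
      intro i
      have h8 := heval _ (hzT i)
      simp only [hf, z, Function.iterate_zero, id_eq, pow_zero, one_mul]
      rw [h8, Real.exp_nat_mul, hL, Real.exp_log h0, sub_self])
  have h9 : (K.factorial : ℝ) * P.coeff K = L ^ K * Real.exp (x * L) := by
    simp only [hf] at hfx
    rw [hiter, eval_C] at hfx
    linarith
  rw [← hcoeff, le_div_iff₀ (by positivity)]
  have h10 : |P.coeff K| * (K.factorial : ℝ) = |L ^ K * Real.exp (x * L)| := by
    rw [← h9, abs_mul, Nat.abs_cast, mul_comm]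
  rw [h10, abs_mul, abs_pow, abs_of_neg hLneg, abs_of_pos (Real.exp_pos _)]
  have h11 : Real.exp (x * L) ≤ 1 := by
    rw [Real.exp_le_one_iff]
    exact mul_nonpos_of_nonneg_of_nonpos hx.1 hLneg.le
  have h12 : 0 ≤ (-L) ^ K := pow_nonneg (by linarith) _
  nlinarith

end Pool.Agent.Y627.SP
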