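import Mathlib

/-!
# Independence by Lagrange interpolation
-/

set_option autoImplicit false

namespace Pool.Agent.Y627.SP

open Polynomial

/-- the numbers are zero as soon as all divided differences vanish -/
theorem indep (d n r : ℕ) (hnd : n < d) (hr : 1 ≤ r) (lam : ℝ) (h0 : 0 < lam) (h1 : lam < 1)
    (c : ℕ → ℝ) (T : Finset ℕ) (hT : T = (Finset.range (d * r)).filter (fun s => s % d ≤ n))
    (hz : ∀ h ≤ n, ∑ s ∈ insert (d * r + h) T, (lam ^ (s / d) * c (s % d)) /
        ∏ t ∈ (insert (d * r + h) T).erase s, ((s : ℝ) - t) = 0) :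
    ∀ i ≤ n, c i = 0 := by
  have hd : 0 < d := by omega
  set g : ℕ → ℝ := fun s => lam ^ (s / d) * c (s % d) with hg
  have hinj : ∀ U : Finset ℕ, Set.InjOn (fun s : ℕ => (s : ℝ)) (U : Set ℕ) :=
    fun U a _ b _ h => Nat.cast_injective h
  set p : ℝ[X] := Lagrange.interpolate T (fun s : ℕ => (s : ℝ)) g with hp
  have heval : ∀ s ∈ T, p.eval (s : ℝ) = g s := fun s hs =>
    Lagrange.eval_interpolate_at_node g (hinj T) hs
  have hdeg : p.degree < T.card := Lagrange.degree_interpolate_lt _ (hinj T)
  -- the values at `d r + h`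
  have hlast : ∀ h ≤ n, p.eval ((d * r + h : ℕ) : ℝ) = g (d * r + h) := by
    intro h hh
    have hnot : d * r + h ∉ T := by
      rw [hT]
      intro hmem
      have := Finset.mem_range.1 (Finset.mem_filter.1 hmem).1
      omega
    have hcard : (insert (d * r + h) T).card = T.card + 1 := Finset.card_insert_of_notMem hnot
    have hdeg' : p.degree < (insert (d * r + h) T).card := by
      rw [hcard]
      exact hdeg.trans (by exact_mod_cast Nat.lt_succ_self _)
    have h2 := Lagrange.coeff_eq_sum (hinj (insert (d * r + h) T)) hdeg'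
    rw [hcard, Nat.add_sub_cancel, coeff_eq_zero_of_degree_lt hdeg] at h2
    have h3 := hz h hh
    have h4 : ∑ s ∈ insert (d * r + h) T, (p.eval (s : ℝ) - g s) /
        ∏ t ∈ (insert (d * r + h) T).erase s, ((s : ℝ) - t) = 0 := by
      have h5 : ∑ s ∈ insert (d * r + h) T, (p.eval (s : ℝ) - g s) /
          ∏ t ∈ (insert (d * r + h) T).erase s, ((s : ℝ) - t) =
          ∑ s ∈ insert (d * r + h) T, (p.eval (s : ℝ)) /
            ∏ t ∈ (insert (d * r + h) T).erase s, ((s : ℝ) - t) -
          ∑ s ∈ insert (d * r + h) T, g s /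
            ∏ t ∈ (insert (d * r + h) T).erase s, ((s : ℝ) - t) := by
        rw [← Finset.sum_sub_distrib]
        apply Finset.sum_congr rfl
        intro s _
        rw [sub_div]
      rw [h5, ← h2]
      simp only [hg]
      rw [h3, sub_zero]
    rw [Finset.sum_insert hnot] at h4
    have h6 : ∑ s ∈ T, (p.eval (s : ℝ) - g s) /
        ∏ t ∈ (insert (d * r + h) T).erase s, ((s : ℝ) - t) = 0 := by
      apply Finset.sum_eq_zero
      intro s hs
      rw [heval s hs, sub_self, zero_div]
    rw [h6, add_zero] at h4
    have h7 : ∏ t ∈ (insert (d * r + h) T).erase (d * r + h), (((d * r + h : ℕ) : ℝ) - t) ≠ 0 := by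
      rw [Finset.prod_ne_zero_iff]
      intro t ht
      have h8 := Finset.ne_of_mem_erase ht
      intro h9
      apply h8
      have : ((d * r + h : ℕ) : ℝ) = t := by linarith
      exact (Nat.cast_injective this).symm
    rcases div_eq_zero_iff.1 h4 with h8 | h8
    · linarith
    · exact absurd h8 h7
  -- `g (s + d) = lam * g s`
  have hgd : ∀ s, g (s + d) = lam * g s := by
    intro s
    simp only [hg]
    rw [Nat.add_div_right _ hd, Nat.add_mod_right, pow_succ]
    ring
  -- all values
  have hall : ∀ s ∈ T, p.eval ((s + d : ℕ) : ℝ) = g (s + d) := by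
    intro s hs
    rw [hT] at hs
    obtain ⟨hs1, hs2⟩ := Finset.mem_filter.1 hs
    have hs1' := Finset.mem_range.1 hs1
    by_cases hlt : s + d < d * r
    · apply heval
      rw [hT]
      refine Finset.mem_filter.2 ⟨Finset.mem_range.2 hlt, ?_⟩
      rw [Nat.add_mod_right]
      exact hs2
    · -- `s + d = d r + h`
      have h2 : s / d = r - 1 := by
        have h3 : s / d < r := by
          rw [Nat.div_lt_iff_lt_mul hd]
          linarith [mul_comm d r]
        have h4 : r - 1 ≤ s / d := by
          rw [Nat.le_div_iff_mul_le hd]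
          obtain ⟨q, rfl⟩ : ∃ q, r = q + 1 := ⟨r - 1, by omega⟩
          rw [Nat.add_sub_cancel]
          have : d * (q + 1) = q * d + d := by ring
          omega
        omega
      have h5 : s + d = d * r + s % d := by
        have h6 := Nat.div_add_mod s d
        rw [h2] at h6
        obtain ⟨q, rfl⟩ : ∃ q, r = q + 1 := ⟨r - 1, by omega⟩
        rw [Nat.add_sub_cancel] at h6
        have : d * (q + 1) = d * q + d := by ring
        omega
      rw [h5]
      exact hlast _ hs2
  -- the polynomial `q`
  set q : ℝ[X] := p.comp (X + C (d : ℝ)) - C lam * p with hq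
  have hpz : p = 0 := by
    by_contra hpne
    have hTpos : 0 < T.card := by
      rw [Finset.card_pos]
      refine ⟨0, ?_⟩
      rw [hT]
      refine Finset.mem_filter.2 ⟨Finset.mem_range.2 (Nat.mul_pos hd (by omega)), ?_⟩
      rw [Nat.zero_mod]
      exact Nat.zero_le _
    have hnat : p.natDegree < T.card := (natDegree_lt_iff_degree_lt hpne).2 hdeg
    have hcompdeg : (p.comp (X + C (d : ℝ))).natDegree = p.natDegree := by
      rw [natDegree_comp, natDegree_X_add_C, mul_one]
    have hq0 : q = 0 := by
      apply eq_zero_of_natDegree_lt_card_of_eval_eq_zero' q (T.image (fun s : ℕ => (s : ℝ)))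
      · intro x hx
        obtain ⟨s, hs, rfl⟩ := Finset.mem_image.1 hx
        rw [hq, eval_sub, eval_comp, eval_add, eval_X, eval_C, eval_mul, eval_C, heval s hs]
        have := hall s hs
        push_cast at this
        rw [this, hgd, sub_self]
      · rw [Finset.card_image_of_injective _ Nat.cast_injective]
        refine lt_of_le_of_lt (natDegree_sub_le _ _) (max_lt ?_ ?_)
        · rw [hcompdeg]; exact hnat
        · exact lt_of_le_of_lt (natDegree_C_mul_le _ _) hnat
    have hlead : q.coeff p.natDegree = (1 - lam) * p.leadingCoeff := by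
      rw [hq, coeff_sub, coeff_C_mul]
      have h2 : (p.comp (X + C (d : ℝ))).coeff p.natDegree = p.leadingCoeff := by
        have h3 : (p.comp (X + C (d : ℝ))).leadingCoeff = p.leadingCoeff := by
          rw [leadingCoeff_comp (by rw [natDegree_X_add_C]; exact one_ne_zero),
            leadingCoeff_X_add_C, one_pow, mul_one]
        rw [leadingCoeff, hcompdeg] at h3
        exact h3
      rw [h2]
      simp only [leadingCoeff]
      ring
    rw [hq0, coeff_zero] at hlead
    have h3 : (1 - lam) ≠ 0 := by linarith
    rcases mul_eq_zero.1 hlead.symm with h4 | h4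
    · exact h3 h4
    · exact hpne (leadingCoeff_eq_zero.1 h4)
  intro i hi
  have hiT : i ∈ T := by
    rw [hT]
    refine Finset.mem_filter.2 ⟨Finset.mem_range.2 ?_, ?_⟩
    · calc i < d := by omega
        _ = d * 1 := (mul_one d).symm
        _ ≤ d * r := Nat.mul_le_mul_left d hr
    · rw [Nat.mod_eq_of_lt (by omega)]; exact hi
  have h2 := heval i hiT
  rw [hpz, eval_zero] at h2
  simp only [hg] at h2
  rw [Nat.div_eq_of_lt (by omega), Nat.mod_eq_of_lt (by omega), pow_zero, one_mul] at h2
  exact h2.symm

end Pool.Agent.Y627.SP
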