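import Mathlib

/-! Small facts: least common multiples, products of distinct integers, factorials. -/

set_option autoImplicit false

open Finset

namespace Pool.Agent.Y627.SP

theorem lcm_bound : ∃ C : ℕ, 1 ≤ C ∧ ∀ m : ℕ, ∃ Λ : ℕ, 0 < Λ ∧
    (∀ k, 1 ≤ k → k ≤ m → k ∣ Λ) ∧ Λ ≤ C ^ m := by
  set C : ℕ := ⌈Real.exp (Real.log 4 + 4)⌉₊ with hC
  have hCge : Real.exp (Real.log 4 + 4) ≤ C := Nat.le_ceil _
  have hCpos : 0 < C := Nat.ceil_pos.2 (Real.exp_pos _)
  refine ⟨C, hCpos, fun m => ⟨Nat.lcmUpto m, Nat.lcmUpto_pos m, ?_, ?_⟩⟩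
  · intro k h1 h2
    have := Finset.dvd_lcm (f := id) (Finset.mem_Icc.2 ⟨h1, h2⟩)
    exact this
  · have h1 := Chebyshev.psi_eq_log_lcmUpto m
    have h2 : Chebyshev.psi (m : ℝ) ≤ (Real.log 4 + 4) * m :=
      Chebyshev.psi_le_const_mul_self (Nat.cast_nonneg m)
    have hpos : (0 : ℝ) < (Nat.lcmUpto m : ℕ) := by exact_mod_cast Nat.lcmUpto_pos m
    have h3 : ((Nat.lcmUpto m : ℕ) : ℝ) ≤ (C : ℝ) ^ m := by
      calc ((Nat.lcmUpto m : ℕ) : ℝ) = Real.exp (Real.log (Nat.lcmUpto m : ℕ)) :=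
            (Real.exp_log hpos).symm
        _ ≤ Real.exp ((Real.log 4 + 4) * m) := Real.exp_le_exp.2 (by rw [← h1]; exact h2)
        _ = (Real.exp (Real.log 4 + 4)) ^ m := by rw [← Real.exp_nat_mul]; congr 1; ring
        _ ≤ (C : ℝ) ^ m := pow_le_pow_left₀ (Real.exp_pos _).le hCge _
    exact_mod_cast h3

lemma factorial_card_le (U : Finset ℕ) : (0 ∉ U) → U.card.factorial ≤ ∏ u ∈ U, u := by
  classical
  induction U using Finset.induction_on_max with
  | empty => simp
  | insert a s ha ih =>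
    intro h0
    have h0' : 0 ∉ s := fun h => h0 (mem_insert_of_mem h)
    have hnot : a ∉ s := fun h => lt_irrefl _ (ha a h)
    rw [card_insert_of_notMem hnot, prod_insert hnot, Nat.factorial_succ]
    apply Nat.mul_le_mul _ (ih h0')
    have hsub : s ⊆ Finset.Ico 1 a := by
      intro x hx
      rw [Finset.mem_Ico]
      refine ⟨?_, ha x hx⟩
      rcases Nat.eq_zero_or_pos x with h | h
      · rw [h] at hx; exact absurd hx h0'
      · exact h
    have h1 := card_le_card hsub
    rw [Nat.card_Ico] at h1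
    have ha0 : 0 < a := by
      rcases Nat.eq_zero_or_pos a with h | h
      · exfalso; apply h0; rw [h]; exact mem_insert_self _ _
      · exact h
    omega

theorem prod_abs_ge (U : Finset ℤ) (h0 : (0 : ℤ) ∉ U) :
    (U.card.factorial : ℤ) ≤ 2 ^ U.card * ∏ u ∈ U, |u| := by
  classical
  set P := U.filter (fun u => 0 < u) with hP
  set Q := U.filter (fun u => ¬ 0 < u) with hQ
  have hcard : P.card + Q.card = U.card := card_filter_add_card_filter_not _
  have hprod : (∏ u ∈ P, |u|) * ∏ u ∈ Q, |u| = ∏ u ∈ U, |u| :=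
    prod_filter_mul_prod_filter_not _ _ _
  have key : ∀ S : Finset ℤ, (0 : ℤ) ∉ S → (Set.InjOn Int.natAbs (S : Set ℤ)) →
      (S.card.factorial : ℤ) ≤ ∏ u ∈ S, |u| := by
    intro S hS hinj
    have h1 := factorial_card_le (S.image Int.natAbs) (by
      rw [mem_image]
      rintro ⟨x, hx, hx0⟩
      rw [Int.natAbs_eq_zero] at hx0
      rw [hx0] at hx
      exact hS hx)
    rw [card_image_of_injOn hinj, prod_image hinj] at h1
    have h2 : (((∏ x ∈ S, x.natAbs : ℕ)) : ℤ) = ∏ u ∈ S, |u| := by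
      push_cast
      exact prod_congr rfl (fun x _ => by simp)
    rw [← h2]
    exact_mod_cast h1
  have hPk := key P (fun h => h0 (mem_filter.1 h).1) (by
    intro x hx y hy hxy
    have hx' := (mem_filter.1 hx).2
    have hy' := (mem_filter.1 hy).2
    omega)
  have hQk := key Q (fun h => h0 (mem_filter.1 h).1) (by
    intro x hx y hy hxy
    have hx' := (mem_filter.1 hx).2
    have hy' := (mem_filter.1 hy).2
    omega)
  have h1 : U.card.factorial ≤ 2 ^ U.card * (P.card.factorial * Q.card.factorial) := by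
    rw [← hcard, ← Nat.add_choose_mul_factorial_mul_factorial, mul_assoc]
    exact Nat.mul_le_mul_right _ (Nat.choose_le_two_pow _ _)
  have h2 : (P.card.factorial : ℤ) * Q.card.factorial ≤ (∏ u ∈ P, |u|) * ∏ u ∈ Q, |u| :=
    mul_le_mul hPk hQk (by positivity) (prod_nonneg (fun _ _ => abs_nonneg _))
  rw [hprod] at h2
  calc (U.card.factorial : ℤ) ≤ 2 ^ U.card * ((P.card.factorial : ℤ) * Q.card.factorial) := by
        exact_mod_cast h1
    _ ≤ _ := mul_le_mul_of_nonneg_left h2 (by positivity)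

theorem factorial_pow_le (n r : ℕ) : (r.factorial) ^ (n + 1) ≤ ((n + 1) * r).factorial := by
  induction n with
  | zero => simp
  | succ n ih =>
    rw [pow_succ]
    have h1 : ((n + 1) * r).factorial * r.factorial ≤ ((n + 1) * r + r).factorial :=
      Nat.le_of_dvd (Nat.factorial_pos _) (Nat.factorial_mul_factorial_dvd_factorial_add _ _)
    have h2 : (n + 1 + 1) * r = (n + 1) * r + r := by ring
    rw [h2]
    exact (Nat.mul_le_mul_right _ ih).trans h1

end Pool.Agent.Y627.SP
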