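import Mathlib
import Pool.Agent.Y627.SP.AP
import Pool.Agent.Y627.SP.Small
import Pool.Agent.Y627.SP.Div
import Pool.Agent.Y627.SP.Ind

/-! Level `r` forms: the node sets and the divisibility. -/

set_option autoImplicit false

open Finset

namespace Pool.Agent.Y627.SP

/-- the nodes of the form with index `h` -/
def Nd (d n r h : ℕ) : Finset ℕ := insert (d * r + h) ((range (d * r)).filter (fun s => s % d ≤ n))

lemma mem_Nd {d n r h : ℕ} (hnd : n < d) (hh : h ≤ n) (t : ℕ) :
    t ∈ Nd d n r h ↔ t % d ≤ n ∧ (t / d < r ∨ (t / d = r ∧ t % d = h)) := by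
  have hd : 0 < d := by omega
  unfold Nd
  rw [mem_insert, mem_filter, mem_range]
  have e1 : t < d * r ↔ t / d < r := by
    rw [Nat.div_lt_iff_lt_mul hd, mul_comm]
  rw [e1]
  constructor
  · rintro (rfl | ⟨h1, h2⟩)
    · have h3 : (d * r + h) % d = h := by
        rw [Nat.mul_add_mod, Nat.mod_eq_of_lt (by omega)]
      have h4 : (d * r + h) / d = r := by
        rw [Nat.mul_add_div hd, Nat.div_eq_of_lt (by omega), add_zero]
      exact ⟨by omega, Or.inr ⟨h4, h3⟩⟩
    · exact ⟨h2, Or.inl h1⟩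
  · rintro ⟨h1, h2 | ⟨h2, h3⟩⟩
    · exact Or.inr ⟨h2, h1⟩
    · left
      have := Nat.div_add_mod t d
      rw [h2, h3] at this
      exact this.symm

lemma card_base {d n : ℕ} (hnd : n < d) (r : ℕ) :
    ((range (d * r)).filter (fun s => s % d ≤ n)).card = (n + 1) * r := by
  have hd : 0 < d := by omega
  have h1 : (range (d * r)).filter (fun s => s % d ≤ n) =
      ((range (n + 1)) ×ˢ (range r)).image (fun x => d * x.2 + x.1) := by
    ext t
    simp only [mem_filter, mem_range, mem_image, mem_product, Prod.exists]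
    constructor
    · rintro ⟨h1, h2⟩
      refine ⟨t % d, t / d, ⟨by omega, ?_⟩, Nat.div_add_mod t d⟩
      rw [Nat.div_lt_iff_lt_mul hd, mul_comm]; exact h1
    · rintro ⟨i, j, ⟨hi, hj⟩, rfl⟩
      rw [Nat.mul_add_mod, Nat.mod_eq_of_lt (by omega : i < d)]
      refine ⟨?_, by omega⟩
      calc d * j + i < d * j + d := by omega
        _ = d * (j + 1) := by ring
        _ ≤ d * r := Nat.mul_le_mul_left _ hj
  rw [h1, card_image_of_injOn, card_product, card_range, card_range]
  rintro ⟨i, j⟩ h ⟨i', j'⟩ h' heq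
  simp only [coe_product, Set.mem_prod, SetLike.mem_coe, mem_range] at h h'
  simp only at heq
  have h2 : (d * j + i) % d = (d * j' + i') % d := by rw [heq]
  have h3 : (d * j + i) / d = (d * j' + i') / d := by rw [heq]
  rw [Nat.mul_add_mod, Nat.mul_add_mod, Nat.mod_eq_of_lt (by omega), Nat.mod_eq_of_lt (by omega)]
    at h2
  rw [Nat.mul_add_div hd, Nat.mul_add_div hd, Nat.div_eq_of_lt (by omega : i < d),
    Nat.div_eq_of_lt (by omega : i' < d)] at h3
  rw [Prod.mk.injEq]
  omega

lemma card_Nd {d n : ℕ} (hnd : n < d) (r h : ℕ) : (Nd d n r h).card = (n + 1) * r + 1 := by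
  unfold Nd
  rw [card_insert_of_notMem, card_base hnd]
  rw [mem_filter, mem_range]
  omega

lemma lt_of_mem_Nd {d n r h : ℕ} (hnd : n < d) (hh : h ≤ n) {t : ℕ} (ht : t ∈ Nd d n r h) :
    t < d * (r + 1) := by
  rw [mem_Nd hnd hh] at ht
  have hd : 0 < d := by omega
  have h1 : t / d < r + 1 := by omega
  rwa [Nat.div_lt_iff_lt_mul hd, mul_comm] at h1

/-- the integer weights -/
def Pz (d n r h s : ℕ) : ℤ := ∏ t ∈ (Nd d n r h).erase s, ((s : ℤ) - t)

lemma Pz_ne (d n r h s : ℕ) : Pz d n r h s ≠ 0 := by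
  unfold Pz
  rw [prod_ne_zero_iff]
  intro t ht
  rw [mem_erase] at ht
  rw [sub_ne_zero]
  exact_mod_cast ht.1.symm

lemma Pz_dvd {d n r h : ℕ} (hnd : n < d) (hh : h ≤ n) (s : ℕ) (hs : s ∈ Nd d n r h) (Λ : ℕ)
    (hΛ : ∀ k, 1 ≤ k → k ≤ d * (r + 1) → k ∣ Λ) :
    Pz d n r h s ∣ (((d : ℤ) ^ r * (r.factorial : ℤ) * Λ)) ^ (n + 1) := by
  classical
  have hd : 0 < d := by omega
  have hmaps : ∀ t ∈ (Nd d n r h).erase s, t % d ∈ range (n + 1) := by
    intro t ht
    rw [mem_erase, mem_Nd hnd hh] at ht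
    rw [mem_range]; omega
  unfold Pz
  rw [← prod_fiberwise_of_maps_to hmaps (fun t => ((s : ℤ) - t))]
  have hc : (((d : ℤ) ^ r * (r.factorial : ℤ) * Λ)) ^ (n + 1) =
      ∏ _i ∈ range (n + 1), ((d : ℤ) ^ r * (r.factorial : ℤ) * Λ) := by
    rw [prod_const, card_range]
  rw [hc]
  apply prod_dvd_prod_of_dvd
  intro i hi
  rw [mem_range] at hi
  set r' := if i = h then r + 1 else r with hr'
  have hr'le : r' ≤ r + 1 := by rw [hr']; split_ifs <;> omega
  have hdvd := ap_dvd d hd r r' hr'le ((s : ℤ) - i) Λ (by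
    intro j hj hne
    have hslt := lt_of_mem_Nd hnd hh hs
    have htlt : d * j + i < d * (r + 1) := by
      calc d * j + i < d * j + d := by omega
        _ = d * (j + 1) := by ring
        _ ≤ d * (r + 1) := Nat.mul_le_mul_left _ (by omega)
    have e1 : (s : ℤ) - i - d * j = (s : ℤ) - ((d * j + i : ℕ) : ℤ) := by push_cast; ring
    rw [e1] at hne ⊢
    have h2 : 1 ≤ ((s : ℤ) - ((d * j + i : ℕ) : ℤ)).natAbs := by
      have := Int.natAbs_ne_zero.2 hne
      omega
    have h3 : ((s : ℤ) - ((d * j + i : ℕ) : ℤ)).natAbs ≤ d * (r + 1) := by omega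
    have h4 := hΛ _ h2 h3
    exact Int.natAbs_dvd.1 (by exact_mod_cast h4))
  refine (dvd_of_eq ?_).trans hdvd
  symm
  refine prod_nbij' (fun j => d * j + i) (fun t => t / d) ?_ ?_ ?_ ?_ ?_
  · intro j hj
    simp only [mem_filter, mem_range] at hj
    have h3 : (d * j + i) % d = i := by rw [Nat.mul_add_mod, Nat.mod_eq_of_lt (by omega)]
    have h4 : (d * j + i) / d = j := by
      rw [Nat.mul_add_div hd, Nat.div_eq_of_lt (by omega), add_zero]
    rw [mem_filter, mem_erase, mem_Nd hnd hh, h3, h4]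
    refine ⟨⟨?_, by omega, ?_⟩, rfl⟩
    · rintro rfl
      apply hj.2
      push_cast; ring
    · have := hj.1
      rw [hr'] at this
      split_ifs at this with hih
      · omega
      · left; exact this
  · intro t ht
    rw [mem_filter, mem_erase, mem_Nd hnd hh] at ht
    obtain ⟨⟨h1, h2, h3⟩, h4⟩ := ht
    have h5 := Nat.div_add_mod t d
    simp only [mem_filter, mem_range]
    constructor
    · rw [hr']
      split_ifs with hih
      · omega
      · omega
    · intro h6
      apply h1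
      rw [h4] at h5
      have h7 : (s : ℤ) = ((d * (t / d) + i : ℕ) : ℤ) := by push_cast at h6 ⊢; linarith
      have h8 : s = d * (t / d) + i := by exact_mod_cast h7
      omega
  · intro j hj
    rw [Nat.mul_add_div hd, Nat.div_eq_of_lt (by omega), add_zero]
  · intro t ht
    rw [mem_filter] at ht
    have h5 := Nat.div_add_mod t d
    rw [ht.2] at h5
    exact h5
  · intro j hj
    push_cast; ring

lemma Pz_abs {d n r h : ℕ} (hnd : n < d) (s : ℕ) (hs : s ∈ Nd d n r h) :
    ((((n + 1) * r).factorial : ℕ) : ℤ) ≤ 2 ^ ((n + 1) * r) * |Pz d n r h s| := by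
  classical
  set U := ((Nd d n r h).erase s).image (fun t : ℕ => (s : ℤ) - t) with hU
  have hinj : Set.InjOn (fun t : ℕ => (s : ℤ) - t) ((Nd d n r h).erase s : Finset ℕ) := by
    intro a _ b _ hab
    simp only at hab
    have : (a : ℤ) = b := by linarith
    exact_mod_cast this
  have hcard : U.card = (n + 1) * r := by
    rw [hU, card_image_of_injOn hinj, card_erase_of_mem hs, card_Nd hnd]; omega
  have h0 : (0 : ℤ) ∉ U := by
    rw [hU, mem_image]
    rintro ⟨t, ht, h1⟩
    rw [mem_erase] at ht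
    apply ht.1
    have : (s : ℤ) = t := by linarith
    exact_mod_cast this.symm
  have h1 := prod_abs_ge U h0
  rw [hcard, hU, prod_image hinj] at h1
  unfold Pz
  rw [abs_prod]
  exact h1

end Pool.Agent.Y627.SP
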