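import Mathlib
import Pool.Agent.Y627.SP.LevA

/-! Level `r` forms: Hermite-Pade approximation to `(1 - 1/N) ^ (1/d)`. -/

set_option autoImplicit false

open Finset

namespace Pool.Agent.Y627.SP

/-- the integer form with index `h`: coefficient of `X ^ i` -/
def Bf (D : ℤ) (d n r : ℕ) (N : ℤ) (h i : ℕ) : ℤ :=
  ∑ j ∈ range (r + 1), if d * j + i ∈ Nd d n r h then
    (D / Pz d n r h (d * j + i)) * N ^ (r - j) * (N - 1) ^ j else 0

lemma Bf_eval {d n r h : ℕ} (hnd : n < d) (hh : h ≤ n) (D : ℤ)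
    (hD : ∀ s ∈ Nd d n r h, Pz d n r h s ∣ D) (N : ℕ) (hN : 2 ≤ N) (x : ℕ → ℝ) :
    ∑ i ∈ range (n + 1), (Bf D d n r N h i : ℝ) * x i =
      (N : ℝ) ^ r * D * ∑ s ∈ Nd d n r h, ((((N : ℝ) - 1) / N) ^ (s / d) * x (s % d)) /
        ∏ t ∈ (Nd d n r h).erase s, ((s : ℝ) - t) := by
  classical
  have hd : 0 < d := by omega
  have hN0 : (N : ℝ) ≠ 0 := by exact_mod_cast (by omega : N ≠ 0)
  have hPR : ∀ s, ((Pz d n r h s : ℤ) : ℝ) = ∏ t ∈ (Nd d n r h).erase s, ((s : ℝ) - t) := by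
    intro s
    unfold Pz
    push_cast
    rfl
  have hterm : ∀ s ∈ Nd d n r h, ((D / Pz d n r h s : ℤ) : ℝ) =
      (D : ℝ) / ∏ t ∈ (Nd d n r h).erase s, ((s : ℝ) - t) := by
    intro s hs
    rw [← hPR, Int.cast_div (hD s hs) (by exact_mod_cast Pz_ne d n r h s)]
  have h1 : ∀ i ∈ range (n + 1), (Bf D d n r N h i : ℝ) * x i =
      ∑ j ∈ range (r + 1), if d * j + i ∈ Nd d n r h then
        (D : ℝ) / (∏ t ∈ (Nd d n r h).erase (d * j + i), (((d * j + i : ℕ) : ℝ) - t)) *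
          ((N : ℝ) ^ r * (((N : ℝ) - 1) / N) ^ j) * x i else 0 := by
    intro i hi
    unfold Bf
    rw [Int.cast_sum, Finset.sum_mul]
    refine Finset.sum_congr rfl (fun j hj => ?_)
    rw [mem_range] at hj
    split_ifs with hmem
    · rw [Int.cast_mul, Int.cast_mul, hterm _ hmem]
      have e2 : (N : ℝ) ^ r * (((N : ℝ) - 1) / N) ^ j = (N : ℝ) ^ (r - j) * ((N : ℝ) - 1) ^ j := by
        rw [div_pow]
        have e3 : (N : ℝ) ^ r = (N : ℝ) ^ (r - j) * (N : ℝ) ^ j := by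
          rw [← pow_add]; congr 1; omega
        rw [e3]
        field_simp
      rw [e2]
      push_cast
      ring
    · simp
  rw [Finset.sum_congr rfl h1, ← Finset.sum_product', ← Finset.sum_filter, Finset.mul_sum]
  refine Finset.sum_nbij' (fun y => d * y.2 + y.1) (fun s => (s % d, s / d)) ?_ ?_ ?_ ?_ ?_
  · rintro ⟨i, j⟩ hy
    simp only [mem_filter] at hy
    exact hy.2
  · intro s hs
    have hs' := hs
    rw [mem_Nd hnd hh] at hs'
    simp only [mem_filter, mem_product, mem_range]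
    rw [Nat.div_add_mod]
    exact ⟨⟨by omega, by omega⟩, hs⟩
  · rintro ⟨i, j⟩ hy
    simp only [mem_filter, mem_product, mem_range] at hy
    simp only
    rw [Nat.mul_add_mod, Nat.mod_eq_of_lt (by omega), Nat.mul_add_div hd,
      Nat.div_eq_of_lt (by omega), add_zero]
  · intro s _
    exact Nat.div_add_mod s d
  · rintro ⟨i, j⟩ hy
    simp only [mem_filter, mem_product, mem_range] at hy
    simp only
    rw [Nat.mul_add_mod, Nat.mod_eq_of_lt (by omega : i < d), Nat.mul_add_div hd,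
      Nat.div_eq_of_lt (by omega : i < d), add_zero]
    ring

theorem level_forms (d n : ℕ) (hn : 1 ≤ n) (hnd : n < d) : ∃ C : ℝ, 1 ≤ C ∧ ∀ N : ℕ, 2 ≤ N →
    ∀ β : ℝ, 0 < β → β ^ d = ((N : ℝ) - 1) / N → ∀ r : ℕ, 1 ≤ r →
    ∃ B : Matrix (Fin (n + 1)) (Fin (n + 1)) ℤ, B.det ≠ 0 ∧
      (∀ h i, |(B h i : ℝ)| ≤ (C * N) ^ r) ∧
      ∀ h, |∑ i, (B h i : ℝ) * β ^ (i : ℕ)| ≤ (C / (N : ℝ) ^ n) ^ r := by
  classical
  obtain ⟨CL, hCL1, hCL⟩ := lcm_bound
  have hd : 0 < d := by omega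
  have hdR : (1 : ℝ) ≤ d := by exact_mod_cast hd
  have hCLR : (1 : ℝ) ≤ CL := by exact_mod_cast hCL1
  set C1 : ℝ := (d : ℝ) ^ (n + 1) * (CL : ℝ) ^ (2 * d * (n + 1)) with hC1
  have hC11 : 1 ≤ C1 := one_le_mul_of_one_le_of_one_le (one_le_pow₀ hdR) (one_le_pow₀ hCLR)
  have h2n : (1 : ℝ) ≤ 2 ^ (n + 1) := one_le_pow₀ (by norm_num)
  refine ⟨2 * C1 * 2 ^ (n + 1), by nlinarith, ?_⟩
  intro N hN β hβ0 hβ r hr
  have hNR : (2 : ℝ) ≤ N := by exact_mod_cast hN
  obtain ⟨Λ, hΛ0, hΛd, hΛle⟩ := hCL (d * (r + 1))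
  set D : ℤ := ((d : ℤ) ^ r * (r.factorial : ℤ) * Λ) ^ (n + 1) with hD
  set K := (n + 1) * r with hK
  have hDdvd : ∀ h ≤ n, ∀ s ∈ Nd d n r h, Pz d n r h s ∣ D := fun h hh s hs =>
    Pz_dvd hnd hh s hs Λ hΛd
  have hD0 : (0 : ℝ) < (D : ℝ) := by
    have h1 : (0 : ℤ) < D := by
      rw [hD]
      have h2 : (0 : ℤ) < d := by exact_mod_cast hd
      have h3 : (0 : ℤ) < r.factorial := by exact_mod_cast Nat.factorial_pos r
      have h4 : (0 : ℤ) < Λ := by exact_mod_cast hΛ0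
      positivity
    exact_mod_cast h1
  have hKf : (0 : ℝ) < K.factorial := by exact_mod_cast Nat.factorial_pos K
  -- size of `D`
  have hDle : (D : ℝ) ≤ C1 ^ r * K.factorial := by
    rw [hD]
    push_cast
    rw [mul_pow, mul_pow]
    have h1 : ((r.factorial : ℕ) : ℝ) ^ (n + 1) ≤ K.factorial := by
      exact_mod_cast factorial_pow_le n r
    have h2 : (Λ : ℝ) ^ (n + 1) ≤ ((CL : ℝ) ^ (2 * d * (n + 1))) ^ r := by
      have h3 : (Λ : ℝ) ≤ (CL : ℝ) ^ (d * (r + 1)) := by exact_mod_cast hΛle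
      calc (Λ : ℝ) ^ (n + 1) ≤ ((CL : ℝ) ^ (d * (r + 1))) ^ (n + 1) :=
            pow_le_pow_left₀ (Nat.cast_nonneg _) h3 _
        _ = (CL : ℝ) ^ (d * (r + 1) * (n + 1)) := by rw [← pow_mul]
        _ ≤ (CL : ℝ) ^ (2 * d * (n + 1) * r) := by
            apply pow_le_pow_right₀ hCLR
            have h5 : r + 1 ≤ 2 * r := by omega
            calc d * (r + 1) * (n + 1) ≤ d * (2 * r) * (n + 1) :=
                  Nat.mul_le_mul_right _ (Nat.mul_le_mul_left _ h5)
              _ = 2 * d * (n + 1) * r := by ring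
        _ = _ := by rw [← pow_mul]
    calc ((d : ℝ) ^ r) ^ (n + 1) * (r.factorial : ℝ) ^ (n + 1) * (Λ : ℝ) ^ (n + 1)
        ≤ ((d : ℝ) ^ r) ^ (n + 1) * K.factorial * ((CL : ℝ) ^ (2 * d * (n + 1))) ^ r := by
          gcongr
      _ = C1 ^ r * K.factorial := by
          rw [hC1, mul_pow, ← pow_mul, ← pow_mul, mul_comm r (n + 1)]; ring
  -- size of the weights
  have hW : ∀ h ≤ n, ∀ s ∈ Nd d n r h, |((D / Pz d n r h s : ℤ) : ℝ)| ≤ (C1 * 2 ^ (n + 1)) ^ r := by
    intro h hh s hs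
    have hPne : ((Pz d n r h s : ℤ) : ℝ) ≠ 0 := by exact_mod_cast Pz_ne d n r h s
    rw [Int.cast_div (hDdvd h hh s hs) hPne, abs_div, abs_of_pos hD0, div_le_iff₀ (abs_pos.2 hPne)]
    have h1 := Pz_abs (n := n) (r := r) (h := h) hnd s hs
    have h2 : ((K.factorial : ℕ) : ℝ) ≤ 2 ^ K * |((Pz d n r h s : ℤ) : ℝ)| := by
      have h3 : (((((n + 1) * r).factorial : ℕ) : ℤ) : ℝ) ≤
        ((2 ^ ((n + 1) * r) * |Pz d n r h s| : ℤ) : ℝ) := by exact_mod_cast h1
      push_cast at h3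
      exact h3
    calc (D : ℝ) ≤ C1 ^ r * K.factorial := hDle
      _ ≤ C1 ^ r * (2 ^ K * |((Pz d n r h s : ℤ) : ℝ)|) :=
          mul_le_mul_of_nonneg_left h2 (by positivity)
      _ = _ := by rw [mul_pow, hK, pow_mul]; ring
  -- the numbers
  set lam : ℝ := ((N : ℝ) - 1) / N with hlam
  have hlam0 : 0 < lam := div_pos (by linarith) (by linarith)
  have hlam1 : lam < 1 := by rw [hlam, div_lt_one (by linarith)]; linarith
  have hβ1 : β < 1 := by
    by_contra hcon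
    push Not at hcon
    have := one_le_pow₀ hcon (n := d)
    rw [hβ] at this
    linarith
  have hlog : -Real.log β ≤ 2 / N := by
    have h1 : (d : ℝ) * Real.log β = Real.log lam := by
      rw [← hβ, Real.log_pow]
    have h2 := Real.one_sub_inv_le_log_of_pos hlam0
    have h3 : lam⁻¹ ≤ 1 + 2 / N := by
      rw [hlam, inv_div, div_le_iff₀ (by linarith)]
      have : (1 + 2 / (N : ℝ)) * (N - 1) = N + 1 - 2 / N := by field_simp; ring
      rw [this]
      have : 2 / (N : ℝ) ≤ 1 := by rw [div_le_one (by linarith)]; exact hNR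
      linarith
    have h4 : Real.log β ≤ 0 := Real.log_nonpos hβ0.le hβ1.le
    nlinarith
  have hlog0 : 0 ≤ -Real.log β := by
    have := Real.log_nonpos hβ0.le hβ1.le
    linarith
  set B : Matrix (Fin (n + 1)) (Fin (n + 1)) ℤ := Matrix.of (fun h i => Bf D d n r N h i) with hB
  have heval : ∀ (h : Fin (n + 1)) (x : ℕ → ℝ), ∑ i : Fin (n + 1), (B h i : ℝ) * x i =
      (N : ℝ) ^ r * D * ∑ s ∈ Nd d n r h, (lam ^ (s / d) * x (s % d)) /
        ∏ t ∈ (Nd d n r h).erase s, ((s : ℝ) - t) := by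
    intro h x
    have hh : (h : ℕ) ≤ n := by omega
    rw [← Bf_eval hnd hh D (hDdvd h hh) N hN x, ← Fin.sum_univ_eq_sum_range
      (fun i => (Bf D d n r N h i : ℝ) * x i)]
    rfl
  refine ⟨B, ?_, ?_, ?_⟩
  · -- determinant
    intro hdet
    have hdetR : (B.map (Int.castRingHom ℝ)).det = 0 := by
      have h1 := RingHom.map_det (Int.castRingHom ℝ) B
      rw [hdet, map_zero] at h1
      exact h1.symm
    obtain ⟨c, hc0, hc⟩ := Matrix.exists_mulVec_eq_zero_iff.2 hdetR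
    apply hc0
    set c' : ℕ → ℝ := fun i => if hi : i < n + 1 then c ⟨i, hi⟩ else 0 with hc'
    have hcc : ∀ i : Fin (n + 1), c' i = c i := by
      intro i
      simp only [hc', dif_pos i.2]
    have h2 := indep d n r hnd hr lam hlam0 hlam1 c' _ rfl (by
      intro h hh
      have h3 := congrFun hc ⟨h, by omega⟩
      have h4 : ∑ i : Fin (n + 1), (B ⟨h, by omega⟩ i : ℝ) * c' i = 0 := by
        refine Eq.trans ?_ h3
        simp only [Matrix.mulVec, dotProduct, Matrix.map_apply, hcc]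
        rfl
      rw [heval] at h4
      have h5 : (N : ℝ) ^ r * (D : ℝ) ≠ 0 := by positivity
      exact (mul_eq_zero.1 h4).resolve_left h5)
    funext i
    rw [← hcc i]
    exact h2 i (by omega)
  · intro h i
    have hh : (h : ℕ) ≤ n := by omega
    change |((Bf D d n r N h i : ℤ) : ℝ)| ≤ _
    unfold Bf
    rw [Int.cast_sum]
    refine (Finset.abs_sum_le_sum_abs _ _).trans ?_
    have hb : ∀ j ∈ range (r + 1), |(((if d * j + (i : ℕ) ∈ Nd d n r h then
        (D / Pz d n r h (d * j + i)) * (N : ℤ) ^ (r - j) * ((N : ℤ) - 1) ^ j else 0 : ℤ)) : ℝ)| ≤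
        (C1 * 2 ^ (n + 1)) ^ r * (N : ℝ) ^ r := by
      intro j hj
      rw [mem_range] at hj
      split_ifs with hmem
      · rw [Int.cast_mul, Int.cast_mul, abs_mul, abs_mul, mul_assoc]
        apply mul_le_mul (hW h hh _ hmem) _ (by positivity) (by positivity)
        push_cast
        rw [abs_pow, abs_pow, abs_of_nonneg (by linarith : (0 : ℝ) ≤ N),
          abs_of_nonneg (by linarith : (0 : ℝ) ≤ (N : ℝ) - 1)]
        calc (N : ℝ) ^ (r - j) * ((N : ℝ) - 1) ^ j ≤ (N : ℝ) ^ (r - j) * (N : ℝ) ^ j := by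
              apply mul_le_mul_of_nonneg_left _ (by positivity)
              exact pow_le_pow_left₀ (by linarith) (by linarith) _
          _ = (N : ℝ) ^ r := by rw [← pow_add]; congr 1; omega
      · simp only [Int.cast_zero, abs_zero]; positivity
    refine (Finset.sum_le_sum hb).trans ?_
    rw [sum_const, card_range, nsmul_eq_mul]
    have h3 : ((r + 1 : ℕ) : ℝ) ≤ 2 ^ r := by
      have := Nat.lt_pow_self (n := r) (by norm_num : 1 < 2)
      exact_mod_cast this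
    calc ((r + 1 : ℕ) : ℝ) * ((C1 * 2 ^ (n + 1)) ^ r * (N : ℝ) ^ r)
        ≤ 2 ^ r * ((C1 * 2 ^ (n + 1)) ^ r * (N : ℝ) ^ r) :=
          mul_le_mul_of_nonneg_right h3 (by positivity)
      _ = _ := by rw [← mul_pow, ← mul_pow]; congr 1; ring
  · intro h
    have hh : (h : ℕ) ≤ n := by omega
    rw [heval h (fun i => β ^ i)]
    have h1 : ∀ s ∈ Nd d n r h, (lam ^ (s / d) * β ^ (s % d)) /
        ∏ t ∈ (Nd d n r h).erase s, ((s : ℝ) - t) =
        β ^ s / ∏ t ∈ (Nd d n r h).erase s, ((s : ℝ) - t) := by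
      intro s _
      congr 1
      rw [← hβ, ← pow_mul, ← pow_add, Nat.div_add_mod]
    rw [Finset.sum_congr rfl h1, abs_mul, abs_of_pos (by positivity)]
    have h2 := divided_bound β hβ0 hβ1 K (Nd d n r h) (card_Nd hnd r h)
    have h3 : (-Real.log β) ^ K / (K.factorial : ℝ) ≤ (2 / N) ^ K / (K.factorial : ℝ) := by
      gcongr
    calc (N : ℝ) ^ r * D * |∑ s ∈ Nd d n r h, β ^ s / ∏ t ∈ (Nd d n r h).erase s, ((s : ℝ) - t)|
        ≤ (N : ℝ) ^ r * (C1 ^ r * K.factorial) * ((2 / N) ^ K / (K.factorial : ℝ)) := by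
          apply mul_le_mul _ (h2.trans h3) (abs_nonneg _) (by positivity)
          exact mul_le_mul_of_nonneg_left hDle (by positivity)
      _ = (N : ℝ) ^ r * C1 ^ r * (2 / N) ^ K := by field_simp
      _ = (C1 * 2 ^ (n + 1) / (N : ℝ) ^ n) ^ r := by
          rw [hK, pow_mul, ← mul_pow, ← mul_pow]
          congr 1
          rw [div_pow, pow_succ (N : ℝ) n]
          field_simp
      _ ≤ _ := by
          apply pow_le_pow_left₀ (by positivity)
          apply div_le_div_of_nonneg_right _ (by positivity)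
          nlinarith
end Pool.Agent.Y627.SP
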