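import Mathlib
import Pool.Agent.W71.TwoDeg

/-! Lower bounds for covolumes from independent forms. -/

set_option autoImplicit false

open Polynomial Set

namespace Pool.Agent.Y627.SP

open Pool.Agent.W71
open Pool.Agent.Helper404 (toP castQ rk SB Nm nrm laplace term term_le exists_term term_nonneg
  Nm_nonneg)

/-- the full determinant does not depend on the point -/
lemma one_le_full {n : ℕ} (w : Fin (n + 1) → ℝ) (hw : ∀ k, 0 < w k) (hw1 : ∏ k, w k = 1)
    (v : Fin (n + 1) → Fin (n + 1) → ℤ) (hv : LinearIndependent ℚ (fun a => castQ (v a)))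
    (β : ℝ) : 1 ≤ Nm w v β := by
  classical
  have h1 : dv v (fun b : Fin (n + 1) => (b : ℕ)) β = ((Matrix.of v).det : ℝ) := by
    have e0 : β = 0 + β := (zero_add β).symm
    rw [e0, dv_eq_det]
    have h1 : (Matrix.of fun a (b : Fin (n + 1)) => hd (b : ℕ) (v a) (0 + β)) =
        (Matrix.of fun a (l : Fin (n + 1)) => hd (l : ℕ) (v a) (0 : ℝ)) *
        (Matrix.of fun (l : Fin (n + 1)) (b : Fin (n + 1)) =>
          ((((l : ℕ).choose (b : ℕ) : ℕ) : ℝ) * β ^ ((l : ℕ) - b))) := by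
      ext a b
      rw [Matrix.mul_apply]
      simp only [Matrix.of_apply]
      exact hd_shift _ _ _ _
    rw [h1, Matrix.det_mul]
    have h2 : (Matrix.of fun (l : Fin (n + 1)) (b : Fin (n + 1)) =>
          ((((l : ℕ).choose (b : ℕ) : ℕ) : ℝ) * β ^ ((l : ℕ) - b))).det = 1 := by
      rw [Matrix.det_of_lowerTriangular]
      · simp
      · intro l b hlb
        simp only [Matrix.of_apply]
        have : (l : ℕ) < b := hlb
        rw [Nat.choose_eq_zero_of_lt this]
        simp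
    rw [h2, mul_one]
    have h3 : (Matrix.of fun a (l : Fin (n + 1)) => hd (l : ℕ) (v a) (0 : ℝ)) =
        (Matrix.of v).map (Int.castRingHom ℝ) := by
      ext a l
      simp only [Matrix.of_apply, Matrix.map_apply]
      exact hd_zero l (v a)
    rw [h3]
    have := RingHom.map_det (Int.castRingHom ℝ) (Matrix.of v)
    exact this.symm
  have h2 : (Matrix.of v).det ≠ 0 := by
    intro h0
    have h3 : ((Matrix.of v).map (Int.castRingHom ℚ)).det = 0 := by
      have := RingHom.map_det (Int.castRingHom ℚ) (Matrix.of v)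
      rw [h0, map_zero] at this
      exact this.symm
    have h4 : LinearIndependent ℚ ((Matrix.of v).map (Int.castRingHom ℚ)).row := hv
    rw [Matrix.linearIndependent_rows_iff_isUnit, Matrix.isUnit_iff_isUnit_det, h3] at h4
    exact not_isUnit_zero h4
  have h5 := term_le w v β (fun b => b)
  rw [term_eq] at h5
  rw [hw1, div_one] at h5
  refine le_trans ?_ h5
  rw [h1, ← Int.cast_abs]
  exact_mod_cast Int.one_le_abs h2

lemma nm_chain {n : ℕ} (w : Fin (n + 1) → ℝ) (hw : ∀ k, 0 < w k) (hw1 : ∏ k, w k = 1)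
    (β Y : ℝ) (hY : 1 ≤ Y) (B : Matrix (Fin (n + 1)) (Fin (n + 1)) ℤ) (hB : B.det ≠ 0)
    (hBY : ∀ h k, nrm w (B h) β k ≤ Y) (k : ℕ) : ∀ (j : ℕ), j + k = n + 1 →
    ∀ v : Fin j → Fin (n + 1) → ℤ, LinearIndependent ℚ (fun a => castQ (v a)) →
    1 ≤ (((n : ℝ) + 1) * Y) ^ k * Nm w v β := by
  classical
  induction k with
  | zero =>
    intro j hj v hv
    obtain rfl : j = n + 1 := by omega
    rw [pow_zero, one_mul]
    exact one_le_full w hw hw1 v hv β
  | succ k ih =>
    intro j hj v hv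
    -- a row outside the span
    obtain ⟨h, hh⟩ : ∃ h, castQ (B h) ∉ Submodule.span ℚ (Set.range fun a => castQ (v a)) := by
      by_contra hcon
      push Not at hcon
      have hrows : LinearIndependent ℚ (fun h => castQ (B h)) := by
        have h4 : LinearIndependent ℚ (B.map (Int.castRingHom ℚ)).row := by
          rw [Matrix.linearIndependent_rows_iff_isUnit, Matrix.isUnit_iff_isUnit_det]
          have h5 : (B.map (Int.castRingHom ℚ)).det = (B.det : ℚ) := by
            have := RingHom.map_det (Int.castRingHom ℚ) B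
            exact this.symm
          rw [h5, isUnit_iff_ne_zero]
          exact_mod_cast hB
        exact h4
      have h6 : Submodule.span ℚ (Set.range fun h => castQ (B h)) ≤
          Submodule.span ℚ (Set.range fun a => castQ (v a)) := by
        rw [Submodule.span_le]
        rintro _ ⟨h, rfl⟩
        exact hcon h
      have h7 := Submodule.finrank_mono h6
      rw [finrank_span_eq_card hrows, finrank_span_eq_card hv, Fintype.card_fin,
        Fintype.card_fin] at h7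
      omega
    have hcons : LinearIndependent ℚ (fun a => castQ
        ((Fin.cons (B h) v : Fin (j + 1) → Fin (n + 1) → ℤ) a)) := by
      have e1 : (fun a => castQ ((Fin.cons (B h) v : Fin (j + 1) → Fin (n + 1) → ℤ) a)) =
          (Fin.cons (castQ (B h)) (fun a => castQ (v a)) : Fin (j + 1) → Fin (n + 1) → ℚ) := by
        funext a
        refine Fin.cases ?_ (fun a => ?_) a
        · simp
        · simp
      rw [e1, linearIndependent_fin_cons]
      exact ⟨hv, hh⟩
    have h1 := ih (j + 1) (by omega) (Fin.cons (B h) v) hcons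
    have h2 := laplace w hw v (B h) β Y (hBY h)
    have hj1 : ((j : ℝ) + 1) ≤ (n : ℝ) + 1 := by
      have : j ≤ n := by omega
      have : (j : ℝ) ≤ n := by exact_mod_cast this
      linarith
    have hN0 := Nm_nonneg w hw v β
    calc (1 : ℝ) ≤ (((n : ℝ) + 1) * Y) ^ k *
          Nm w (Fin.cons (B h) v : Fin (j + 1) → Fin (n + 1) → ℤ) β := h1
      _ ≤ (((n : ℝ) + 1) * Y) ^ k * ((j + 1) * Y * Nm w v β) :=
          mul_le_mul_of_nonneg_left h2 (by positivity)
      _ ≤ (((n : ℝ) + 1) * Y) ^ k * (((n : ℝ) + 1) * Y * Nm w v β) := by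
          gcongr
      _ = _ := by rw [pow_succ]; ring

theorem nm_lower {n : ℕ} (β t Y : ℝ) (hY : 1 ≤ Y)
    (B : Matrix (Fin (n + 1)) (Fin (n + 1)) ℤ) (hB : B.det ≠ 0)
    (h0 : ∀ h, |hd 0 (B h) β| ≤ Y * Real.exp (-(n * t)))
    (h1 : ∀ h, ∀ k : Fin (n + 1), |hd (k : ℕ) (B h) β| ≤ Y * Real.exp t) (s : SB n) :
    1 / (((n : ℝ) + 1) * Y) ^ (n + 1) ≤ Nm (wt n t) (zb s) β := by
  have hBY : ∀ h k, nrm (wt n t) (B h) β k ≤ Y := by
    intro h k
    rw [nrm_eq, div_le_iff₀ (wt_pos t k)]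
    by_cases hk : k = 0
    · subst hk
      rw [wt_zero]
      exact h0 h
    · rw [wt_ne hk]
      exact h1 h k
  have hzd := zd_le s
  have h2 := nm_chain (wt n t) (wt_pos t) (wt_prod t) β Y hY B hB hBY (n + 1 - zd s) (zd s)
    (by omega) (zb s) (zb_ZB s).1.1
  have hpos : (1 : ℝ) ≤ ((n : ℝ) + 1) * Y := by
    have : (0 : ℝ) ≤ n := Nat.cast_nonneg n
    nlinarith
  have hN0 := Nm_nonneg (wt n t) (wt_pos t) (zb s) β
  rw [div_le_iff₀ (by positivity)]
  calc (1 : ℝ) ≤ (((n : ℝ) + 1) * Y) ^ (n + 1 - zd s) * Nm (wt n t) (zb s) β := h2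
    _ ≤ (((n : ℝ) + 1) * Y) ^ (n + 1) * Nm (wt n t) (zb s) β := by
        apply mul_le_mul_of_nonneg_right _ hN0
        exact pow_le_pow_right₀ hpos (by omega)
    _ = _ := by ring

theorem rich_of_forms {n ℓ : ℕ} [Fact ℓ.Prime] (hn : 1 ≤ n) (hℓ : (n + 1) * n < ℓ)
    (β e ε νp νd : ℝ) (hε : 0 ≤ ε) (h1 : ((n : ℝ) + 1) * ε ≤ νp) (h2 : ((n : ℝ) + 1) * ε ≤ νd)
    (hβ : ∃ C : ℝ, 0 < C ∧ ∀ t : ℝ, 0 ≤ t → ∃ B : Matrix (Fin (n + 1)) (Fin (n + 1)) ℤ,
      B.det ≠ 0 ∧ (∀ h i, |(B h i : ℝ)| ≤ C * Real.exp ((1 + ε) * t)) ∧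
      ∀ h, |∑ i, (B h i : ℝ) * β ^ (i : ℕ)| ≤ C * Real.exp (-((n : ℝ) - ε) * t)) :
    Rich n ℓ β e νp νd := by
  classical
  obtain ⟨C, hC0, hC⟩ := hβ
  have hn0 : (1 : ℝ) ≤ n := by exact_mod_cast hn
  set b : ℝ := max 1 |β| with hb
  have hb1 : 1 ≤ b := le_max_left _ _
  set C' : ℝ := 1 + C * ((n + 1) * 2 ^ n * b ^ n) with hC'
  have hC'1 : 1 ≤ C' := by
    have : 0 ≤ C * ((n + 1) * 2 ^ n * b ^ n) := by positivity
    linarith
  have hCC' : C ≤ C' := by
    have h3 : (1 : ℝ) ≤ (n + 1) * 2 ^ n * b ^ n := by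
      have e1 : (1 : ℝ) ≤ 2 ^ n := one_le_pow₀ (by norm_num)
      have e2 : (1 : ℝ) ≤ b ^ n := one_le_pow₀ hb1
      have e3 : (1 : ℝ) ≤ (n + 1) * 2 ^ n := by nlinarith
      nlinarith
    nlinarith
  have hDpos := CD_pos ((n + 1) * n)
  have hD1 := one_le_CD ((n + 1) * n)
  set A : ℝ := 1 / (((n : ℝ) + 1) * C') ^ (n + 1) / CD ((n + 1) * n) with hA
  have hA0 : 0 < A := by positivity
  have hA1 : A ≤ 1 := by
    rw [hA, div_div, div_le_one (by positivity)]
    have e1 : (1 : ℝ) ≤ (((n : ℝ) + 1) * C') ^ (n + 1) := one_le_pow₀ (by nlinarith)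
    nlinarith
  refine ⟨A, hA0, hA1, 0, ?_⟩
  intro m _ t ht s hs1 hsn
  obtain ⟨B, hB1, hB2, hB3⟩ := hC t ht
  set Y : ℝ := C' * Real.exp (ε * t) with hY
  have hexp1 : 1 ≤ Real.exp (ε * t) := Real.one_le_exp (mul_nonneg hε ht)
  have hY1 : 1 ≤ Y := by nlinarith
  have hlow := nm_lower β t Y hY1 B hB1 (by
      intro h
      have e1 : hd 0 (B h) β = ∑ i, (B h i : ℝ) * β ^ (i : ℕ) := by
        have e0 : β = 0 + β := (zero_add β).symm
        conv_lhs => rw [e0, hd_shift]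
        refine Finset.sum_congr rfl (fun l _ => ?_)
        rw [hd_zero]
        simp
      rw [e1]
      refine (hB3 h).trans ?_
      have e2 : Real.exp (-((n : ℝ) - ε) * t) = Real.exp (ε * t) * Real.exp (-(n * t)) := by
        rw [← Real.exp_add]; congr 1; ring
      rw [e2, hY, ← mul_assoc]
      gcongr)
    (by
      intro h k
      have e0 : β = 0 + β := (zero_add β).symm
      rw [e0, hd_shift]
      refine (Finset.abs_sum_le_sum_abs _ _).trans ?_
      have hterm : ∀ l ∈ (Finset.univ : Finset (Fin (n + 1))),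
          |hd (l : ℕ) (B h) (0 : ℝ) * ((((l : ℕ).choose (k : ℕ) : ℕ) : ℝ) * β ^ ((l : ℕ) - k))| ≤
          C * Real.exp ((1 + ε) * t) * (2 ^ n * b ^ n) := by
        intro l _
        rw [hd_zero, abs_mul, abs_mul, abs_pow, Nat.abs_cast]
        apply mul_le_mul (hB2 h l) _ (by positivity) (by positivity)
        apply mul_le_mul _ _ (by positivity) (by positivity)
        · have e3 : (l : ℕ).choose (k : ℕ) ≤ 2 ^ n :=
            (Nat.choose_le_two_pow _ _).trans (Nat.pow_le_pow_right (by norm_num) (by omega))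
          exact_mod_cast e3
        · calc |β| ^ ((l : ℕ) - k) ≤ b ^ ((l : ℕ) - k) :=
                pow_le_pow_left₀ (abs_nonneg _) (le_max_right _ _) _
            _ ≤ b ^ n := pow_le_pow_right₀ hb1 (by omega)
      refine (Finset.sum_le_sum hterm).trans ?_
      rw [Finset.sum_const, Finset.card_univ, Fintype.card_fin, nsmul_eq_mul]
      have e4 : Real.exp ((1 + ε) * t) = Real.exp (ε * t) * Real.exp t := by
        rw [← Real.exp_add]; congr 1; ring
      rw [e4, hY]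
      calc ((n + 1 : ℕ) : ℝ) * (C * (Real.exp (ε * t) * Real.exp t) * (2 ^ n * b ^ n))
          = (C * ((n + 1) * 2 ^ n * b ^ n)) * Real.exp (ε * t) * Real.exp t := by push_cast; ring
        _ ≤ _ := by
            gcongr
            linarith) s
  have hlow2 : 1 / (((n : ℝ) + 1) * Y) ^ (n + 1) =
      1 / (((n : ℝ) + 1) * C') ^ (n + 1) * Real.exp (-(((n : ℝ) + 1) * ε * t)) := by
    rw [hY, ← mul_assoc, mul_pow _ (Real.exp (ε * t)), ← Real.exp_nat_mul, Real.exp_neg]
    push_cast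
    rw [one_div, mul_inv, one_div]
    congr 3
    ring
  rw [hlow2] at hlow
  -- the point `z`
  obtain ⟨I, hI⟩ := exists_term (wt n t) (zb s) β
  have hr := rad_pos ℓ e m
  obtain ⟨z, hz, h3⟩ := Nm_near (wt n t) (wt_pos t) (zb s) (zd_le s) I β (rad ℓ e m) hr
  rw [← term_eq, ← hI] at h3
  have hNz := Nm_nonneg (wt n t) (wt_pos t) (zb s) z
  have h4 : A * Real.exp (-(((n : ℝ) + 1) * ε * t)) ≤ Nm (wt n t) (zb s) z := by
    have h5 := hlow.trans h3
    rw [hA, div_mul_eq_mul_div, div_le_iff₀ hDpos]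
    linarith
  -- the p-adic point
  have hzd : zd s = rk s := zd_eq s
  obtain ⟨j', hj'⟩ : ∃ j', zd s = j' + 1 := ⟨zd s - 1, by omega⟩
  have key : ∀ (D : ℕ) (v : Fin D → Fin (n + 1) → ℤ), ZB s.1 D v → D = j' + 1 →
      ∃ p ≤ (n + 1) * n, 1 ≤ Ux ℓ v (pt ℓ m p) := by
    rintro D v hv rfl
    obtain ⟨k, hk, hdvd⟩ := exists_ord v hv.1.1
    obtain ⟨p, hp1, hp2⟩ := padicA (ℓ := ℓ) hv hℓ hn k hdvd m
    refine ⟨p, hp1, le_trans ?_ hp2⟩
    have hℓ1 : (1 : ℝ) ≤ (ℓ : ℝ) ^ m :=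
      one_le_pow₀ (by exact_mod_cast (Fact.out : ℓ.Prime).one_lt.le)
    exact one_le_pow₀ hℓ1
  obtain ⟨p, hp1, hp2⟩ := key (zd s) (zb s) (zb_ZB s) hj'
  have hmain : A * Real.exp (-(((n : ℝ) + 1) * ε * t)) ≤
      Nm (wt n t) (zb s) z * Ux ℓ (zb s) (pt ℓ m p) :=
    h4.trans (le_mul_of_one_le_right hNz hp2)
  have hrk1 : (1 : ℝ) ≤ rk s := by exact_mod_cast hs1
  have hrkn : (rk s : ℝ) ≤ n := by exact_mod_cast hsn
  have hεn : 0 ≤ ((n : ℝ) + 1) * ε := by positivity
  refine ⟨z, hz, p, hp1, le_trans ?_ hmain, le_trans ?_ hmain⟩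
  · apply mul_le_mul_of_nonneg_left _ hA0.le
    apply Real.exp_le_exp.2
    apply neg_le_neg
    apply mul_le_mul_of_nonneg_right _ ht
    nlinarith
  · apply mul_le_mul_of_nonneg_left _ hA0.le
    apply Real.exp_le_exp.2
    apply neg_le_neg
    apply mul_le_mul_of_nonneg_right _ ht
    nlinarith

end Pool.Agent.Y627.SP
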