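import Mathlib

/-! From levels to times. -/

set_option autoImplicit false

namespace Pool.Agent.Y627.SP

theorem time_forms_of (hlev : ∀ (d n : ℕ), 1 ≤ n → n < d → ∃ C : ℝ, 1 ≤ C ∧ ∀ N : ℕ, 2 ≤ N →
    ∀ β : ℝ, 0 < β → β ^ d = ((N : ℝ) - 1) / N → ∀ r : ℕ, 1 ≤ r →
    ∃ B : Matrix (Fin (n + 1)) (Fin (n + 1)) ℤ, B.det ≠ 0 ∧
      (∀ h i, |(B h i : ℝ)| ≤ (C * N) ^ r) ∧
      ∀ h, |∑ i, (B h i : ℝ) * β ^ (i : ℕ)| ≤ (C / (N : ℝ) ^ n) ^ r)
    (d : ℕ) (hd : 1 ≤ d) (ε : ℝ) (hε : 0 < ε) : ∃ N0 : ℕ, ∀ N : ℕ, N0 ≤ N → 2 ≤ N →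
    ∀ β : ℝ, 0 < β → β ^ d = ((N : ℝ) - 1) * (N : ℝ) ^ (d - 1) →
    ∀ n : ℕ, 1 ≤ n → n < d → ∃ C : ℝ, 0 < C ∧ ∀ t : ℝ, 0 ≤ t →
    ∃ B : Matrix (Fin (n + 1)) (Fin (n + 1)) ℤ, B.det ≠ 0 ∧
      (∀ h i, |(B h i : ℝ)| ≤ C * Real.exp ((1 + ε) * t)) ∧
      ∀ h, |∑ i, (B h i : ℝ) * β ^ (i : ℕ)| ≤ C * Real.exp (-((n : ℝ) - ε) * t) := by
  classical
  have hC' : ∀ n : ℕ, ∃ C : ℝ, 1 ≤ C ∧ (1 ≤ n → n < d → ∀ N : ℕ, 2 ≤ N →
    ∀ β : ℝ, 0 < β → β ^ d = ((N : ℝ) - 1) / N → ∀ r : ℕ, 1 ≤ r →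
    ∃ B : Matrix (Fin (n + 1)) (Fin (n + 1)) ℤ, B.det ≠ 0 ∧
      (∀ h i, |(B h i : ℝ)| ≤ (C * N) ^ r) ∧
      ∀ h, |∑ i, (B h i : ℝ) * β ^ (i : ℕ)| ≤ (C / (N : ℝ) ^ n) ^ r) := by
    intro n
    by_cases h : 1 ≤ n ∧ n < d
    · obtain ⟨C, h1, h2⟩ := hlev d n h.1 h.2
      exact ⟨C, h1, fun _ _ => h2⟩
    · exact ⟨1, le_rfl, fun h1 h2 => absurd ⟨h1, h2⟩ h⟩
  choose Cn hCn1 hCn using hC'
  -- threshold
  have hN0 : ∀ n : ℕ, ∃ N0 : ℕ, ∀ N : ℕ, N0 ≤ N → Real.log (Cn n) ≤ ε * Real.log N := by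
    intro n
    have h1 : Filter.Tendsto (fun N : ℕ => ε * Real.log N) Filter.atTop Filter.atTop :=
      (Real.tendsto_log_atTop.comp tendsto_natCast_atTop_atTop).const_mul_atTop hε
    obtain ⟨N0, h2⟩ := Filter.eventually_atTop.1 (h1.eventually_ge_atTop (Real.log (Cn n)))
    exact ⟨N0, h2⟩
  choose N0 hN0' using hN0
  refine ⟨(Finset.range d).sup N0, ?_⟩
  intro N hN hN2 β hβ0 hβ n hn hnd
  have hNn : Real.log (Cn n) ≤ ε * Real.log N :=
    hN0' n N ((Finset.le_sup (Finset.mem_range.2 hnd)).trans hN)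
  have hNR : (2 : ℝ) ≤ N := by exact_mod_cast hN2
  have hNpos : (0 : ℝ) < N := by linarith
  have hlogN : 0 < Real.log N := Real.log_pos (by linarith)
  have hC1 := hCn1 n
  have hCpos : (0 : ℝ) < Cn n := by linarith
  have hlogC : 0 ≤ Real.log (Cn n) := Real.log_nonneg hC1
  refine ⟨Cn n * (N : ℝ) ^ (n + 1), by positivity, ?_⟩
  intro t ht
  set r : ℕ := ⌊t / Real.log N⌋₊ + 1 with hr
  have hr1 : t / Real.log N ≤ r := by
    rw [hr]; push_cast; exact (Nat.lt_floor_add_one _).le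
  have hr2 : (r : ℝ) ≤ t / Real.log N + 1 := by
    rw [hr]; push_cast
    have := Nat.floor_le (div_nonneg ht hlogN.le)
    linarith
  have hrt : t ≤ r * Real.log N := by rwa [div_le_iff₀ hlogN] at hr1
  have hrt2 : (r : ℝ) * Real.log N ≤ t + Real.log N := by
    have := mul_le_mul_of_nonneg_right hr2 hlogN.le
    rwa [add_mul, div_mul_cancel₀ _ hlogN.ne', one_mul] at this
  set γ : ℝ := β / N with hγ
  have hγ0 : 0 < γ := by positivity
  have hγd : γ ^ d = ((N : ℝ) - 1) / N := by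
    rw [hγ, div_pow, hβ]
    have : (N : ℝ) ^ d = (N : ℝ) ^ (d - 1) * N := by rw [← pow_succ]; congr 1; omega
    rw [this]
    field_simp
  obtain ⟨B, hB1, hB2, hB3⟩ := hCn n hn hnd N hN2 γ hγ0 hγd r (by omega)
  have hpowN : (N : ℝ) ^ r ≤ N * Real.exp t := by
    have e1 : (N : ℝ) ^ r = Real.exp (r * Real.log N) := by
      rw [Real.exp_nat_mul, Real.exp_log hNpos]
    have e2 : (N : ℝ) * Real.exp t = Real.exp (t + Real.log N) := by
      rw [Real.exp_add, Real.exp_log hNpos]; ring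
    rw [e1, e2]
    exact Real.exp_le_exp.2 hrt2
  have hpowC : (Cn n) ^ r ≤ Cn n * Real.exp (ε * t) := by
    have e1 : (Cn n) ^ r = Real.exp (r * Real.log (Cn n)) := by
      rw [Real.exp_nat_mul, Real.exp_log hCpos]
    have e2 : Cn n * Real.exp (ε * t) = Real.exp (ε * t + Real.log (Cn n)) := by
      rw [Real.exp_add, Real.exp_log hCpos]; ring
    rw [e1, e2]
    apply Real.exp_le_exp.2
    have h1 : (r : ℝ) * Real.log (Cn n) ≤ (t / Real.log N + 1) * Real.log (Cn n) :=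
      mul_le_mul_of_nonneg_right hr2 hlogC
    have h2 : t / Real.log N * Real.log (Cn n) ≤ ε * t := by
      calc t / Real.log N * Real.log (Cn n) ≤ t / Real.log N * (ε * Real.log N) :=
            mul_le_mul_of_nonneg_left hNn (div_nonneg ht hlogN.le)
        _ = ε * t := by field_simp
    linarith
  have hpowN' : (1 / (N : ℝ) ^ n) ^ r ≤ Real.exp (-(n * t)) := by
    have e1 : (1 / (N : ℝ) ^ n) ^ r = Real.exp (-(n * (r * Real.log N))) := by
      rw [one_div, inv_pow, ← pow_mul, Real.exp_neg, ← mul_assoc, ← Nat.cast_mul, Real.exp_nat_mul,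
        Real.exp_log hNpos]
    rw [e1]
    apply Real.exp_le_exp.2
    have : (n : ℝ) * t ≤ n * (r * Real.log N) := mul_le_mul_of_nonneg_left hrt (Nat.cast_nonneg _)
    linarith
  refine ⟨Matrix.of (fun h i => (N : ℤ) ^ (n - (i : ℕ)) * B h i), ?_, ?_, ?_⟩
  · rw [Matrix.det_mul_row (fun i : Fin (n + 1) => (N : ℤ) ^ (n - (i : ℕ))) B]
    apply mul_ne_zero _ hB1
    rw [Finset.prod_ne_zero_iff]
    intro i _
    apply pow_ne_zero
    exact_mod_cast (by omega : N ≠ 0)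
  · intro h i
    simp only [Matrix.of_apply]
    push_cast
    rw [abs_mul, abs_pow, abs_of_pos hNpos]
    calc (N : ℝ) ^ (n - (i : ℕ)) * |(B h i : ℝ)| ≤ (N : ℝ) ^ n * ((Cn n * N) ^ r) := by
          apply mul_le_mul _ (hB2 h i) (abs_nonneg _) (by positivity)
          exact pow_le_pow_right₀ (by linarith) (by omega)
      _ = (N : ℝ) ^ n * ((Cn n) ^ r * (N : ℝ) ^ r) := by rw [mul_pow]
      _ ≤ (N : ℝ) ^ n * ((Cn n * Real.exp (ε * t)) * (N * Real.exp t)) := by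
          apply mul_le_mul_of_nonneg_left _ (by positivity)
          exact mul_le_mul hpowC hpowN (by positivity) (by positivity)
      _ = _ := by
          have : Real.exp ((1 + ε) * t) = Real.exp (ε * t) * Real.exp t := by
            rw [← Real.exp_add]; congr 1; ring
          rw [this, pow_succ]; ring
  · intro h
    have h1 : ∑ i : Fin (n + 1), ((Matrix.of (fun h (i : Fin (n + 1)) =>
        (N : ℤ) ^ (n - (i : ℕ)) * B h i) h i : ℤ) : ℝ) * β ^ (i : ℕ) =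
        (N : ℝ) ^ n * ∑ i : Fin (n + 1), (B h i : ℝ) * γ ^ (i : ℕ) := by
      rw [Finset.mul_sum]
      refine Finset.sum_congr rfl (fun i _ => ?_)
      simp only [Matrix.of_apply]
      push_cast
      have e1 : (N : ℝ) ^ n = (N : ℝ) ^ (n - (i : ℕ)) * (N : ℝ) ^ (i : ℕ) := by
        rw [← pow_add]; congr 1; omega
      rw [hγ, div_pow, e1]
      field_simp
    rw [h1, abs_mul, abs_of_pos (by positivity)]
    calc (N : ℝ) ^ n * |∑ i : Fin (n + 1), (B h i : ℝ) * γ ^ (i : ℕ)|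
        ≤ (N : ℝ) ^ n * (Cn n / (N : ℝ) ^ n) ^ r := mul_le_mul_of_nonneg_left (hB3 h) (by positivity)
      _ = (N : ℝ) ^ n * ((Cn n) ^ r * (1 / (N : ℝ) ^ n) ^ r) := by
          rw [← mul_pow, mul_one_div]
      _ ≤ (N : ℝ) ^ n * ((Cn n * Real.exp (ε * t)) * Real.exp (-(n * t))) := by
          apply mul_le_mul_of_nonneg_left _ (by positivity)
          exact mul_le_mul hpowC hpowN' (by positivity) (by positivity)
      _ ≤ (N : ℝ) ^ (n + 1) * ((Cn n * Real.exp (ε * t)) * Real.exp (-(n * t))) := by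
          apply mul_le_mul_of_nonneg_right _ (by positivity)
          exact pow_le_pow_right₀ (by linarith) (by omega)
      _ = _ := by
          have : Real.exp (-((n : ℝ) - ε) * t) = Real.exp (ε * t) * Real.exp (-(n * t)) := by
            rw [← Real.exp_add]; congr 1; ring
          rw [this]; ring

end Pool.Agent.Y627.SP
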