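import Mathlib
import Pool.Agent.W71.TwoDeg

/-! Translates of a `d`-th root of a natural number by rational numbers (adapted from
Pool/Agent/W71/Nest5.lean and Pool/Agent/W71/TwoDeg.lean). -/

set_option autoImplicit false

open Polynomial Set

namespace Pool.Agent.Y627.SP

open Pool.Agent.W71

/-- the polynomial `X ^ d - a` -/
noncomputable def gZ (d a : ℕ) : ℤ[X] := X ^ d - C (a : ℤ)

/-- rational version -/
noncomputable def gQ (d a : ℕ) : ℚ[X] := (gZ d a).map (Int.castRingHom ℚ)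

lemma gZ_monic {d a : ℕ} (hd1 : 1 ≤ d) : (gZ d a).Monic := by
  unfold gZ
  exact monic_X_pow_sub_C _ (by omega)

lemma gZ_natDegree {d a : ℕ} : (gZ d a).natDegree = d := by
  unfold gZ
  exact natDegree_X_pow_sub_C

lemma gQ_monic {d a : ℕ} (hd1 : 1 ≤ d) : (gQ d a).Monic := (gZ_monic hd1).map _

lemma gQ_natDegree {d a : ℕ} (hd1 : 1 ≤ d) : (gQ d a).natDegree = d := by
  unfold gQ
  rw [(gZ_monic hd1).natDegree_map, gZ_natDegree]

lemma gQ_irr {d a : ℕ} (hd1 : 1 ≤ d) (hirr : Irreducible (X ^ d - C (a : ℤ) : ℤ[X])) :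
    Irreducible (gQ d a) :=
  (IsPrimitive.Int.irreducible_iff_irreducible_map_cast (gZ_monic hd1).isPrimitive).1 hirr

theorem minPoly_translateG {d : ℕ} (hd1 : 1 ≤ d) (a : ℕ) (ha : 1 ≤ a)
    (hirr : Irreducible (X ^ d - C (a : ℤ) : ℤ[X])) (β : ℝ) (hβ0 : 0 < β) (hβ : β ^ d = a)
    (B : ℝ) (hB : 1 ≤ B) (q : ℕ) (hq : 1 ≤ q) (p : ℤ) (hpB : |(p : ℝ) / q| ≤ B) :
    ∃ P : ℤ[X], MinPolyZ P ((p : ℝ) / q + β) ∧ P.natDegree = d ∧
      (hgt P : ℝ) ≤ (2 ^ d * B ^ d + a) * (q : ℝ) ^ d := by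
  have ha0 : (0 : ℝ) < a := by exact_mod_cast (by omega : 0 < a)
  have hq0 : (0 : ℝ) < q := by exact_mod_cast (by omega : 0 < q)
  have hqZ : (q : ℤ) ≠ 0 := by exact_mod_cast (by omega : q ≠ 0)
  set F : ℤ[X] := (C (q : ℤ) * X + C (-p)) ^ d - C ((a : ℤ) * (q : ℤ) ^ d) with hF
  -- real version
  have hFR : F.map (Int.castRingHom ℝ) =
      C ((q : ℝ) ^ d) * (X + C (-((p : ℝ) / q))) ^ d - C ((a : ℝ) * (q : ℝ) ^ d) := by
    have e1 : (C (q : ℝ) * X + C (-(p : ℝ)) : ℝ[X]) = C (q : ℝ) * (X + C (-((p : ℝ) / q))) := by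
      rw [mul_add, ← C_mul]
      congr 2
      field_simp
    have e2 : (C (q : ℤ) : ℤ[X]).map (Int.castRingHom ℝ) = C (q : ℝ) := by
      rw [Polynomial.map_C]; simp
    have e3 : (C (-p) : ℤ[X]).map (Int.castRingHom ℝ) = C (-(p : ℝ)) := by
      rw [Polynomial.map_C]; simp
    have e4 : (C ((a : ℤ) * (q : ℤ) ^ d) : ℤ[X]).map (Int.castRingHom ℝ) = C ((a : ℝ) * (q : ℝ) ^ d) := by
      rw [Polynomial.map_C]; simp
    rw [hF, Polynomial.map_sub, Polynomial.map_pow, Polynomial.map_add, Polynomial.map_mul, e2, e3,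
      e4, map_X, e1, mul_pow, ← C_pow]
  have hcoefR : ∀ i, ((F.coeff i : ℤ) : ℝ) = (q : ℝ) ^ d * ((-((p : ℝ) / q)) ^ (d - i) *
      ((d.choose i : ℕ) : ℝ)) - (if i = 0 then (a : ℝ) * (q : ℝ) ^ d else 0) := by
    intro i
    have h1 : ((F.coeff i : ℤ) : ℝ) = (F.map (Int.castRingHom ℝ)).coeff i := by
      rw [coeff_map]; rfl
    rw [h1, hFR, coeff_sub, coeff_C_mul, coeff_X_add_C_pow, coeff_C]
  -- the number
  set α : ℝ := (p : ℝ) / q + β with hα
  have hFα : aeval α F = 0 := by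
    have h1 : aeval α F = (F.map (Int.castRingHom ℝ)).eval α := by
      rw [aeval_def, eval_map]; rfl
    rw [h1, hFR]
    simp only [eval_sub, eval_mul, eval_C, eval_pow, eval_add, eval_X]
    have h2 : α + -((p : ℝ) / q) = β := by rw [hα]; ring
    rw [h2, hβ]; ring
  have hFd : F.coeff d = (q : ℤ) ^ d := by
    have h1 := hcoefR d
    rw [if_neg (by omega), Nat.sub_self, pow_zero, Nat.choose_self] at h1
    have h2 : ((F.coeff d : ℤ) : ℝ) = (((q : ℤ) ^ d : ℤ) : ℝ) := by rw [h1]; push_cast; ring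
    exact_mod_cast h2
  have hqd : (q : ℤ) ^ d ≠ 0 := pow_ne_zero _ hqZ
  have hFdeg : F.natDegree = d := by
    apply le_antisymm
    · rw [natDegree_le_iff_coeff_eq_zero]
      intro i hi
      have h1 := hcoefR i
      rw [if_neg (by omega), Nat.choose_eq_zero_of_lt hi] at h1
      have h2 : ((F.coeff i : ℤ) : ℝ) = ((0 : ℤ) : ℝ) := by rw [h1]; simp
      exact_mod_cast h2
    · apply le_natDegree_of_ne_zero
      rw [hFd]; exact hqd
  have hFlead : F.leadingCoeff = (q : ℤ) ^ d := by rw [leadingCoeff, hFdeg, hFd]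
  have hF0 : F ≠ 0 := by
    intro h
    rw [h] at hFd
    simp only [coeff_zero] at hFd
    exact hqd hFd.symm
  have hcont : F = C F.content * F.primPart := eq_C_content_mul_primPart F
  have hc0 : F.content ≠ 0 := fun h => hF0 (content_eq_zero_iff.1 h)
  have hcpos : 0 < F.content := by
    have h1 : normalize F.content = F.content := normalize_content
    have h2 := Int.abs_eq_normalize F.content
    rw [h1] at h2
    have h3 : 0 ≤ F.content := by rw [← h2]; exact abs_nonneg _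
    exact lt_of_le_of_ne h3 (Ne.symm hc0)
  set P := F.primPart with hP
  have hPdeg : P.natDegree = d := by rw [hP, natDegree_primPart, hFdeg]
  have hPlead : 0 < P.leadingCoeff := by
    have h1 : F.leadingCoeff = F.content * P.leadingCoeff := by
      conv_lhs => rw [hcont]
      rw [leadingCoeff_mul, leadingCoeff_C]
    rw [hFlead] at h1
    have h2 : 0 < F.content * P.leadingCoeff := by rw [← h1]; positivity
    exact (mul_pos_iff_of_pos_left hcpos).1 h2
  have hPα : aeval α P = 0 := by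
    rw [hcont, map_mul, aeval_C] at hFα
    rcases mul_eq_zero.1 hFα with h | h
    · exfalso
      apply hc0
      have h1 : ((F.content : ℤ) : ℝ) = 0 := h
      exact_mod_cast h1
    · exact h
  -- the degree of the number
  have hroot : aeval β (gQ d a) = 0 := by
    have h0 : aeval β (gQ d a) = aeval β (gZ d a) := aeval_map_algebraMap ℚ β (gZ d a)
    have h1 : aeval β (gQ d a) = β ^ d - a := by
      rw [h0]
      unfold gZ
      rw [map_sub, map_pow, aeval_X, aeval_C]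
      simp
    rw [h1, hβ, sub_self]
  have hmin : minpoly ℚ β = gQ d a :=
    (minpoly.eq_of_irreducible_of_monic (gQ_irr hd1 hirr) hroot (gQ_monic hd1)).symm
  have hαeq : α = β + algebraMap ℚ ℝ ((p : ℚ) / (q : ℚ)) := by
    rw [hα, add_comm]
    congr 1
    rw [eq_ratCast]; push_cast; rfl
  have hminα : (minpoly ℚ α).natDegree = d := by
    rw [hαeq, minpoly.add_algebraMap, hmin, natDegree_comp, natDegree_X_sub_C, mul_one,
      gQ_natDegree hd1]
  refine ⟨P, ⟨isPrimitive_primPart F, hPlead, by omega, hPα, ?_⟩, hPdeg, ?_⟩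
  · intro Q hQ0 hQα
    rw [hPdeg, ← hminα]
    have h1 : aeval α (Q.map (Int.castRingHom ℚ)) = 0 := by
      have : aeval α (Q.map (algebraMap ℤ ℚ)) = aeval α Q := aeval_map_algebraMap ℚ α Q
      rw [hQα] at this
      exact this
    have h2 : Q.map (Int.castRingHom ℚ) ≠ 0 := by
      rw [Ne, Polynomial.map_eq_zero_iff (RingHom.injective_int (Int.castRingHom ℚ))]
      exact hQ0
    exact (natDegree_le_natDegree (minpoly.degree_le_of_ne_zero ℚ α h2 h1)).trans natDegree_map_le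
  · apply hgt_le_real _ (by positivity)
    intro i
    have h1 : F.coeff i = F.content * P.coeff i := by
      conv_lhs => rw [hcont]
      rw [coeff_C_mul]
    have h2 : |((P.coeff i : ℤ) : ℝ)| ≤ |((F.coeff i : ℤ) : ℝ)| := by
      rw [h1]
      push_cast
      rw [abs_mul]
      have h3 : (1 : ℝ) ≤ |((F.content : ℤ) : ℝ)| := by
        rw [← Int.cast_abs]
        exact_mod_cast Int.one_le_abs hc0
      exact le_mul_of_one_le_left (abs_nonneg _) h3
    refine h2.trans ?_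
    rw [hcoefR i]
    have h4 : |(q : ℝ) ^ d * ((-((p : ℝ) / q)) ^ (d - i) * ((d.choose i : ℕ) : ℝ))| ≤
        (q : ℝ) ^ d * (B ^ d * 2 ^ d) := by
      rw [abs_mul, abs_of_pos (by positivity : (0 : ℝ) < (q : ℝ) ^ d), abs_mul, abs_pow, abs_neg,
        Nat.abs_cast]
      apply mul_le_mul_of_nonneg_left _ (by positivity)
      apply mul_le_mul _ _ (by positivity) (by positivity)
      · calc |(p : ℝ) / q| ^ (d - i) ≤ B ^ (d - i) := pow_le_pow_left₀ (abs_nonneg _) hpB _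
          _ ≤ B ^ d := pow_le_pow_right₀ hB (by omega)
      · have := Nat.choose_le_two_pow d i
        exact_mod_cast this
    have h5 : |(if i = 0 then (a : ℝ) * (q : ℝ) ^ d else 0)| ≤ (a : ℝ) * (q : ℝ) ^ d := by
      split_ifs
      · rw [abs_of_pos (by positivity)]
      · rw [abs_zero]; positivity
    refine (abs_sub _ _).trans ?_
    linarith

theorem approx_okG {d : ℕ} (hd1 : 1 ≤ d) (a : ℕ) (ha : 1 ≤ a)
    (hirr : Irreducible (X ^ d - C (a : ℤ) : ℤ[X])) (β : ℝ) (hβ0 : 0 < β) (hβ : β ^ d = a)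
    (w B δ ξ : ℝ) (hw : 0 ≤ w) (hB : 1 ≤ B) (q : ℕ) (hq : 1 ≤ q)
    (p : ℤ) (hpB : |(p : ℝ) / q| ≤ B)
    (happ : |ξ - ((p : ℝ) / q + β)| ≤ 2 * (q : ℝ) ^ (-((d : ℝ) * (1 + w) + δ)))
    (hbig : 2 * (2 ^ d * B ^ d + a) ^ (1 + w) < (q : ℝ) ^ δ) :
    ∃ P : ℤ[X], MinPolyZ P ((p : ℝ) / q + β) ∧ P.natDegree = d ∧
      |ξ - ((p : ℝ) / q + β)| < (hgt P : ℝ) ^ (-(1 + w)) := by
  obtain ⟨P, h1, h2, h3⟩ := minPoly_translateG hd1 a ha hirr β hβ0 hβ B hB q hq p hpB
  refine ⟨P, h1, h2, ?_⟩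
  have hq0 : (0 : ℝ) < q := by exact_mod_cast (by omega : 0 < q)
  have hP0 : P ≠ 0 := by rintro rfl; have := h1.2.1; simp at this
  have hH1 : (1 : ℝ) ≤ hgt P := by exact_mod_cast hgt_pos hP0
  set C : ℝ := 2 ^ d * B ^ d + a with hC
  have hC0 : 0 < C := by positivity
  have hpos : 0 < (q : ℝ) ^ (-((d : ℝ) * (1 + w) + δ)) := Real.rpow_pos_of_pos hq0 _
  calc |ξ - ((p : ℝ) / q + β)| ≤ 2 * (q : ℝ) ^ (-((d : ℝ) * (1 + w) + δ)) := happ
    _ < (C * (q : ℝ) ^ d) ^ (-(1 + w)) := by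
        rw [Real.mul_rpow hC0.le (by positivity)]
        have e1 : ((q : ℝ) ^ d) ^ (-(1 + w)) = (q : ℝ) ^ δ * (q : ℝ) ^ (-((d : ℝ) * (1 + w) + δ)) := by
          rw [← Real.rpow_add hq0, ← Real.rpow_natCast, ← Real.rpow_mul hq0.le]
          congr 1; ring
        have e2 : C ^ (-(1 + w)) * C ^ (1 + w) = 1 := by
          rw [← Real.rpow_add hC0]; simp
        rw [e1]
        have h5 : 0 < C ^ (-(1 + w)) := Real.rpow_pos_of_pos hC0 _
        calc 2 * (q : ℝ) ^ (-((d : ℝ) * (1 + w) + δ))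
            = C ^ (-(1 + w)) * (2 * C ^ (1 + w)) * (q : ℝ) ^ (-((d : ℝ) * (1 + w) + δ)) := by
              linear_combination (-(2 * (q : ℝ) ^ (-((d : ℝ) * (1 + w) + δ)))) * e2
          _ < C ^ (-(1 + w)) * (q : ℝ) ^ δ * (q : ℝ) ^ (-((d : ℝ) * (1 + w) + δ)) := by
              apply mul_lt_mul_of_pos_right _ hpos
              exact mul_lt_mul_of_pos_left hbig h5
          _ = _ := by ring
    _ ≤ (hgt P : ℝ) ^ (-(1 + w)) :=
        Real.rpow_le_rpow_of_nonpos (by linarith) h3 (by linarith)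

theorem exists_beta (d N0 : ℕ) (hd1 : 1 ≤ d) : ∃ N : ℕ, N0 ≤ N ∧ 2 ≤ N ∧
    Irreducible (X ^ d - C ((((N - 1) * N ^ (d - 1) : ℕ)) : ℤ) : ℤ[X]) := by
  obtain ⟨p, hp1, hp⟩ := Nat.exists_infinite_primes (N0 + 2)
  refine ⟨p + 1, by omega, by omega, ?_⟩
  have e : p + 1 - 1 = p := rfl
  rw [e]
  set a := p * (p + 1) ^ (d - 1) with ha
  have hmon : (X ^ d - C ((a : ℕ) : ℤ) : ℤ[X]).Monic := gZ_monic (a := a) hd1
  have hdeg : (X ^ d - C ((a : ℕ) : ℤ) : ℤ[X]).natDegree = d := gZ_natDegree (a := a)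
  have hpi : Prime (p : ℤ) := Nat.prime_iff_prime_int.1 hp
  have hpa : (p : ℤ) ∣ (a : ℤ) := by
    rw [ha]; push_cast; exact dvd_mul_right _ _
  have hpa2 : ¬ (p : ℤ) ^ 2 ∣ (a : ℤ) := by
    rw [ha]; push_cast
    rw [sq]
    intro h
    have h1 : (p : ℤ) ∣ ((p : ℤ) + 1) ^ (d - 1) :=
      (mul_dvd_mul_iff_left hpi.ne_zero).1 h
    have h2 : (p : ℤ) ∣ (p : ℤ) + 1 := hpi.dvd_of_dvd_pow h1
    have h3 : (p : ℤ) ∣ 1 := (dvd_add_right (dvd_refl _)).1 h2
    exact hpi.not_isUnit (isUnit_of_dvd_one h3)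
  apply irreducible_of_eisenstein_criterion (P := Ideal.span {(p : ℤ)})
  · rw [Ideal.span_singleton_prime hpi.ne_zero]; exact hpi
  · rw [hmon.leadingCoeff, Ideal.mem_span_singleton]
    exact fun h => hpi.not_isUnit (isUnit_of_dvd_one h)
  · intro k hk
    have hk' : k < d := by
      have h1 := hk.trans_le degree_le_natDegree
      rw [hdeg] at h1
      exact_mod_cast h1
    rw [Ideal.mem_span_singleton, coeff_sub, coeff_X_pow, if_neg hk'.ne, coeff_C]
    split_ifs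
    · rw [zero_sub, dvd_neg]; exact hpa
    · simp
  · rw [← natDegree_pos_iff_degree_pos, hdeg]; omega
  · rw [coeff_sub, coeff_X_pow, if_neg (by omega), coeff_C_zero, Ideal.span_singleton_pow,
      Ideal.mem_span_singleton, zero_sub, dvd_neg]
    exact hpa2
  · exact hmon.isPrimitive

end Pool.Agent.Y627.SP
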