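import Mathlib
import Pool.Agent.Y627.SP.All
import Pool.Agent.TH970.SE.Lem

/-! Exact degree exponents: both inequalities for the starred exponent. -/

set_option autoImplicit false

open Polynomial Set

namespace Pool.Agent.Y627.SP

open Pool.Agent.W71 Pool.Agent.TH970.SE

variable {n : ℕ}

theorem star_lower (ξ w r : ℝ) (hw : 0 ≤ w) (hrw : r < w) (hr : 0 ≤ r)
    (hξ : ∀ P : ℤ[X], P ≠ 0 → aeval ξ P ≠ 0)
    (hinf : {α : ℝ | ∃ P : ℤ[X], MinPolyZ P α ∧ P.natDegree = n ∧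
      |ξ - α| < (hgt P : ℝ) ^ (-(1 + w))}.Infinite) (X₀ : ℝ) :
    ∃ X : ℝ, X₀ ≤ X ∧ 1 ≤ X ∧ ∃ (α : ℝ) (P : ℤ[X]), α ≠ 0 ∧ MinPolyZ P α ∧ P.natDegree = n ∧
      (hgt P : ℝ) ≤ X ∧ 0 < |ξ - α| ∧ |ξ - α| ≤ (hgt P : ℝ)⁻¹ * X ^ (-r) := by
  obtain ⟨α, P, h1, h2, h3, ⟨h4, h5, h6⟩, h7⟩ := exists_big (n := n) _
    (fun P α => MinPolyZ P α ∧ P.natDegree = n ∧ |ξ - α| < (hgt P : ℝ) ^ (-(1 + w)))
    (hinf.diff (Set.finite_singleton (0 : ℝ)))
    (by
      rintro α ⟨⟨P, h1, h2, h3⟩, -⟩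
      refine ⟨P, ?_, h2.le, h1.2.2.2.1, h1, h2, h3⟩
      rintro rfl
      have := h1.2.1
      simp at this) (max X₀ 1)
  have hH1 : (1 : ℝ) < hgt P := lt_of_le_of_lt (le_max_right _ _) h7
  have hH0 : (0 : ℝ) < hgt P := by linarith
  have hα0 : α ≠ 0 := by
    rintro rfl
    -- the minimal polynomial of zero is `X`, of height one
    have hd := h4.2.2.2.2 X X_ne_zero (by simp)
    rw [natDegree_X] at hd
    have hd1 : P.natDegree = 1 := by have := h4.2.2.1; omega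
    have hc0 : P.coeff 0 = 0 := by
      have h8 : aeval (0 : ℝ) P = ((P.coeff 0 : ℤ) : ℝ) := by
        rw [← coeff_zero_eq_aeval_zero']
        simp
      rw [h3] at h8
      exact_mod_cast h8.symm
    have hPX : P = C (P.coeff 1) * X := by
      have := eq_X_add_C_of_natDegree_le_one (by omega : P.natDegree ≤ 1)
      rw [hc0, C_0, add_zero] at this
      exact this
    have hunit : IsUnit (P.coeff 1) := h4.1 (P.coeff 1) ⟨X, hPX⟩
    have habs : (P.coeff 1).natAbs = 1 := Int.isUnit_iff_natAbs_eq.1 hunit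
    have hle : (hgt P : ℝ) ≤ 1 := by
      apply hgt_le_real 1 zero_le_one
      intro i
      have h9 : (P.coeff i).natAbs ≤ 1 := by
        by_cases hi : i = 1
        · rw [hi]; exact habs.le
        · by_cases hi0 : i = 0
          · rw [hi0, hc0]; simp
          · rw [coeff_eq_zero_of_natDegree_lt (by omega)]; simp
      have h10 : ((P.coeff i).natAbs : ℝ) ≤ 1 := by exact_mod_cast h9
      rwa [Nat.cast_natAbs, Int.cast_abs] at h10
    linarith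
  refine ⟨hgt P, (le_max_left _ _).trans h7.le, hH1.le, α, P, hα0, h4, h5, le_rfl, ?_, ?_⟩
  · rw [abs_pos, sub_ne_zero]
    rintro rfl
    exact hξ P h1 h3
  · refine h6.le.trans ?_
    rw [← Real.rpow_neg_one, ← Real.rpow_add hH0]
    exact Real.rpow_le_rpow_of_exponent_le hH1.le (by linarith)

theorem star_upper (ξ w r : ℝ) (hr : 0 < r) (hwr : w < r)
    (hξ : ∀ P : ℤ[X], P ≠ 0 → aeval ξ P ≠ 0)
    (hfin : ∀ v : ℝ, w < v → {α : ℝ | ∃ P : ℤ[X], MinPolyZ P α ∧ P.natDegree ≤ n ∧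
      |ξ - α| ≤ (hgt P : ℝ) ^ (-v - 1)}.Finite) :
    ∃ X₀ : ℝ, ∀ X : ℝ, X₀ ≤ X → 1 ≤ X → ∀ (α : ℝ) (P : ℤ[X]), MinPolyZ P α → P.natDegree ≤ n →
      (hgt P : ℝ) ≤ X → (hgt P : ℝ)⁻¹ * X ^ (-r) < |ξ - α| := by
  -- a lower bound for the distances
  set A := {α : ℝ | ∃ P : ℤ[X], MinPolyZ P α ∧ P.natDegree ≤ n ∧
      |ξ - α| ≤ (hgt P : ℝ) ^ (-r - 1)} with hA
  have hAfin : A.Finite := hfin r hwr
  obtain ⟨δ, hδ, hδ'⟩ : ∃ δ : ℝ, 0 < δ ∧ ∀ α ∈ A, δ ≤ |ξ - α| := by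
    rcases hAfin.toFinset.eq_empty_or_nonempty with h0 | h0
    · refine ⟨1, one_pos, fun α hα => ?_⟩
      have : α ∈ hAfin.toFinset := hAfin.mem_toFinset.2 hα
      rw [h0] at this; simp at this
    · obtain ⟨α0, h1, h2⟩ := hAfin.toFinset.exists_min_image (fun α => |ξ - α|) h0
      refine ⟨|ξ - α0|, ?_, fun α hα => h2 α (hAfin.mem_toFinset.2 hα)⟩
      obtain ⟨P, hP, -, -⟩ := hAfin.mem_toFinset.1 h1
      rw [abs_pos, sub_ne_zero]
      rintro rfl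
      refine hξ P ?_ hP.2.2.2.1
      rintro rfl
      have := hP.2.1
      simp at this
  obtain ⟨X₀, hX₀⟩ := Filter.eventually_atTop.1
    ((tendsto_rpow_neg_atTop hr).eventually (gt_mem_nhds hδ))
  refine ⟨X₀, fun X hX hX1 α P hP hdeg hH => ?_⟩
  by_contra hcon
  push Not at hcon
  have hP0 : P ≠ 0 := by rintro rfl; have := hP.2.1; simp at this
  have hH1 : (1 : ℝ) ≤ hgt P := by exact_mod_cast hgt_pos hP0
  have hH0 : (0 : ℝ) < hgt P := by linarith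
  have hXr : X ^ (-r) ≤ (hgt P : ℝ) ^ (-r) :=
    Real.rpow_le_rpow_of_nonpos hH0 hH (by linarith)
  have hmem : α ∈ A := by
    refine ⟨P, hP, hdeg, hcon.trans ?_⟩
    rw [sub_eq_add_neg, Real.rpow_add hH0, Real.rpow_neg_one, mul_comm]
    exact mul_le_mul_of_nonneg_right hXr (by positivity)
  have h1 := hδ' α hmem
  have h2 := hX₀ X hX
  have h3 : (hgt P : ℝ)⁻¹ * X ^ (-r) ≤ X ^ (-r) := by
    apply mul_le_of_le_one_left (by positivity)
    exact inv_le_one_of_one_le₀ hH1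
  linarith

end Pool.Agent.Y627.SP
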