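import Mathlib
import Pool.Agent.W71.Expo
import Pool.Agent.TH970.SE.Lem

/-! Uniform exponents: elementary estimates. -/

set_option autoImplicit false

open Polynomial Finset

namespace Pool.Agent.Y627.SP

open Pool.Agent.W71 Pool.Agent.TH970.SE

theorem sumdiff (n : ℕ) (S : Finset ℕ) (hS : S ⊆ range (n + 1)) (c : ℕ → ℝ) (B : ℝ) (hB : 0 ≤ B)
    (hc : ∀ i ∈ S, |c i| ≤ B) (x y A : ℝ) (hA : 1 ≤ A) (hx : |x| ≤ A) (hy : |y| ≤ A) :
    |∑ i ∈ S, c i * (x ^ i - y ^ i)| ≤ B * (((n : ℝ) + 1) ^ 2 * A ^ n) * |x - y| := by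
  have hterm : ∀ i ∈ S, |c i * (x ^ i - y ^ i)| ≤ B * (|x - y| * ((n + 1) * A ^ n)) := by
    intro i hi
    have hin : i ≤ n := by have := mem_range.1 (hS hi); omega
    rw [abs_mul]
    refine mul_le_mul (hc i hi) ?_ (abs_nonneg _) hB
    refine (abs_pow_sub_pow_le x y i).trans ?_
    rw [mul_assoc]
    refine mul_le_mul_of_nonneg_left ?_ (abs_nonneg _)
    have h1 : max |x| |y| ≤ A := max_le hx hy
    have h2 : max |x| |y| ^ (i - 1) ≤ A ^ n :=
      (pow_le_pow_left₀ ((abs_nonneg x).trans (le_max_left _ _)) h1 _).trans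
        (pow_le_pow_right₀ hA (by omega))
    have h3 : (i : ℝ) ≤ n + 1 := by
      have : (i : ℝ) ≤ n := by exact_mod_cast hin
      linarith
    exact mul_le_mul h3 h2 (by positivity) (by positivity)
  calc |∑ i ∈ S, c i * (x ^ i - y ^ i)| ≤ ∑ i ∈ S, |c i * (x ^ i - y ^ i)| := abs_sum_le_sum_abs _ _
    _ ≤ ∑ _i ∈ S, B * (|x - y| * ((n + 1) * A ^ n)) := sum_le_sum hterm
    _ = (S.card : ℝ) * (B * (|x - y| * ((n + 1) * A ^ n))) := by rw [sum_const, nsmul_eq_mul]
    _ ≤ ((n : ℝ) + 1) * (B * (|x - y| * ((n + 1) * A ^ n))) := by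
        refine mul_le_mul_of_nonneg_right ?_ (by positivity)
        have := card_le_card hS
        rw [card_range] at this
        exact_mod_cast this
    _ = _ := by ring

/-- differences of the values of a polynomial -/
theorem val_diff (n : ℕ) (P : ℤ[X]) (hP : P.natDegree ≤ n) (H : ℝ) (hH : 0 ≤ H)
    (hc : ∀ i, |(P.coeff i : ℝ)| ≤ H) (x y A : ℝ) (hA : 1 ≤ A) (hx : |x| ≤ A) (hy : |y| ≤ A) :
    |aeval x P - aeval y P| ≤ H * (((n : ℝ) + 1) ^ 2 * A ^ n) * |x - y| := by
  rw [aeval_eq_sum_range' (by omega : P.natDegree < n + 1), aeval_eq_sum_range' (by omega : P.natDegree < n + 1),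
    ← sum_sub_distrib]
  have := sumdiff n (range (n + 1)) (subset_refl _) (fun i => (P.coeff i : ℝ)) H hH
    (fun i _ => hc i) x y A hA hx hy
  refine le_of_eq_of_le ?_ this
  congr 1
  refine sum_congr rfl fun i _ => ?_
  simp only [zsmul_eq_mul]
  ring

/-- the same with the linear term -/
theorem val_diff_lin (n : ℕ) (P : ℤ[X]) (hP : P.natDegree ≤ n) (hn : 1 ≤ n) (H : ℝ) (hH : 0 ≤ H)
    (hc : ∀ i, 2 ≤ i → |(P.coeff i : ℝ)| ≤ H) (x y A : ℝ) (hA : 1 ≤ A) (hx : |x| ≤ A)
    (hy : |y| ≤ A) :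
    |aeval x P - aeval y P - P.coeff 1 * (x - y)| ≤ H * (((n : ℝ) + 1) ^ 2 * A ^ n) * |x - y| := by
  have hsub : (range (n + 1)).filter (fun i => 2 ≤ i) ⊆ range (n + 1) := filter_subset _ _
  have := sumdiff n _ hsub (fun i => (P.coeff i : ℝ)) H hH
    (fun i hi => hc i (mem_filter.1 hi).2) x y A hA hx hy
  refine le_of_eq_of_le ?_ this
  congr 1
  rw [aeval_eq_sum_range' (by omega : P.natDegree < n + 1), aeval_eq_sum_range' (by omega : P.natDegree < n + 1),
    ← sum_sub_distrib]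
  rw [← sum_filter_add_sum_filter_not (range (n + 1)) (fun i => 2 ≤ i)]
  have h1 : ∑ i ∈ (range (n + 1)).filter (fun i => ¬ 2 ≤ i),
      (P.coeff i • x ^ i - P.coeff i • y ^ i) = P.coeff 1 * (x - y) := by
    have h2 : (range (n + 1)).filter (fun i => ¬ 2 ≤ i) = {0, 1} := by
      ext i
      simp only [mem_filter, mem_range, mem_insert, mem_singleton]
      omega
    rw [h2, sum_pair (by norm_num)]
    simp only [zsmul_eq_mul, pow_zero, pow_one]
    ring
  rw [h1, add_sub_cancel_right]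
  refine sum_congr rfl fun i _ => ?_
  simp only [zsmul_eq_mul]
  ring

/-- an inequality of Gelfond -/
theorem gelfond (n : ℕ) (Q R : ℤ[X]) (hn : (Q * R).natDegree ≤ n) (hQR : Q * R ≠ 0) :
    (hgt Q : ℝ) ≤ 2 ^ n * ((n + 1) * hgt (Q * R)) := by
  have hQ : Q ≠ 0 := left_ne_zero_of_mul hQR
  have hR : R ≠ 0 := right_ne_zero_of_mul hQR
  have hH0 : (0 : ℝ) ≤ hgt (Q * R) := Nat.cast_nonneg _
  have hH : ∀ i, |((Q * R).coeff i : ℝ)| ≤ hgt (Q * R) := by
    intro i
    have h1 := coeff_le_hgt (Q * R) i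
    have h2 : (((Q * R).coeff i).natAbs : ℝ) ≤ hgt (Q * R) := by exact_mod_cast h1
    rwa [Nat.cast_natAbs, Int.cast_abs] at h2
  have hinj : Function.Injective (Int.castRingHom ℂ) := RingHom.injective_int _
  have key : ∀ (S : ℤ[X]) (i : ℕ), |(S.coeff i : ℝ)| ≤
      2 ^ S.natDegree * (S.map (Int.castRingHom ℂ)).mahlerMeasure := by
    intro S i
    have h1 := norm_coeff_le_choose_mul_mahlerMeasure i (S.map (Int.castRingHom ℂ))
    rw [coeff_map, eq_intCast, Complex.norm_intCast, natDegree_map_eq_of_injective hinj] at h1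
    refine h1.trans ?_
    have h2 : ((S.natDegree.choose i : ℕ) : ℝ) ≤ 2 ^ S.natDegree := by
      exact_mod_cast Nat.choose_le_two_pow _ _
    exact mul_le_mul_of_nonneg_right h2 (mahlerMeasure_nonneg _)
  have h1 : (Q.map (Int.castRingHom ℂ)).mahlerMeasure * (R.map (Int.castRingHom ℂ)).mahlerMeasure ≤
      (n + 1) * hgt (Q * R) := by
    rw [← mahlerMeasure_mul, ← Polynomial.map_mul]
    refine (mahlerMeasure_le_sum_norm_coeff _).trans ?_
    rw [Polynomial.sum_def]
    have h2 : ((Q * R).map (Int.castRingHom ℂ)).support ⊆ Finset.range (n + 1) := by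
      intro j hj
      rw [Finset.mem_range]
      have h3 := le_natDegree_of_mem_supp j hj
      rw [natDegree_map_eq_of_injective hinj] at h3
      omega
    calc ∑ j ∈ ((Q * R).map (Int.castRingHom ℂ)).support, ‖((Q * R).map (Int.castRingHom ℂ)).coeff j‖
        ≤ ∑ j ∈ Finset.range (n + 1), ‖((Q * R).map (Int.castRingHom ℂ)).coeff j‖ :=
          Finset.sum_le_sum_of_subset_of_nonneg h2 fun _ _ _ => norm_nonneg _
      _ ≤ ∑ _j ∈ Finset.range (n + 1), (hgt (Q * R) : ℝ) := by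
          refine Finset.sum_le_sum fun j _ => ?_
          rw [coeff_map, eq_intCast, Complex.norm_intCast]
          exact hH j
      _ = _ := by rw [Finset.sum_const, Finset.card_range, nsmul_eq_mul]; push_cast; ring
  have hdeg : Q.natDegree + R.natDegree ≤ n := by
    rw [← natDegree_mul hQ hR]
    exact hn
  apply hgt_le_real _ (by positivity)
  intro i
  have h4 : (1 : ℝ) ≤ |(R.leadingCoeff : ℝ)| := by
    exact_mod_cast Int.one_le_abs (leadingCoeff_ne_zero.2 hR)
  calc |(Q.coeff i : ℝ)| ≤ |(Q.coeff i : ℝ)| * |(R.coeff R.natDegree : ℝ)| :=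
        le_mul_of_one_le_right (abs_nonneg _) h4
    _ ≤ (2 ^ Q.natDegree * (Q.map (Int.castRingHom ℂ)).mahlerMeasure) *
        (2 ^ R.natDegree * (R.map (Int.castRingHom ℂ)).mahlerMeasure) := by
        apply mul_le_mul (key Q i) (key R _) (abs_nonneg _)
        exact mul_nonneg (by positivity) (mahlerMeasure_nonneg _)
    _ = 2 ^ (Q.natDegree + R.natDegree) * ((Q.map (Int.castRingHom ℂ)).mahlerMeasure *
        (R.map (Int.castRingHom ℂ)).mahlerMeasure) := by ring
    _ ≤ 2 ^ n * ((n + 1) * hgt (Q * R)) := by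
        apply mul_le_mul _ h1 _ (by positivity)
        · exact pow_le_pow_right₀ (by norm_num) hdeg
        · exact mul_nonneg (mahlerMeasure_nonneg _) (mahlerMeasure_nonneg _)

/-- an irreducible polynomial divides every primitive polynomial with the same root -/
theorem dvd_of_root (Q P : ℤ[X]) (α : ℝ) (hQ : Irreducible Q)
    (h1 : aeval α Q = 0) (h2 : aeval α P = 0) : Q ∣ P := by
  have hdeg : Q.natDegree ≠ 0 := by
    intro h0
    obtain ⟨c, rfl⟩ := natDegree_eq_zero.1 h0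
    have h3 : ((c : ℤ) : ℝ) = 0 := by simpa using h1
    have h4 : c = 0 := by exact_mod_cast h3
    subst h4
    simp at hQ
  have hQp : Q.IsPrimitive := hQ.isPrimitive hdeg
  have hQi : Irreducible (Q.map (Int.castRingHom ℚ)) :=
    (IsPrimitive.Int.irreducible_iff_irreducible_map_cast hQp).1 hQ
  have h3 : aeval α (Q.map (Int.castRingHom ℚ)) = 0 := by
    rw [← h1]
    exact aeval_map_algebraMap ℚ α Q
  have h4 : aeval α (P.map (Int.castRingHom ℚ)) = 0 := by
    rw [← h2]
    exact aeval_map_algebraMap ℚ α P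
  have h5 := minpoly.eq_of_irreducible hQi h3
  have h6 : minpoly ℚ α ∣ P.map (Int.castRingHom ℚ) := minpoly.dvd ℚ α h4
  rw [← h5] at h6
  exact (IsPrimitive.Int.dvd_iff_map_cast_dvd_map_cast Q P hQp).2 (dvd_of_mul_right_dvd h6)

/-- a root of a polynomial is a root of an irreducible factor -/
theorem exists_irr_factor (P : ℤ[X]) (hP : P ≠ 0) (α : ℝ) (h : aeval α P = 0) :
    ∃ Q : ℤ[X], Irreducible Q ∧ Q ∣ P ∧ aeval α Q = 0 := by
  obtain ⟨f, hf, hfP⟩ := WfDvdMonoid.exists_factors P hP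
  have h1 : aeval α f.prod = 0 := by
    obtain ⟨u, hu⟩ := hfP
    rw [← hu, map_mul] at h
    rcases mul_eq_zero.1 h with h2 | h2
    · exact h2
    · exfalso
      have h3 : IsUnit (aeval α (u : ℤ[X])) := u.isUnit.map (aeval α : ℤ[X] →ₐ[ℤ] ℝ)
      rw [h2] at h3
      exact not_isUnit_zero h3
  rw [map_multiset_prod, Multiset.prod_eq_zero_iff, Multiset.mem_map] at h1
  obtain ⟨Q, hQ, hQ0⟩ := h1
  exact ⟨Q, hf Q hQ, (Multiset.dvd_prod hQ).trans hfP.dvd, hQ0⟩

/-- Dirichlet's box principle with individual bounds for the coefficients -/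
theorem dirich (n : ℕ) (ξ : ℝ) (m : Fin n → ℕ) (M : ℕ) (hM : 0 < M) (hm : M < ∏ i, (m i + 1)) :
    ∃ P : ℤ[X], P ≠ 0 ∧ P.natDegree ≤ n ∧ (∀ i : Fin n, |(P.coeff ((i : ℕ) + 1) : ℝ)| ≤ m i) ∧
      |aeval ξ P| ≤ 1 / M := by
  classical
  set s : (Fin n → ℕ) → ℝ := fun v => ∑ i : Fin n, (v i : ℝ) * ξ ^ ((i : ℕ) + 1) with hs
  set D := Fintype.piFinset (fun i : Fin n => range (m i + 1)) with hD
  have hcard : D.card = ∏ i, (m i + 1) := by simp [hD]
  have hM0 : (0 : ℝ) < M := by exact_mod_cast hM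
  have hmaps : ∀ v ∈ D, ⌊(M : ℝ) * Int.fract (s v)⌋₊ ∈ range M := by
    intro v _
    rw [mem_range, Nat.floor_lt (mul_nonneg hM0.le (Int.fract_nonneg _))]
    calc (M : ℝ) * Int.fract (s v) < M * 1 := mul_lt_mul_of_pos_left (Int.fract_lt_one _) hM0
      _ = M := mul_one _
  obtain ⟨v, hv, v', hv', hne, heq⟩ := exists_ne_map_eq_of_card_lt_of_maps_to
    (s := D) (t := range M) (by rw [hcard, card_range]; exact hm) hmaps
  set c : ℤ := -(⌊s v⌋ - ⌊s v'⌋) with hc
  set P : ℤ[X] := C c + ∑ i : Fin n, monomial ((i : ℕ) + 1) ((v i : ℤ) - v' i) with hPdef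
  have hcoeff : ∀ j : Fin n, P.coeff ((j : ℕ) + 1) = (v j : ℤ) - v' j := by
    intro j
    rw [hPdef, coeff_add, coeff_C, if_neg (by omega), zero_add, finsetSum_coeff]
    rw [Finset.sum_eq_single j]
    · rw [coeff_monomial, if_pos rfl]
    · intro i _ hij
      rw [coeff_monomial, if_neg]
      intro h
      exact hij (Fin.ext (by omega))
    · intro h
      exact absurd (mem_univ j) h
  have hval : aeval ξ P = Int.fract (s v) - Int.fract (s v') := by
    rw [hPdef, map_add, map_sum, aeval_C]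
    have h1 : ∑ i : Fin n, aeval ξ (monomial ((i : ℕ) + 1) ((v i : ℤ) - v' i)) = s v - s v' := by
      rw [hs]
      simp only
      rw [← Finset.sum_sub_distrib]
      refine Finset.sum_congr rfl fun i _ => ?_
      rw [aeval_monomial]
      simp only [algebraMap_int_eq, eq_intCast, Int.cast_sub, Int.cast_natCast]
      ring
    rw [h1, hc]
    simp only [algebraMap_int_eq, eq_intCast, Int.cast_neg, Int.cast_sub]
    have h2 := Int.self_sub_floor (s v)
    have h3 := Int.self_sub_floor (s v')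
    linarith
  refine ⟨P, ?_, ?_, ?_, ?_⟩
  · intro h0
    apply hne
    funext j
    have h1 := hcoeff j
    rw [h0, coeff_zero] at h1
    omega
  · rw [hPdef]
    refine (natDegree_add_le _ _).trans (max_le (by rw [natDegree_C]; omega) ?_)
    refine natDegree_sum_le_of_forall_le _ _ fun i _ => ?_
    refine (natDegree_monomial_le _).trans ?_
    have := i.2
    omega
  · intro j
    rw [hcoeff j]
    have h1 : v j < m j + 1 := mem_range.1 (Fintype.mem_piFinset.1 hv j)
    have h2 : v' j < m j + 1 := mem_range.1 (Fintype.mem_piFinset.1 hv' j)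
    have h3 : (v j : ℝ) ≤ m j := by exact_mod_cast (by omega : v j ≤ m j)
    have h4 : (v' j : ℝ) ≤ m j := by exact_mod_cast (by omega : v' j ≤ m j)
    push_cast
    rw [abs_le]
    constructor
    · linarith [(Nat.cast_nonneg (v j) : (0 : ℝ) ≤ v j)]
    · linarith [(Nat.cast_nonneg (v' j) : (0 : ℝ) ≤ v' j)]
  · rw [hval]
    have h1 := Nat.floor_le (mul_nonneg hM0.le (Int.fract_nonneg (s v)))
    have h2 := Nat.lt_floor_add_one ((M : ℝ) * Int.fract (s v))
    have h3 := Nat.floor_le (mul_nonneg hM0.le (Int.fract_nonneg (s v')))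
    have h4 := Nat.lt_floor_add_one ((M : ℝ) * Int.fract (s v'))
    have heq' : (⌊(M : ℝ) * Int.fract (s v)⌋₊ : ℝ) = ⌊(M : ℝ) * Int.fract (s v')⌋₊ := by
      exact_mod_cast heq
    rw [heq'] at h1 h2
    rw [abs_le, le_div_iff₀ hM0, neg_le, neg_sub, le_div_iff₀ hM0]
    constructor
    · nlinarith
    · nlinarith

end Pool.Agent.Y627.SP
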