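import Mathlib
import Pool.Agent.Y627.SP.UnifA

/-! Uniform exponents: upper bound from good rational approximations. -/

set_option autoImplicit false

open Polynomial Finset

namespace Pool.Agent.Y627.SP

open Pool.Agent.W71 Pool.Agent.TH970.SE

theorem coeff_le_hgt_real (P : ℤ[X]) (i : ℕ) : |(P.coeff i : ℝ)| ≤ hgt P := by
  have h1 := coeff_le_hgt P i
  have h2 : ((P.coeff i).natAbs : ℝ) ≤ hgt P := by exact_mod_cast h1
  rwa [Nat.cast_natAbs, Int.cast_abs] at h2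

/-- the value of a polynomial at a rational point which is a root of a linear polynomial -/
theorem val_rat (n : ℕ) (Q P : ℤ[X]) (hQ : Q.natDegree ≤ n) (hP : P.natDegree = 1) (α : ℝ)
    (hα : aeval α P = 0) (hQα : aeval α Q ≠ 0) : 1 ≤ (hgt P : ℝ) ^ n * |aeval α Q| := by
  set a := P.coeff 1 with ha
  have ha0 : a ≠ 0 := by
    have : P.leadingCoeff ≠ 0 := leadingCoeff_ne_zero.2 (by rintro rfl; simp at hP)
    rwa [leadingCoeff, hP] at this
  have hPx : aeval α P = a * α + P.coeff 0 := by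
    rw [aeval_eq_sum_range' (by omega : P.natDegree < 2)]
    simp [Finset.sum_range_succ, ha]
    ring
  have haR : (a : ℝ) ≠ 0 := by exact_mod_cast ha0
  have hαe : α = -(P.coeff 0 : ℝ) / a := by
    rw [hPx] at hα
    field_simp
    linarith
  -- choose the denominator positive
  obtain ⟨p, q, hq, hqa, hαpq⟩ : ∃ p q : ℤ, 0 < q ∧ (q : ℝ) ≤ |(a : ℝ)| ∧ α = (p : ℝ) / q := by
    rcases lt_or_gt_of_ne ha0 with h | h
    · refine ⟨P.coeff 0, -a, by omega, ?_, ?_⟩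
      · push_cast; exact neg_le_abs _
      · rw [hαe]; push_cast; rw [div_neg, neg_div]
    · refine ⟨-P.coeff 0, a, h, le_abs_self _, ?_⟩
      rw [hαe]; push_cast; ring
  have hval : aeval α Q = eval ((p : ℝ) / q) (Q.map (algebraMap ℤ ℝ)) := by
    rw [← hαpq, eval_map_algebraMap]
  have h1 := one_le_pow_mul_abs_eval_div (K := ℝ) (f := Q) (a := p) (b := q) hq (by
    rw [← hval]; exact hQα)
  rw [← hval] at h1
  have hq1 : (1 : ℝ) ≤ q := by exact_mod_cast hq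
  have hqh : (q : ℝ) ≤ hgt P := hqa.trans (coeff_le_hgt_real P 1)
  refine h1.trans (mul_le_mul_of_nonneg_right ?_ (abs_nonneg _))
  exact (pow_le_pow_right₀ hq1 hQ).trans (pow_le_pow_left₀ (by linarith) hqh n)

theorem unif_upper (n : ℕ) (hn : 1 ≤ n) (ξ w r : ℝ) (hw : (n : ℝ) ≤ w) (hr : 0 < r)
    (hwr : w < r * (w - n + 1))
    (hξ : ∀ P : ℤ[X], P ≠ 0 → aeval ξ P ≠ 0)
    (hfin : ∀ v : ℝ, w < v → {P : ℤ[X] | P ≠ 0 ∧ P.natDegree ≤ n ∧
      |aeval ξ P| ≤ ((Ht n P : ℕ) : ℝ) ^ (-v)}.Finite)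
    (hinf : {α : ℝ | ∃ P : ℤ[X], MinPolyZ P α ∧ P.natDegree = 1 ∧
      |ξ - α| < (hgt P : ℝ) ^ (-(1 + w))}.Infinite) (X₀ : ℝ) :
    ∃ X : ℝ, X₀ ≤ X ∧ ∀ (α : ℝ) (Q : ℤ[X]), Irreducible Q → Q.natDegree ≤ n → aeval α Q = 0 →
      (hgt Q : ℝ) ≤ X → (hgt Q : ℝ)⁻¹ * X ^ (-r) < |ξ - α| := by
  have hnR : (1 : ℝ) ≤ n := by exact_mod_cast hn
  set g : ℝ := w - n + 1 with hg
  have hg1 : 1 ≤ g := by rw [hg]; linarith
  set v : ℝ := (w + r * g) / 2 with hv
  have hvw : w < v := by rw [hv]; linarith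
  have hvr : v < r * g := by rw [hv]; linarith
  have hv0 : 0 < v := by linarith
  set A : ℝ := |ξ| + 1 with hA
  have hA1 : 1 ≤ A := by rw [hA]; linarith [abs_nonneg ξ]
  set D : ℝ := ((n : ℝ) + 1) ^ 2 * A ^ n with hD
  have hD1 : 1 ≤ D := by
    have h1 : (1 : ℝ) ≤ ((n : ℝ) + 1) ^ 2 := one_le_pow₀ (by linarith)
    have h2 : (1 : ℝ) ≤ A ^ n := one_le_pow₀ hA1
    rw [hD]; nlinarith
  obtain ⟨Z₀, hZ₀⟩ := upper (n := n) ξ v hv0 hξ (hfin v hvw)
  set κ : ℝ := 1 / (2 * D) with hκ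
  have hκ0 : 0 < κ := by rw [hκ]; positivity
  -- conditions on the height
  set E : ℝ := D * κ ^ (-r) with hE
  have hE0 : 0 < E := by rw [hE]; positivity
  have hev : ∀ᶠ H : ℝ in Filter.atTop, 1 ≤ H ∧ Z₀ ≤ H ∧ X₀ ≤ κ * H ^ g ∧ 1 ≤ κ * H ^ g ∧
      2 * E < H ^ (r * g - n) ∧ 4 ^ v * E < H ^ (r * g - v) := by
    have t1 : Filter.Tendsto (fun H : ℝ => κ * H ^ g) Filter.atTop Filter.atTop :=
      (tendsto_rpow_atTop (by linarith)).const_mul_atTop hκ0
    have t2 : Filter.Tendsto (fun H : ℝ => H ^ (r * g - n)) Filter.atTop Filter.atTop :=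
      tendsto_rpow_atTop (by linarith)
    have t3 : Filter.Tendsto (fun H : ℝ => H ^ (r * g - v)) Filter.atTop Filter.atTop :=
      tendsto_rpow_atTop (by linarith)
    filter_upwards [Filter.eventually_ge_atTop (1 : ℝ), Filter.eventually_ge_atTop Z₀,
      t1.eventually_ge_atTop X₀, t1.eventually_ge_atTop 1, t2.eventually_gt_atTop _,
      t3.eventually_gt_atTop _] with H h1 h2 h3 h4 h5 h6
    exact ⟨h1, h2, h3, h4, h5, h6⟩
  obtain ⟨H₀, hH₀⟩ := Filter.eventually_atTop.1 hev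
  obtain ⟨α0, P, h1, h2, h3, ⟨h4, h5, h6⟩, h7⟩ := exists_big (n := 1) _
    (fun P α => MinPolyZ P α ∧ P.natDegree = 1 ∧ |ξ - α| < (hgt P : ℝ) ^ (-(1 + w)))
    hinf
    (by
      rintro α ⟨P, h1, h2, h3⟩
      refine ⟨P, ?_, h2.le, h1.2.2.2.1, h1, h2, h3⟩
      rintro rfl
      have := h1.2.1
      simp at this) H₀
  obtain ⟨g1, g2, g3, g4, g5, g6⟩ := hH₀ _ h7.le
  set H : ℝ := (hgt P : ℝ) with hH
  have hH0 : 0 < H := by linarith
  set X : ℝ := κ * H ^ g with hX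
  have hX0 : 0 < X := by linarith
  refine ⟨X, g3, fun α Q hQ hQn hQα hQX => ?_⟩
  by_contra hcon
  push Not at hcon
  have hQ0 : Q ≠ 0 := hQ.ne_zero
  have hq1 : (1 : ℝ) ≤ hgt Q := by exact_mod_cast hgt_pos hQ0
  have hq0 : (0 : ℝ) < hgt Q := by linarith
  have hXr : X ^ (-r) ≤ 1 := Real.rpow_le_one_of_one_le_of_nonpos g4 (by linarith)
  have hXr0 : 0 < X ^ (-r) := by positivity
  have hd1 : |ξ - α| ≤ 1 := by
    refine hcon.trans ?_
    calc (hgt Q : ℝ)⁻¹ * X ^ (-r) ≤ 1 * 1 := by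
          apply mul_le_mul (inv_le_one_of_one_le₀ hq1) hXr hXr0.le zero_le_one
      _ = 1 := one_mul 1
  have hξA : |ξ| ≤ A := by rw [hA]; linarith
  have hαA : |α| ≤ A := by
    rw [hA]
    have := abs_sub_abs_le_abs_sub α ξ
    rw [abs_sub_comm] at this
    linarith
  -- the value of `Q` at `ξ` is small
  have hsmall : |aeval ξ Q| ≤ D * X ^ (-r) := by
    have e1 := val_diff n Q hQn (hgt Q) hq0.le (coeff_le_hgt_real Q) ξ α A hA1 hξA hαA
    rw [hQα, sub_zero] at e1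
    calc |aeval ξ Q| ≤ (hgt Q : ℝ) * D * |ξ - α| := e1
      _ ≤ (hgt Q : ℝ) * D * ((hgt Q : ℝ)⁻¹ * X ^ (-r)) := by gcongr
      _ = D * X ^ (-r) := by field_simp
  have hsmall2 : |aeval ξ Q| ≤ E * H ^ (-(r * g)) := by
    refine hsmall.trans (le_of_eq ?_)
    rw [hX, hE, Real.mul_rpow hκ0.le (by positivity), ← Real.rpow_mul hH0.le]
    have : g * -r = -(r * g) := by ring
    rw [this]; ring
  have hα0d : |ξ - α0| ≤ 1 := by
    refine h6.le.trans ?_
    exact Real.rpow_le_one_of_one_le_of_nonpos g1 (by linarith)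
  have hα0A : |α0| ≤ A := by
    rw [hA]
    have := abs_sub_abs_le_abs_sub α0 ξ
    rw [abs_sub_comm] at this
    linarith
  by_cases hc : aeval α0 Q = 0
  · -- `Q` divides `P`
    obtain ⟨R, hR⟩ := dvd_of_root Q P α0 hQ hc h3
    have e1 := gelfond 1 Q R (by rw [← hR, h5]) (by rw [← hR]; exact h1)
    rw [← hR, ← hH] at e1
    have e2 : (hgt Q : ℝ) ≤ 4 * H := by
      refine e1.trans (le_of_eq ?_)
      norm_num
      ring
    have e3 := hZ₀ (4 * H) (by linarith) (by linarith) Q hQ0 hQn e2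
    have e4 : (4 * H) ^ (-v) = 4 ^ (-v) * H ^ (-v) := Real.mul_rpow (by norm_num) hH0.le
    rw [e4] at e3
    have e5 : (4 : ℝ) ^ (-v) * H ^ (-v) < E * H ^ (-(r * g)) := e3.trans_le hsmall2
    have e6 : H ^ (r * g - v) < 4 ^ v * E := by
      have p1 : (0 : ℝ) < 4 ^ v := by positivity
      have p2 : (0 : ℝ) < H ^ (r * g) := by positivity
      have q1 : (4 : ℝ) ^ v * 4 ^ (-v) = 1 := by rw [← Real.rpow_add (by norm_num)]; simp
      have q2 : H ^ (r * g) * H ^ (-v) = H ^ (r * g - v) := by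
        rw [← Real.rpow_add hH0]; ring_nf
      have q3 : H ^ (r * g) * H ^ (-(r * g)) = 1 := by rw [← Real.rpow_add hH0]; simp
      calc H ^ (r * g - v) = (4 ^ v * H ^ (r * g)) * (4 ^ (-v) * H ^ (-v)) := by
            rw [← q2]
            calc H ^ (r * g) * H ^ (-v) = ((4 : ℝ) ^ v * 4 ^ (-v)) * (H ^ (r * g) * H ^ (-v)) := by
                  rw [q1, one_mul]
              _ = _ := by ring
        _ < (4 ^ v * H ^ (r * g)) * (E * H ^ (-(r * g))) :=
            mul_lt_mul_of_pos_left e5 (by positivity)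
        _ = 4 ^ v * E * (H ^ (r * g) * H ^ (-(r * g))) := by ring
        _ = 4 ^ v * E := by rw [q3, mul_one]
    linarith
  · -- `Q` is not small at `α0`
    have e1 := val_rat n Q P hQn h5 α0 h3 hc
    rw [← hH] at e1
    have hHn0 : 0 < H ^ n := by positivity
    have e2 := val_diff n Q hQn (hgt Q) hq0.le (coeff_le_hgt_real Q) α0 ξ A hA1 hα0A hξA
    have e3 : |aeval α0 Q - aeval ξ Q| ≤ X * D * H ^ (-(1 + w)) := by
      refine e2.trans ?_
      rw [abs_sub_comm α0 ξ]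
      gcongr
    have e4 : X * D * H ^ (-(1 + w)) * H ^ n = 1 / 2 := by
      have q1 : H ^ g * H ^ (-(1 + w)) * H ^ n = 1 := by
        rw [← Real.rpow_natCast, ← Real.rpow_add hH0, ← Real.rpow_add hH0]
        have : g + -(1 + w) + (n : ℝ) = 0 := by rw [hg]; ring
        rw [this, Real.rpow_zero]
      have hD0 : D ≠ 0 := by linarith
      calc X * D * H ^ (-(1 + w)) * H ^ n = (κ * D) * (H ^ g * H ^ (-(1 + w)) * H ^ n) := by
            rw [hX]; ring
        _ = κ * D := by rw [q1, mul_one]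
        _ = 1 / 2 := by rw [hκ]; field_simp
    have e5 : 1 / 2 ≤ H ^ n * |aeval ξ Q| := by
      have t1 : |aeval α0 Q| ≤ |aeval ξ Q| + X * D * H ^ (-(1 + w)) := by
        have := abs_sub_abs_le_abs_sub (aeval α0 Q) (aeval ξ Q)
        linarith
      have t2 := mul_le_mul_of_nonneg_left t1 hHn0.le
      have t3 : H ^ n * (X * D * H ^ (-(1 + w))) = 1 / 2 := by rw [← e4]; ring
      rw [mul_add, t3] at t2
      linarith
    have e6 : H ^ (r * g - n) ≤ 2 * E := by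
      have p2 : (0 : ℝ) < H ^ (r * g - n) := by positivity
      have q2 : H ^ (r * g - n) * (H ^ n * H ^ (-(r * g))) = 1 := by
        rw [← Real.rpow_natCast, ← Real.rpow_add hH0, ← Real.rpow_add hH0]
        have : r * g - n + ((n : ℝ) + -(r * g)) = 0 := by ring
        rw [this, Real.rpow_zero]
      have t4 : 1 / 2 ≤ E * (H ^ n * H ^ (-(r * g))) := by
        refine e5.trans ?_
        calc H ^ n * |aeval ξ Q| ≤ H ^ n * (E * H ^ (-(r * g))) := by gcongr
          _ = _ := by ring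
      have t5 := mul_le_mul_of_nonneg_left t4 p2.le
      have t6 : H ^ (r * g - n) * (E * (H ^ n * H ^ (-(r * g)))) = E := by
        calc _ = E * (H ^ (r * g - n) * (H ^ n * H ^ (-(r * g)))) := by ring
          _ = E := by rw [q2, mul_one]
      rw [t6] at t5
      linarith
    linarith

end Pool.Agent.Y627.SP
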