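import Mathlib
import Pool.Agent.Y627.SP.UnifB

/-! Uniform exponents: lower bound. -/

set_option autoImplicit false

open Polynomial Finset

namespace Pool.Agent.Y627.SP

open Pool.Agent.W71 Pool.Agent.TH970.SE

/-- differences of the values of a polynomial: the constant term does not matter -/
theorem val_diff0 (n : ℕ) (P : ℤ[X]) (hP : P.natDegree ≤ n) (H : ℝ) (hH : 0 ≤ H)
    (hc : ∀ i, 1 ≤ i → |(P.coeff i : ℝ)| ≤ H) (x y A : ℝ) (hA : 1 ≤ A) (hx : |x| ≤ A)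
    (hy : |y| ≤ A) :
    |aeval x P - aeval y P| ≤ H * (((n : ℝ) + 1) ^ 2 * A ^ n) * |x - y| := by
  have hsub : (range (n + 1)).filter (fun i => 1 ≤ i) ⊆ range (n + 1) := filter_subset _ _
  have := sumdiff n _ hsub (fun i => (P.coeff i : ℝ)) H hH
    (fun i hi => hc i (mem_filter.1 hi).2) x y A hA hx hy
  refine le_of_eq_of_le ?_ this
  congr 1
  rw [aeval_eq_sum_range' (by omega : P.natDegree < n + 1), aeval_eq_sum_range' (by omega : P.natDegree < n + 1),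
    ← sum_sub_distrib]
  rw [← sum_filter_add_sum_filter_not (range (n + 1)) (fun i => 1 ≤ i)]
  have h1 : ∑ i ∈ (range (n + 1)).filter (fun i => ¬ 1 ≤ i),
      (P.coeff i • x ^ i - P.coeff i • y ^ i) = 0 := by
    have h2 : (range (n + 1)).filter (fun i => ¬ 1 ≤ i) = {0} := by
      ext i
      simp only [mem_filter, mem_range, mem_singleton]
      omega
    rw [h2, sum_singleton]
    simp
  rw [h1, add_zero]
  refine sum_congr rfl fun i _ => ?_
  simp only [zsmul_eq_mul]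
  ring

/-- the height in terms of the other coefficients -/
theorem hgt_le_of_coeff (n : ℕ) (P : ℤ[X]) (hP : P.natDegree ≤ n) (H : ℝ) (hH : 1 ≤ H)
    (hc : ∀ i, 1 ≤ i → |(P.coeff i : ℝ)| ≤ H) (ξ A : ℝ) (hA : 1 ≤ A) (hξ : |ξ| ≤ A)
    (hv : |aeval ξ P| ≤ 1) :
    (hgt P : ℝ) ≤ (1 + ((n : ℝ) + 1) ^ 2 * A ^ n * A) * H := by
  have hD : 0 ≤ ((n : ℝ) + 1) ^ 2 * A ^ n := by positivity
  apply hgt_le_real _ (by positivity)
  intro i
  rcases Nat.eq_zero_or_pos i with rfl | hi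
  · have h1 := val_diff0 n P hP H (by linarith) hc ξ 0 A hA hξ (by simp; linarith)
    rw [← coeff_zero_eq_aeval_zero', sub_zero] at h1
    simp only [algebraMap_int_eq, eq_intCast] at h1
    have h2 : |((P.coeff 0 : ℤ) : ℝ)| ≤ |aeval ξ P| + |aeval ξ P - ((P.coeff 0 : ℤ) : ℝ)| := by
      have := abs_sub_abs_le_abs_sub ((P.coeff 0 : ℤ) : ℝ) (aeval ξ P)
      rw [abs_sub_comm] at this
      linarith
    have h3 : H * (((n : ℝ) + 1) ^ 2 * A ^ n) * |ξ| ≤ H * (((n : ℝ) + 1) ^ 2 * A ^ n) * A := by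
      gcongr
    nlinarith
  · refine (hc i hi).trans ?_
    have : (0 : ℝ) ≤ ((n : ℝ) + 1) ^ 2 * A ^ n * A := by positivity
    nlinarith

theorem root_near (n : ℕ) (hn : 1 ≤ n) (P : ℤ[X]) (hP : P.natDegree ≤ n) (H : ℝ) (hH : 0 ≤ H)
    (hc : ∀ i, 2 ≤ i → |(P.coeff i : ℝ)| ≤ H) (ξ A : ℝ) (hA : A = |ξ| + 1)
    (h1 : 2 * (((n : ℝ) + 1) ^ 2 * A ^ n) * H ≤ |(P.coeff 1 : ℝ)|) (h0 : 0 < |(P.coeff 1 : ℝ)|)
    (hv : 2 * |aeval ξ P| ≤ |(P.coeff 1 : ℝ)|) :
    ∃ α : ℝ, aeval α P = 0 ∧ |ξ - α| ≤ 2 * |aeval ξ P| / |(P.coeff 1 : ℝ)| := by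
  set a := |(P.coeff 1 : ℝ)| with ha
  set ρ := 2 * |aeval ξ P| / a with hρ
  have hρ0 : 0 ≤ ρ := by rw [hρ]; positivity
  have hρ1 : ρ ≤ 1 := by rw [hρ, div_le_one h0]; exact hv
  have hA1 : 1 ≤ A := by rw [hA]; linarith [abs_nonneg ξ]
  have hρa : a * ρ = 2 * |aeval ξ P| := by rw [hρ]; field_simp
  have key : ∀ x : ℝ, |x - ξ| ≤ ρ →
      |aeval x P - aeval ξ P - P.coeff 1 * (x - ξ)| ≤ a / 2 * |x - ξ| := by
    intro x hx
    have hxA : |x| ≤ A := by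
      rw [hA]
      have := abs_sub_abs_le_abs_sub x ξ
      linarith
    refine (val_diff_lin n P hP hn H hH hc x ξ A hA1 hxA (by rw [hA]; linarith)).trans ?_
    refine mul_le_mul_of_nonneg_right ?_ (abs_nonneg _)
    linarith
  have k1 := key (ξ + ρ) (by rw [add_sub_cancel_left, abs_of_nonneg hρ0])
  have k2 := key (ξ - ρ) (by rw [sub_sub_cancel_left, abs_neg, abs_of_nonneg hρ0])
  rw [add_sub_cancel_left, abs_of_nonneg hρ0, abs_le] at k1
  rw [sub_sub_cancel_left, abs_neg, abs_of_nonneg hρ0, abs_le] at k2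
  have hle : ξ - ρ ≤ ξ + ρ := by linarith
  have hcont : Continuous fun x : ℝ => aeval x P := P.continuous_aeval
  have hab := abs_le.1 (le_refl |aeval ξ P|)
  rcases le_total 0 (P.coeff 1 : ℝ) with hs | hs
  · have has : (P.coeff 1 : ℝ) = a := (abs_of_nonneg hs).symm
    rw [has] at k1 k2
    have m1 : 0 ≤ aeval (ξ + ρ) P := by nlinarith [k1.1, hab.1]
    have m2 : aeval (ξ - ρ) P ≤ 0 := by nlinarith [k2.2, hab.2]
    obtain ⟨α, hα, hα0⟩ := intermediate_value_Icc hle hcont.continuousOn ⟨m2, m1⟩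
    refine ⟨α, hα0, ?_⟩
    rw [abs_le]
    constructor <;> linarith [hα.1, hα.2]
  · have has : (P.coeff 1 : ℝ) = -a := by rw [ha, abs_of_nonpos hs]; ring
    rw [has] at k1 k2
    have m1 : aeval (ξ + ρ) P ≤ 0 := by nlinarith [k1.2, hab.2]
    have m2 : 0 ≤ aeval (ξ - ρ) P := by nlinarith [k2.1, hab.1]
    obtain ⟨α, hα, hα0⟩ := intermediate_value_Icc' hle hcont.continuousOn ⟨m1, m2⟩
    refine ⟨α, hα0, ?_⟩
    rw [abs_le]
    constructor <;> linarith [hα.1, hα.2]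

theorem unif_lower (k : ℕ) (ξ w r : ℝ) (hw : (k : ℝ) + 1 ≤ w) (hr : 0 < r)
    (hrw : r * (w - k) < w)
    (hξ : ∀ P : ℤ[X], P ≠ 0 → aeval ξ P ≠ 0)
    (hfin : ∀ v : ℝ, w < v → {P : ℤ[X] | P ≠ 0 ∧ P.natDegree ≤ k + 1 ∧
      |aeval ξ P| ≤ ((Ht (k + 1) P : ℕ) : ℝ) ^ (-v)}.Finite) :
    ∃ X₀ : ℝ, ∀ X : ℝ, X₀ ≤ X → ∃ (α : ℝ) (Q : ℤ[X]), Irreducible Q ∧ Q.natDegree ≤ k + 1 ∧
      aeval α Q = 0 ∧ (hgt Q : ℝ) ≤ X ∧ 0 < |ξ - α| ∧ |ξ - α| ≤ (hgt Q : ℝ)⁻¹ * X ^ (-r) := by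
  set n : ℕ := k + 1 with hn
  have hn1 : 1 ≤ n := by omega
  have hk0 : (0 : ℝ) ≤ k := Nat.cast_nonneg k
  set G : ℝ := w - r * (w - k) with hG
  have hG0 : 0 < G := by rw [hG]; linarith
  set ε : ℝ := G / (4 * (r + 1)) with hε
  have hε0 : 0 < ε := by rw [hε]; positivity
  set v : ℝ := w + ε with hv
  set W : ℝ := w + 2 * ε with hW
  set e : ℝ := W - k with he
  have he1 : 1 ≤ e := by rw [he, hW]; linarith
  have hv0 : 0 < v := by rw [hv]; linarith
  have hreW : r * e < W := by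
    have h1 : ε * (4 * (r + 1)) = G := by rw [hε]; field_simp
    have h2 : r * e = r * (w - k) + 2 * (ε * r) := by rw [he, hW]; ring
    have h1' : 4 * (ε * r) + 4 * ε = G := by rw [← h1]; ring
    rw [h2, hW]
    linarith
  set A : ℝ := |ξ| + 1 with hA
  have hA1 : 1 ≤ A := by rw [hA]; linarith [abs_nonneg ξ]
  have hξA : |ξ| ≤ A := by rw [hA]; linarith
  set D : ℝ := ((n : ℝ) + 1) ^ 2 * A ^ n with hD
  have hD1 : 1 ≤ D := by
    have h1 : (1 : ℝ) ≤ ((n : ℝ) + 1) ^ 2 := one_le_pow₀ (by linarith [(Nat.cast_nonneg n : (0 : ℝ) ≤ n)])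
    have h2 : (1 : ℝ) ≤ A ^ n := one_le_pow₀ hA1
    rw [hD]; exact one_le_mul_of_one_le_of_one_le h1 h2
  set F : ℝ := 1 + D * A with hF
  have hF1 : 1 ≤ F := by
    have h1 : 0 ≤ D * A := mul_nonneg (by linarith) (by linarith)
    rw [hF]; linarith
  set K : ℝ := 2 * D with hK
  have hK1 : 1 ≤ K := by rw [hK]; linarith
  set G₁ : ℝ := 2 ^ n * (n + 1) with hG₁
  have hG₁1 : 1 ≤ G₁ := by
    have h1 : (1 : ℝ) ≤ 2 ^ n := one_le_pow₀ (by norm_num)
    have h2 : (0 : ℝ) ≤ n := Nat.cast_nonneg n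
    rw [hG₁]; exact one_le_mul_of_one_le_of_one_le h1 (by linarith)
  set B : ℝ := G₁ * F with hB
  have hB1 : 1 ≤ B := by rw [hB]; exact one_le_mul_of_one_le_of_one_le hG₁1 hF1
  have hB0 : 0 < B := by linarith
  obtain ⟨Z₀, hZ₀⟩ := upper (n := n) ξ v hv0 hξ (hfin v (by rw [hv]; linarith))
  -- conditions on `h`
  have hev : ∀ᶠ h : ℝ in Filter.atTop, 2 ≤ h ∧ Z₀ ≤ h ∧
      2 * (F * K) ^ v ≤ h ^ (W - v) ∧ 4 * B * B ^ r ≤ h ^ (W - r * e) := by
    have t2 : Filter.Tendsto (fun H : ℝ => H ^ (W - v)) Filter.atTop Filter.atTop :=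
      tendsto_rpow_atTop (by rw [hW, hv]; linarith)
    have t3 : Filter.Tendsto (fun H : ℝ => H ^ (W - r * e)) Filter.atTop Filter.atTop :=
      tendsto_rpow_atTop (by linarith)
    filter_upwards [Filter.eventually_ge_atTop (2 : ℝ), Filter.eventually_ge_atTop Z₀,
      t2.eventually_ge_atTop _, t3.eventually_ge_atTop _] with h h1 h2 h3 h4
    exact ⟨h1, h2, h3, h4⟩
  obtain ⟨h₀', hh₀'⟩ := Filter.eventually_atTop.1 hev
  set h₀ : ℝ := max h₀' 1 with hh₀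
  refine ⟨B * h₀ ^ e, fun X hX => ?_⟩
  set Y : ℝ := X / B with hY
  have hYX : X = B * Y := by rw [hY]; field_simp
  have hYh : h₀ ^ e ≤ Y := by
    rw [hYX] at hX
    exact le_of_mul_le_mul_left hX hB0
  have hh₀1 : 1 ≤ h₀ := le_max_right _ _
  have hY0 : 0 < Y := lt_of_lt_of_le (by positivity) hYh
  set h : ℝ := Y ^ (1 / e) with hh
  have hhe : h ^ e = Y := by
    rw [hh, ← Real.rpow_mul hY0.le, one_div_mul_cancel (by linarith), Real.rpow_one]
  have hh0 : h₀ ≤ h := by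
    have h1 : (h₀ ^ e) ^ (1 / e) ≤ Y ^ (1 / e) :=
      Real.rpow_le_rpow (by positivity) hYh (by positivity)
    rwa [← Real.rpow_mul (by linarith), mul_one_div_cancel (by linarith), Real.rpow_one] at h1
  obtain ⟨g1, g2, g3, g4⟩ := hh₀' h ((le_max_left _ _).trans hh0)
  have hpos : 0 < h := by linarith
  have hhY : h ≤ Y := by
    rw [← hhe]
    nth_rw 1 [← Real.rpow_one h]
    exact Real.rpow_le_rpow_of_exponent_le (by linarith) he1
  -- the box principle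
  set m : Fin (k + 1) → ℕ := Fin.cons ⌊Y⌋₊ (fun _ => ⌊h⌋₊) with hm
  have hprod : ∏ i, (m i + 1) = (⌊Y⌋₊ + 1) * (⌊h⌋₊ + 1) ^ k := by
    rw [Fin.prod_univ_succ]
    simp [hm]
  have hfl1 : Y < (⌊Y⌋₊ : ℝ) + 1 := Nat.lt_floor_add_one Y
  have hfl2 : h < (⌊h⌋₊ : ℝ) + 1 := Nat.lt_floor_add_one h
  have hbig : Y * h ^ k ≤ ((∏ i, (m i + 1) : ℕ) : ℝ) := by
    rw [hprod]
    push_cast
    exact mul_le_mul hfl1.le (pow_le_pow_left₀ hpos.le hfl2.le k) (by positivity) (by positivity)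
  have hYk : Y * h ^ k = h ^ W := by
    rw [← hhe, ← Real.rpow_natCast, ← Real.rpow_add hpos]
    congr 1
    rw [he]; ring
  have hW1 : 1 ≤ W := by rw [hW]; linarith
  have hhW : 2 ≤ h ^ W := by
    calc (2 : ℝ) ≤ h ^ (1 : ℝ) := by rw [Real.rpow_one]; exact g1
      _ ≤ h ^ W := Real.rpow_le_rpow_of_exponent_le (by linarith) hW1
  set T₁ : ℕ := ∏ i, (m i + 1) with hT₁
  have hT₁2 : (2 : ℝ) ≤ T₁ := by rw [hYk] at hbig; linarith
  have hT₁2' : 2 ≤ T₁ := by exact_mod_cast hT₁2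
  obtain ⟨P, hP0, hPn, hPc, hPv⟩ := dirich (k + 1) ξ m (T₁ - 1) (by omega) (by omega)
  have hPv' : |aeval ξ P| ≤ 2 * h ^ (-W) := by
    refine hPv.trans ?_
    rw [Nat.cast_sub (by omega), Nat.cast_one]
    have h1 : (T₁ : ℝ) / 2 ≤ (T₁ : ℝ) - 1 := by linarith
    have h2 : 0 < h ^ W := by positivity
    calc 1 / ((T₁ : ℝ) - 1) ≤ 1 / ((T₁ : ℝ) / 2) := by
          apply one_div_le_one_div_of_le (by linarith) h1
      _ = 2 / (T₁ : ℝ) := by field_simp
      _ ≤ 2 / h ^ W := by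
          apply div_le_div_of_nonneg_left (by norm_num) h2
          rw [← hYk]; exact hbig
      _ = 2 * h ^ (-W) := by rw [Real.rpow_neg hpos.le]; ring
  have hsmall1 : 2 * h ^ (-W) ≤ 1 := by
    rw [Real.rpow_neg hpos.le, ← div_eq_mul_inv, div_le_one (by positivity)]
    exact hhW
  have hc1 : |(P.coeff 1 : ℝ)| ≤ Y := by
    have h1 := hPc 0
    simp only [Fin.val_zero, zero_add] at h1
    refine h1.trans ?_
    have h2 : m 0 = ⌊Y⌋₊ := by simp [hm]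
    rw [h2]
    exact Nat.floor_le hY0.le
  have hc2 : ∀ i, 2 ≤ i → |(P.coeff i : ℝ)| ≤ h := by
    intro i hi
    by_cases hik : i ≤ k + 1
    · obtain ⟨j, rfl⟩ : ∃ j, i = j + 2 := ⟨i - 2, by omega⟩
      have h1 := hPc (Fin.succ ⟨j, by omega⟩)
      simp only [Fin.val_succ] at h1
      refine h1.trans ?_
      have h2 : m (Fin.succ ⟨j, by omega⟩) = ⌊h⌋₊ := rfl
      rw [h2]
      exact Nat.floor_le hpos.le
    · rw [coeff_eq_zero_of_natDegree_lt (by omega)]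
      simpa using hpos.le
  -- the linear coefficient is large
  have hlarge : K * h < |(P.coeff 1 : ℝ)| := by
    by_contra hcon
    push Not at hcon
    have hKh : 1 ≤ K * h := one_le_mul_of_one_le_of_one_le hK1 (by linarith)
    have h1 : ∀ i, 1 ≤ i → |(P.coeff i : ℝ)| ≤ K * h := by
      intro i hi
      rcases Nat.lt_or_ge 1 i with h2 | h2
      · exact (hc2 i h2).trans (le_mul_of_one_le_left hpos.le hK1)
      · have : i = 1 := by omega
        subst this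
        exact hcon
    have h2 := hgt_le_of_coeff n P hPn (K * h) hKh h1 ξ A hA1 hξA (hPv'.trans hsmall1)
    rw [← hD, ← hF] at h2
    have h3 : F * (K * h) = (F * K) * h := by ring
    rw [h3] at h2
    have hFK : 1 ≤ F * K := one_le_mul_of_one_le_of_one_le hF1 hK1
    have h4 := hZ₀ ((F * K) * h) (g2.trans (le_mul_of_one_le_left hpos.le hFK))
      (one_le_mul_of_one_le_of_one_le hFK (by linarith)) P hP0 hPn h2
    rw [Real.mul_rpow (by positivity) hpos.le] at h4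
    have h5 : (F * K) ^ (-v) * h ^ (-v) < 2 * h ^ (-W) := h4.trans_le hPv'
    have p1 : (0 : ℝ) < (F * K) ^ v := by positivity
    have p2 : (0 : ℝ) < h ^ W := by positivity
    have q1 : (F * K) ^ v * (F * K) ^ (-v) = 1 := by
      rw [← Real.rpow_add (by positivity)]; simp
    have q2 : h ^ W * h ^ (-v) = h ^ (W - v) := by
      rw [← Real.rpow_add hpos]; ring_nf
    have q3 : h ^ W * h ^ (-W) = 1 := by rw [← Real.rpow_add hpos]; simp
    have h6 : h ^ (W - v) < 2 * (F * K) ^ v := by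
      calc h ^ (W - v) = ((F * K) ^ v * (F * K) ^ (-v)) * (h ^ W * h ^ (-v)) := by
            rw [q1, one_mul, q2]
        _ = ((F * K) ^ v * h ^ W) * ((F * K) ^ (-v) * h ^ (-v)) := by ring
        _ < ((F * K) ^ v * h ^ W) * (2 * h ^ (-W)) := mul_lt_mul_of_pos_left h5 (by positivity)
        _ = 2 * (F * K) ^ v * (h ^ W * h ^ (-W)) := by ring
        _ = 2 * (F * K) ^ v := by rw [q3, mul_one]
    linarith
  set a : ℝ := |(P.coeff 1 : ℝ)| with ha
  have ha0 : 0 < a := lt_of_le_of_lt (by positivity) hlarge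
  have hha : h ≤ a := (le_mul_of_one_le_left hpos.le hK1).trans hlarge.le
  have ha1 : 1 ≤ a := by linarith
  obtain ⟨α, hα0, hαd⟩ := root_near n hn1 P hPn h hpos.le hc2 ξ A hA
    (by rw [← hD]; rw [hK] at hlarge; exact hlarge.le) ha0 (by
      have : 2 * h ^ (-W) ≤ 1 := hsmall1
      have h2 : 2 * |aeval ξ P| ≤ 2 := by linarith [hPv']
      have h3 : (2 : ℝ) ≤ a := by linarith
      linarith)
  obtain ⟨Q, hQ, hQP, hQ0⟩ := exists_irr_factor P hP0 α hα0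
  obtain ⟨R, hR⟩ := hQP
  have hgel := gelfond n Q R (by rw [← hR]; exact hPn) (by rw [← hR]; exact hP0)
  rw [← hR] at hgel
  have hca : ∀ i, 1 ≤ i → |(P.coeff i : ℝ)| ≤ a := by
    intro i hi
    rcases Nat.lt_or_ge 1 i with h2 | h2
    · exact (hc2 i h2).trans hha
    · have : i = 1 := by omega
      subst this
      exact le_rfl
  have hPa : (hgt P : ℝ) ≤ F * a :=
    hgt_le_of_coeff n P hPn a ha1 hca ξ A hA1 hξA (hPv'.trans hsmall1)
  have hQa : (hgt Q : ℝ) ≤ B * a := by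
    calc (hgt Q : ℝ) ≤ 2 ^ n * ((n + 1) * hgt P) := hgel
      _ = G₁ * hgt P := by rw [hG₁]; ring
      _ ≤ G₁ * (F * a) := by gcongr
      _ = B * a := by rw [hB]; ring
  have hQ1 : (1 : ℝ) ≤ hgt Q := by exact_mod_cast hgt_pos hQ.ne_zero
  have hQpos : (0 : ℝ) < hgt Q := by linarith
  refine ⟨α, Q, hQ, ?_, hQ0, ?_, ?_, ?_⟩
  · have h1 : P.natDegree = Q.natDegree + R.natDegree := by
      rw [hR]
      exact natDegree_mul hQ.ne_zero (by rintro rfl; rw [mul_zero] at hR; exact hP0 hR)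
    omega
  · refine hQa.trans ?_
    rw [hYX]
    gcongr
  · rw [abs_pos, sub_ne_zero]
    rintro rfl
    exact hξ Q hQ.ne_zero hQ0
  · have h1 : |ξ - α| ≤ 4 * h ^ (-W) / a := by
      refine hαd.trans ?_
      apply div_le_div_of_nonneg_right _ ha0.le
      linarith [hPv']
    have h2 : (4 : ℝ) * h ^ (-W) / a ≤ 4 * B * h ^ (-W) * (hgt Q : ℝ)⁻¹ := by
      rw [← div_eq_mul_inv, div_le_div_iff₀ ha0 hQpos]
      have : 4 * h ^ (-W) * (hgt Q : ℝ) ≤ 4 * h ^ (-W) * (B * a) := by gcongr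
      linarith
    have h3 : 4 * B * h ^ (-W) ≤ X ^ (-r) := by
      have hX1 : X = B * h ^ e := by rw [hYX, hhe]
      rw [hX1, Real.mul_rpow hB0.le (by positivity), ← Real.rpow_mul hpos.le]
      have q4 : h ^ (W - r * e) * h ^ (-W) = h ^ (e * -r) := by
        rw [← Real.rpow_add hpos]; ring_nf
      have q5 : B ^ r * B ^ (-r) = 1 := by rw [← Real.rpow_add hB0]; simp
      calc 4 * B * h ^ (-W) = (4 * B * B ^ r) * h ^ (-W) * B ^ (-r) := by
            calc 4 * B * h ^ (-W) = 4 * B * h ^ (-W) * (B ^ r * B ^ (-r)) := by rw [q5, mul_one]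
              _ = _ := by ring
        _ ≤ h ^ (W - r * e) * h ^ (-W) * B ^ (-r) := by gcongr
        _ = B ^ (-r) * h ^ (e * -r) := by rw [q4]; ring
    calc |ξ - α| ≤ 4 * B * h ^ (-W) * (hgt Q : ℝ)⁻¹ := h1.trans h2
      _ ≤ X ^ (-r) * (hgt Q : ℝ)⁻¹ := by gcongr
      _ = (hgt Q : ℝ)⁻¹ * X ^ (-r) := mul_comm _ _

end Pool.Agent.Y627.SP
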