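import Mathlib
import Pool.Agent.Y627.SP.UnifC

/-! Uniform exponents: the trivial upper bound `ŵ_n^* ≤ w_n`. -/

set_option autoImplicit false

open Polynomial Finset

namespace Pool.Agent.Y627.SP

open Pool.Agent.W71 Pool.Agent.TH970.SE

theorem unif_upper_triv (n : ℕ) (ξ w r : ℝ) (hw : 0 ≤ w) (hwr : w < r)
    (hξ : ∀ P : ℤ[X], P ≠ 0 → aeval ξ P ≠ 0)
    (hfin : ∀ v : ℝ, w < v → {P : ℤ[X] | P ≠ 0 ∧ P.natDegree ≤ n ∧
      |aeval ξ P| ≤ ((Ht n P : ℕ) : ℝ) ^ (-v)}.Finite) (X₀ : ℝ) :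
    ∃ X : ℝ, X₀ ≤ X ∧ ∀ (α : ℝ) (Q : ℤ[X]), Irreducible Q → Q.natDegree ≤ n → aeval α Q = 0 →
      (hgt Q : ℝ) ≤ X → (hgt Q : ℝ)⁻¹ * X ^ (-r) < |ξ - α| := by
  set v : ℝ := (w + r) / 2 with hv
  have hvw : w < v := by rw [hv]; linarith
  have hvr : v < r := by rw [hv]; linarith
  have hv0 : 0 < v := by linarith
  set A : ℝ := |ξ| + 1 with hA
  have hA1 : 1 ≤ A := by rw [hA]; linarith [abs_nonneg ξ]
  set D : ℝ := ((n : ℝ) + 1) ^ 2 * A ^ n with hD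
  have hD0 : 0 < D := by rw [hD]; positivity
  obtain ⟨Z₀, hZ₀⟩ := upper (n := n) ξ v hv0 hξ (hfin v hvw)
  have hev : ∀ᶠ X : ℝ in Filter.atTop, 1 ≤ X ∧ Z₀ ≤ X ∧ X₀ ≤ X ∧ D ≤ X ^ (r - v) := by
    have t2 : Filter.Tendsto (fun H : ℝ => H ^ (r - v)) Filter.atTop Filter.atTop :=
      tendsto_rpow_atTop (by linarith)
    filter_upwards [Filter.eventually_ge_atTop (1 : ℝ), Filter.eventually_ge_atTop Z₀,
      Filter.eventually_ge_atTop X₀, t2.eventually_ge_atTop D] with H h1 h2 h3 h4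
    exact ⟨h1, h2, h3, h4⟩
  obtain ⟨X, g1, g2, g3, g4⟩ := hev.exists
  have hX0 : 0 < X := by linarith
  refine ⟨X, g3, fun α Q hQ hQn hQα hQX => ?_⟩
  by_contra hcon
  push Not at hcon
  have hQ0 : Q ≠ 0 := hQ.ne_zero
  have hq1 : (1 : ℝ) ≤ hgt Q := by exact_mod_cast hgt_pos hQ0
  have hq0 : (0 : ℝ) < hgt Q := by linarith
  have hXr : X ^ (-r) ≤ 1 := Real.rpow_le_one_of_one_le_of_nonpos g1 (by linarith)
  have hXr0 : 0 < X ^ (-r) := by positivity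
  have hd1 : |ξ - α| ≤ 1 := by
    refine hcon.trans ?_
    calc (hgt Q : ℝ)⁻¹ * X ^ (-r) ≤ 1 * 1 := by
          apply mul_le_mul (inv_le_one_of_one_le₀ hq1) hXr hXr0.le zero_le_one
      _ = 1 := one_mul 1
  have hξA : |ξ| ≤ A := by rw [hA]; linarith
  have hαA : |α| ≤ A := by
    rw [hA]
    have := abs_sub_abs_le_abs_sub α ξ
    rw [abs_sub_comm] at this
    linarith
  have hsmall : |aeval ξ Q| ≤ D * X ^ (-r) := by
    have e1 := val_diff n Q hQn (hgt Q) hq0.le (coeff_le_hgt_real Q) ξ α A hA1 hξA hαA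
    rw [hQα, sub_zero] at e1
    calc |aeval ξ Q| ≤ (hgt Q : ℝ) * D * |ξ - α| := e1
      _ ≤ (hgt Q : ℝ) * D * ((hgt Q : ℝ)⁻¹ * X ^ (-r)) := by gcongr
      _ = D * X ^ (-r) := by field_simp
  have h1 := hZ₀ X g2 g1 Q hQ0 hQn hQX
  have h2 : D * X ^ (-r) ≤ X ^ (-v) := by
    calc D * X ^ (-r) ≤ X ^ (r - v) * X ^ (-r) := by gcongr
      _ = X ^ (-v) := by rw [← Real.rpow_add hX0]; ring_nf
  linarith

end Pool.Agent.Y627.SP
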