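import Mathlib
import Pool.Agent.Y627.SP.All

/-! Prescribed exponents in all degrees at once, with an additional typical property. -/

set_option autoImplicit false

open Polynomial Set MeasureTheory

namespace Pool.Agent.Y627.SP

open Pool.Agent.W71

theorem all_deg_Y (Y : ℕ → ℕ → ℕ → ℝ → Prop)
    (hY : ∀ (q k : ℕ) (_ : q.Prime), (k + 2) * (k + 1) + 1 ≤ q → ∀ β e : ℝ, Typical q β e (Y q k))
    (hper : ∀ q k m ξ, Y q k m ξ → ∀ j : ℤ, Y q k m (j + ξ)) (av : ℕ → ℝ) (w : ℕ → ℝ) (hw1 : ∀ n : ℕ, 1 ≤ n → (n : ℝ) ≤ w n)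
    (hw2 : ∀ i j : ℕ, 1 ≤ i → i ≤ j → w i ≤ w j) : ∃ ξ : ℝ, (∀ k, ξ ≠ av k) ∧
    (∀ n : ℕ, 1 ≤ n → ∀ v : ℝ, w n < v → {P : ℤ[X] | P ≠ 0 ∧ P.natDegree ≤ n ∧
      |aeval ξ P| ≤ ((Ht n P : ℕ) : ℝ) ^ (-v)}.Finite) ∧
    (∀ n : ℕ, 1 ≤ n → ∀ v : ℝ, w n < v → {α : ℝ | ∃ P : ℤ[X], MinPolyZ P α ∧ P.natDegree ≤ n ∧
      |ξ - α| ≤ (hgt P : ℝ) ^ (-v - 1)}.Finite) ∧
    (∀ n : ℕ, 1 ≤ n → {α : ℝ | ∃ P : ℤ[X], MinPolyZ P α ∧ P.natDegree = n ∧
      |ξ - α| < (hgt P : ℝ) ^ (-(1 + w n))}.Infinite) ∧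
    ∃ (ℓ m : ℕ → ℕ) (ξ0 : ℕ → ℝ), (∀ k, (ℓ k).Prime) ∧ (∀ k, (k + 2) * (k + 1) + 1 ≤ ℓ k) ∧
      (∀ k, k ≤ m k) ∧ (∀ k, Y (ℓ k) k (m k) (ξ0 k)) ∧
      (∀ k, |ξ0 k - ξ| ≤ 1 / (ℓ (k + 1) : ℝ) ^ m (k + 1)) := by
  classical
  set sch : ℕ → ℕ := fun k => (Nat.unpair k).1 + 1 with hsch
  have hsch1 : ∀ k, 1 ≤ sch k := fun k => by simp only [hsch]; omega
  have hschinf : ∀ d, 1 ≤ d → ∀ k0, ∃ k, k0 ≤ k ∧ sch k = d := by
    intro d hd k0
    refine ⟨Nat.pair (d - 1) k0, Nat.right_le_pair _ _, ?_⟩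
    simp only [hsch, Nat.unpair_pair]
    omega
  set dk : ℕ → ℝ := fun k => 1 / ((k : ℝ) + 1) with hdk
  have hdk0 : ∀ k, 0 < dk k := fun k => by simp only [hdk]; positivity
  have hdk1 : ∀ k, dk k ≤ 1 := by
    intro k
    simp only [hdk]
    rw [div_le_one (by positivity)]
    linarith [(Nat.cast_nonneg k : (0 : ℝ) ≤ k)]
  have hdata := fun k => stage_data (sch k) (hsch1 k) (dk k) (hdk0 k)
  choose a be ha hirr hbe0 hbe hforms using hdata
  have hprime : ∀ k : ℕ, ∃ q : ℕ, (k + 2) * (k + 1) + 1 ≤ q ∧ q.Prime := fun k =>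
    Nat.exists_infinite_primes _
  choose ℓ hℓbig hℓ using hprime
  set ee : ℕ → ℝ := fun k => (sch k : ℝ) * (1 + w (sch k)) + dk k with hee
  set νp : ℕ → ℝ := fun n => max 0 (1 - ((n : ℝ) + 1) / (1 + w n)) with hνp
  have hνp0 : ∀ n, 0 ≤ νp n := fun n => le_max_left _ _
  set dl : ℕ → ℕ → ℝ := fun n k => ((n : ℝ) + 1) * dk k with hdl
  have hschR : ∀ k, (1 : ℝ) ≤ sch k := fun k => by exact_mod_cast hsch1 k
  have hee2 : ∀ k, 2 ≤ ee k := by
    intro k
    simp only [hee]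
    have h1 := hschR k
    have h2 := hw1 _ (hsch1 k)
    have h3 := (hdk0 k).le
    nlinarith
  -- the bound for the index of a stage
  set Bk : ℕ → ℝ := fun k => (k : ℝ) + be k + 3 with hBk
  have hBk1 : ∀ k, 1 ≤ Bk k := fun k => by
    have := hbe0 k
    have h0 : (0 : ℝ) ≤ k := Nat.cast_nonneg k
    simp only [hBk]; linarith
  have hidx := fun k => big_index (2 * (2 ^ (sch k) * (Bk k) ^ (sch k) + a k) ^ (1 + w (sch k)))
    (dk k) (hdk0 k)
  choose m1 hm1' using hidx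
  have hSk : ∀ k n, n ∈ Finset.Icc 1 (k + 1) → 1 ≤ n ∧ (n + 1) * n < ℓ k := by
    intro k n hn
    rw [Finset.mem_Icc] at hn
    refine ⟨hn.1, ?_⟩
    have h1 : (n + 1) * n ≤ (k + 2) * (k + 1) := Nat.mul_le_mul (by omega) hn.2
    have := hℓbig k
    omega
  obtain ⟨m, p, ξ, ξ0, -, hm1, hmM, hmk, hmem, hYk, hclose, hav, hflow⟩ := nested_grow
    (fun k => Finset.Icc 1 (k + 1))
    (by
      intro i j hij n hn
      rw [Finset.mem_Icc] at hn ⊢
      exact ⟨hn.1, by omega⟩)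
    ℓ hℓ (fun k n hn => hSk k n hn) be ee hee2 νp (fun n => n * νp n) hνp0
    (fun n => mul_nonneg (Nat.cast_nonneg _) (hνp0 n)) dl
    (fun n k => mul_nonneg (by positivity) (hdk0 k).le)
    (by
      intro n i j hij
      simp only [hdl, hdk]
      apply mul_le_mul_of_nonneg_left _ (by positivity)
      apply one_div_le_one_div_of_le (by positivity)
      have : (i : ℝ) ≤ j := by exact_mod_cast hij
      linarith)
    (by
      intro n
      have := (tendsto_one_div_add_atTop_nhds_zero_nat (𝕜 := ℝ)).const_mul ((n : ℝ) + 1)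
      rw [mul_zero] at this
      exact this)
    (by
      intro k n hn
      obtain ⟨hn1, hℓn⟩ := hSk k n hn
      have := hℓ k
      haveI : Fact (ℓ k).Prime := ⟨hℓ k⟩
      have hdkk := hdk0 k
      have hn0 : (1 : ℝ) ≤ n := by exact_mod_cast hn1
      have hWn := hw1 n hn1
      have hν1 : 1 - ((n : ℝ) + 1) / (1 + w n + dk k) ≤ νp n + dk k := by
        have e1 : ((n : ℝ) + 1) / (1 + w n) - ((n : ℝ) + 1) / (1 + w n + dk k) ≤ dk k := by
          rw [div_sub_div _ _ (by linarith) (by linarith), div_le_iff₀ (by nlinarith)]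
          have e3 : ((n : ℝ) + 1) * (1 + w n + dk k) - (1 + w n) * ((n : ℝ) + 1) =
              dk k * ((n : ℝ) + 1) := by ring
          rw [e3]
          apply mul_le_mul_of_nonneg_left _ hdkk.le
          nlinarith
        have e2 : 1 - ((n : ℝ) + 1) / (1 + w n) ≤ νp n := le_max_right _ _
        linarith
      have hc1 : 1 - ((n : ℝ) + 1) / (1 + w n + dk k) ≤ νp n + dl n k := by
        have : dk k ≤ dl n k := by simp only [hdl]; nlinarith
        linarith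
      have hc2 : n * (1 - ((n : ℝ) + 1) / (1 + w n + dk k)) ≤ n * νp n + dl n k := by
        calc n * (1 - ((n : ℝ) + 1) / (1 + w n + dk k)) ≤ n * (νp n + dk k) :=
              mul_le_mul_of_nonneg_left hν1 (by linarith)
          _ ≤ n * νp n + dl n k := by simp only [hdl]; nlinarith
      by_cases hcase : n + 1 < sch k
      · -- small degrees: the forms
        apply rich_of_forms hn1 hℓn (be k) (ee k) (dk k) _ _ hdkk.le _ _ (hforms k n hn1 (by omega))
        · have := hνp0 n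
          simp only [hdl]; linarith
        · have := mul_nonneg (by linarith : (0 : ℝ) ≤ n) (hνp0 n)
          simp only [hdl]; linarith
      · obtain ⟨N, hN⟩ : ∃ N, sch k = N + 1 := ⟨sch k - 1, by have := hsch1 k; omega⟩
        have hbd := betaDataG (hsch1 k) (a k) (ha k) (hirr k) (be k) (hbe0 k) (hbe k)
        have heeq : ee k = (sch k : ℝ) * (1 + w (sch k)) + dk k := rfl
        rw [heeq]
        have hschk := hschR k
        have hwk := hw1 _ (hsch1 k)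
        have key : ∀ D : ℕ, D = N + 1 → ∀ q : Fin (D + 1) → ℤ, BetaData D (be k) q →
            Rich n (ℓ k) (be k) ((D : ℝ) * (1 + w D) + dk k) (νp n + dl n k)
              (n * νp n + dl n k) := by
          rintro D rfl q hq
          have hwN := hw1 (N + 1) (by omega)
          have hN0 : (0 : ℝ) ≤ N := Nat.cast_nonneg N
          apply richG (N := N) hn1 (by omega) hℓn hq (1 + w n + dk k) _ _ _
            (by linarith) (by push_cast at hwN ⊢; nlinarith) _ hc1 hc2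
          by_cases hNn : N = n
          · exact Or.inr hNn
          · left
            have := hw2 (N + 1) n (by omega) (by omega)
            push_cast
            nlinarith
        exact key (sch k) hN _ hbd)
    (fun k => Y (ℓ k) k) (fun k => hY (ℓ k) k (hℓ k) (hℓbig k) (be k) (ee k))
    (fun k m ξ h j => hper (ℓ k) k m ξ h j)
    av (fun k _ => m1 (k + 1)) 0
  -- polynomial upper bounds
  have hup : ∀ n, 1 ≤ n → ∀ v : ℝ, w n < v → {P : ℤ[X] | P ≠ 0 ∧ P.natDegree ≤ n ∧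
      |aeval ξ P| ≤ ((Ht n P : ℕ) : ℝ) ^ (-v)}.Finite := by
    intro n hn v hv
    have hWn := hw1 n hn
    have hn0 : (1 : ℝ) ≤ n := by exact_mod_cast hn
    apply clause3 ξ (νp n) (w n) hWn _ _ v hv
    · have e1 : 1 - ((n : ℝ) + 1) / (1 + w n) = (w n - n) / (w n + 1) := by
        have : 1 + w n ≠ 0 := by linarith
        have : w n + 1 ≠ 0 := by linarith
        field_simp
        ring
      simp only [hνp]
      rw [e1, max_eq_right (div_nonneg (by linarith) (by linarith))]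
    · intro ε hε
      obtain ⟨T, hT⟩ := hflow n n (by simp only [Finset.mem_Icc]; omega) ε hε
      exact ⟨T, fun t ht => (hT t ht).1⟩
  refine ⟨ξ, hav, hup, ?_, ?_, ℓ, m, ξ0, hℓ, hℓbig, hmk, hYk, hclose⟩
  · intro n hn v hv
    have hWn := hw1 n hn
    have hn0 : (1 : ℝ) ≤ n := by exact_mod_cast hn
    exact fin_alg ξ (w n) (by linarith) (hup n hn) v hv
  -- lower bounds
  · intro d hd
    have hd0 : (1 : ℝ) ≤ d := by exact_mod_cast hd
    have hwd := hw1 d hd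
    have hw : 0 ≤ w d := by linarith
    apply inf_of_close _ ξ
    intro ε hε
    obtain ⟨k1, hk1⟩ := exists_nat_gt (max |ξ| (1 / ε))
    obtain ⟨k, hkk, hKk⟩ := hschinf d hd (k1 + 1)
    have hm := hmem k
    have hrad := rad_pos (ℓ k) (ee k) (m k)
    haveI : Fact (ℓ k).Prime := ⟨hℓ k⟩
    have hradle := rad_le (ℓ := ℓ k) (ee k) (hee2 k) (m k) (hm1 k)
    have hℓ2 : (2 : ℝ) ≤ ℓ k := by exact_mod_cast (hℓ k).two_le
    have hqpos : (0 : ℝ) < (ℓ k : ℝ) ^ m k := by positivity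
    have hq2 : (2 : ℝ) ^ k ≤ (ℓ k : ℝ) ^ m k :=
      (pow_le_pow_left₀ (by norm_num) hℓ2 _).trans (pow_le_pow_right₀ (by linarith) (hmk k))
    have hkpow : (k : ℝ) + 1 ≤ (2 : ℝ) ^ k := by
      have := (Nat.lt_pow_self (n := k) (by norm_num : 1 < 2))
      exact_mod_cast this
    have hk1R : (k1 : ℝ) + 1 ≤ k := by exact_mod_cast hkk
    have hk0R : (0 : ℝ) ≤ k := Nat.cast_nonneg k
    have hq1 : (1 : ℝ) ≤ (ℓ k : ℝ) ^ m k := by linarith
    have hd2 : 2 * rad (ℓ k) (ee k) (m k) ≤ 1 / (ℓ k : ℝ) ^ m k := by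
      have e1 : 1 / (2 * (ℓ k : ℝ) ^ m k) = (1 / (ℓ k : ℝ) ^ m k) / 2 := by field_simp
      rw [e1] at hradle
      linarith
    have hinv : 1 / (ℓ k : ℝ) ^ m k < ε := by
      rw [div_lt_iff₀ hqpos]
      have h3 : 1 / ε < k1 := lt_of_le_of_lt (le_max_right _ _) hk1
      rw [div_lt_iff₀ hε] at h3
      have h4 : (k1 : ℝ) ≤ (ℓ k : ℝ) ^ m k := by linarith
      nlinarith
    have hinv1 : 1 / (ℓ k : ℝ) ^ m k ≤ 1 := by rw [div_le_one hqpos]; exact hq1
    set α : ℝ := (p k : ℝ) / (ℓ k : ℝ) ^ (m k) + be k with hα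
    have hdiff : rad (ℓ k) (ee k) (m k) ≤ ξ - α ∧ ξ - α ≤ 2 * rad (ℓ k) (ee k) (m k) := by
      constructor
      · linarith [hm.1]
      · linarith [hm.2]
    have habs : |ξ - α| = ξ - α := abs_of_pos (by linarith [hdiff.1])
    have hξk : |ξ| < k := by
      have := lt_of_le_of_lt (le_max_left _ _) hk1
      linarith
    have hpB : |(p k : ℝ) / ((ℓ k ^ m k : ℕ) : ℝ)| ≤ Bk k := by
      push_cast
      have e1 : (p k : ℝ) / (ℓ k : ℝ) ^ m k = ξ - (ξ - α) - be k := by rw [hα]; ring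
      rw [e1]
      have h4 := hbe0 k
      have h5 := abs_le.1 (le_refl |ξ|)
      rw [abs_le]
      simp only [hBk]
      constructor
      · linarith [hdiff.1, hdiff.2]
      · linarith [hdiff.1, hdiff.2]
    have happ : |ξ - ((p k : ℝ) / ((ℓ k ^ m k : ℕ) : ℝ) + be k)| ≤
        2 * ((ℓ k ^ m k : ℕ) : ℝ) ^ (-((d : ℝ) * (1 + w d) + dk k)) := by
      have hek : ee k = (d : ℝ) * (1 + w d) + dk k := by simp only [hee, hKk]
      rw [← hek, ← rad_rpow]
      push_cast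
      change |ξ - α| ≤ _
      rw [habs]; exact hdiff.2
    have hbig : 2 * (2 ^ d * (Bk k) ^ d + a k) ^ (1 + w d) < ((ℓ k ^ m k : ℕ) : ℝ) ^ (dk k) := by
      obtain ⟨k', rfl⟩ : ∃ k', k = k' + 1 := ⟨k - 1, by omega⟩
      have h3 : m1 (k' + 1) ≤ m (k' + 1) := hmM k'
      have h4 := hm1' (k' + 1) (m (k' + 1)) h3 ((ℓ (k' + 1) ^ m (k' + 1) : ℕ) : ℝ) (by
        push_cast
        exact pow_le_pow_left₀ (by norm_num) hℓ2 _)
      rw [hKk] at h4
      exact h4
    have hirr' := hirr k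
    have hbe' := hbe k
    rw [hKk] at hirr' hbe'
    obtain ⟨P, hP1, hP2, hP3⟩ := approx_okG hd (a k) (ha k) hirr' (be k) (hbe0 k) hbe' (w d) (Bk k)
      (dk k) ξ hw (hBk1 k) (ℓ k ^ m k) (Nat.one_le_pow _ _ (hℓ k).pos) (p k) hpB happ hbig
    refine ⟨(p k : ℝ) / ((ℓ k ^ m k : ℕ) : ℝ) + be k, ⟨P, hP1, hP2, hP3⟩, ?_, ?_⟩
    · push_cast
      change 0 < |ξ - α|
      rw [habs]; linarith [hdiff.1]
    · push_cast
      change |ξ - α| < ε
      rw [habs]; linarith [hdiff.2]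

end Pool.Agent.Y627.SP
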