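import Mathlib
import Pool.Agent.Y627.SP.AllY
import Pool.Agent.W71.Normal

/-! Normal numbers with prescribed exponents in all degrees at once. -/

set_option autoImplicit false

open Polynomial Set MeasureTheory Filter Topology

namespace Pool.Agent.Y627.SP

open Pool.Agent.W71
open Pool.Agent.H493R3 (ee ee_norm ee_add ee_neg ee_int ee_zpow sep_card sym_sum block_freq)

theorem all_deg_weyl (av : ℕ → ℝ) (w : ℕ → ℝ) (hw1 : ∀ n : ℕ, 1 ≤ n → (n : ℝ) ≤ w n)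
    (hw2 : ∀ i j : ℕ, 1 ≤ i → i ≤ j → w i ≤ w j) : ∃ ξ : ℝ, (∀ k, ξ ≠ av k) ∧
    (∀ n : ℕ, 1 ≤ n → ∀ v : ℝ, w n < v → {P : ℤ[X] | P ≠ 0 ∧ P.natDegree ≤ n ∧
      |aeval ξ P| ≤ ((Ht n P : ℕ) : ℝ) ^ (-v)}.Finite) ∧
    (∀ n : ℕ, 1 ≤ n → ∀ v : ℝ, w n < v → {α : ℝ | ∃ P : ℤ[X], MinPolyZ P α ∧ P.natDegree ≤ n ∧
      |ξ - α| ≤ (hgt P : ℝ) ^ (-v - 1)}.Finite) ∧
    (∀ n : ℕ, 1 ≤ n → {α : ℝ | ∃ P : ℤ[X], MinPolyZ P α ∧ P.natDegree = n ∧
      |ξ - α| < (hgt P : ℝ) ^ (-(1 + w n))}.Infinite) ∧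
    ∀ b : ℕ, 2 ≤ b → ∀ h : ℕ, 1 ≤ h →
      Tendsto (fun M : ℕ => ‖∑ j ∈ Finset.range M, ee (h * (ξ * (b : ℝ) ^ j))‖ / M) atTop
        (𝓝 0) := by
  classical
  obtain ⟨ξ, h0, h1, h2, h3, ℓ, m, ξ0, hℓ2, hℓ1, hmk, hYk, hclose⟩ := all_deg_Y
    (fun q k m ξ => ∀ x ∈ Finset.range (k + 1) ×ˢ Finset.range (k + 1),
      ∀ M : ℕ, Nat.log (x.1 + 2) (q ^ m) ≤ M →
      ‖Sw (x.1 + 2) (x.2 + 1) M ξ‖ ≤ (1 / ((k : ℝ) + 1)) * M)
    (by
      intro q k hq hqk β e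
      have hfact : Fact q.Prime := ⟨hq⟩
      apply Typical.finset
      intro x hx
      rw [Finset.mem_product, Finset.mem_range, Finset.mem_range] at hx
      exact Typical.weyl (x.1 + 2) (x.2 + 1) (by omega) (by omega)
        (by nlinarith) β e (1 / ((k : ℝ) + 1)) (by positivity))
    (by
      intro q k m ξ h j x hx M hM
      rw [Sw_shift]
      exact h x hx M hM) av w hw1 hw2
  have hℓ1' : ∀ k, k + 3 ≤ ℓ k := fun k => by have := hℓ1 k; nlinarith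
  refine ⟨ξ, h0, h1, h2, h3, ?_⟩
  have hqR : ∀ k, (0 : ℝ) < (ℓ k : ℝ) ^ m k := fun k => pow_pos (by exact_mod_cast (hℓ2 k).pos) _
  intro b hb h hh
  rw [Metric.tendsto_atTop]
  intro ε hε
  obtain ⟨k1, hk1⟩ := exists_nat_gt (2 / ε)
  set k0 := max k1 (max b h) with hk0
  have hk0b : b ≤ k0 := (le_max_left _ _).trans (le_max_right _ _)
  have hk0h : h ≤ k0 := (le_max_right _ _).trans (le_max_right _ _)
  obtain ⟨M1, hM1⟩ := exists_nat_gt (14 * h / ε)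
  set Tb : ℕ → ℕ := fun k => Nat.log b (ℓ k ^ m k) with hTb
  refine ⟨max (Tb k0) (M1 + 1), fun M hM => ?_⟩
  have hMT : Tb k0 ≤ M := (le_max_left _ _).trans hM
  have hMM1 : M1 + 1 ≤ M := (le_max_right _ _).trans hM
  -- the stage of `M`
  have hlarge : ∀ j, k0 ≤ j → j ≤ Tb j := by
    intro j hj
    apply Nat.le_log_of_pow_le (by omega)
    calc b ^ j ≤ (ℓ j) ^ j := Nat.pow_le_pow_left (by have := hℓ1' j; omega) _
      _ ≤ (ℓ j) ^ (m j) := Nat.pow_le_pow_right (hℓ2 j).pos (hmk j)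
  obtain ⟨k, hk1', hk2, hk3⟩ : ∃ k, k0 ≤ k ∧ Tb k ≤ M ∧ M ≤ Tb (k + 1) := by
    have hex : ∃ j, M ≤ Tb (k0 + j + 1) := by
      refine ⟨M, ?_⟩
      have := hlarge (k0 + M + 1) (by omega)
      omega
    refine ⟨k0 + Nat.find hex, by omega, ?_, Nat.find_spec hex⟩
    rcases Nat.eq_zero_or_pos (Nat.find hex) with h0 | h0
    · rw [h0]; exact hMT
    · have h1 := Nat.find_min hex (m := Nat.find hex - 1) (by omega)
      have h2 : k0 + (Nat.find hex - 1) + 1 = k0 + Nat.find hex := by omega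
      rw [h2] at h1
      omega
  have h1 := hYk k (b - 2, h - 1) (by
    rw [Finset.mem_product, Finset.mem_range, Finset.mem_range]
    constructor
    · simp only; omega
    · simp only; omega) M
  simp only at h1
  have e1 : b - 2 + 2 = b := by omega
  have e2 : h - 1 + 1 = h := by omega
  rw [e1, e2] at h1
  have h2 := h1 hk2
  have h3 := Sw_close b h M hb ξ (ξ0 k)
  have h4 : |ξ - ξ0 k| * (b : ℝ) ^ M ≤ 1 := by
    rw [abs_sub_comm]
    have h5 : (b : ℝ) ^ M ≤ (ℓ (k + 1) : ℝ) ^ m (k + 1) := by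
      have h6 : b ^ M ≤ ℓ (k + 1) ^ m (k + 1) :=
        (Nat.pow_le_pow_right (by omega) hk3).trans (Nat.pow_log_le_self b
          (pow_pos (hℓ2 (k + 1)).pos _).ne')
      exact_mod_cast h6
    calc |ξ0 k - ξ| * (b : ℝ) ^ M ≤ (1 / (ℓ (k + 1) : ℝ) ^ m (k + 1)) *
          (ℓ (k + 1) : ℝ) ^ m (k + 1) :=
          mul_le_mul (hclose k) h5 (by positivity) (by have := hqR (k + 1); positivity)
      _ = 1 := one_div_mul_cancel (hqR (k + 1)).ne'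
  have hM0 : (0 : ℝ) < M := by exact_mod_cast (by omega : 0 < M)
  have hhR : (0 : ℝ) ≤ h := Nat.cast_nonneg _
  have h5 : ‖Sw b h M ξ‖ ≤ 1 / ((k : ℝ) + 1) * M + 7 * h := by
    have := mul_le_mul_of_nonneg_left h4 (by positivity : (0 : ℝ) ≤ 7 * h)
    linarith
  rw [Real.dist_eq, sub_zero, abs_of_nonneg (by positivity), div_lt_iff₀ hM0]
  refine lt_of_le_of_lt h5 ?_
  have h6 : 1 / ((k : ℝ) + 1) ≤ ε / 2 := by
    rw [div_le_div_iff₀ (by positivity) (by norm_num)]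
    have h7 : (k1 : ℝ) ≤ k := by exact_mod_cast (le_max_left _ _).trans hk1'
    rw [div_lt_iff₀ hε] at hk1
    nlinarith
  have h7 : 14 * (h : ℝ) < ε * M := by
    have h8 : (M1 : ℝ) + 1 ≤ M := by exact_mod_cast hMM1
    rw [div_lt_iff₀ hε] at hM1
    nlinarith
  nlinarith

end Pool.Agent.Y627.SP
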